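import Mathlib
import Pool.Agent.Lib.MP_decea1_gt_C.CDefs

/-!
# MP_decea1_gt (S14098), block E: definitions

Architect: helper56. Text: `/team-store/MP_decea1_QM_E.md`.
`RatOff` is the interface with block D, `LLL` and `NEg` are the interfaces with block C.
-/

set_option autoImplicit false

open MeasureTheory Set

namespace Pool.Agent.QM59

/-- data of a rational affine map with linear part in `SL_3(ℚ)` -/
structure RatA where
  L : Matrix (Fin 3) (Fin 3) ℚ
  t : Fin 3 → ℚ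
  det : L.det = 1

/-- the rational affine map -/
def RatA.app (A : RatA) (x : E3) : E3 := fun i => (∑ j, (A.L i j : ℝ) * x j) + (A.t i : ℝ)

/-- the real point with the rational coordinates `c` -/
def qpt (c : Fin 3 → ℚ) : E3 := fun i => (c i : ℝ)

/-- closed cube with rational centre and radius -/
def QCube (c : Fin 3 → ℚ) (ρ : ℚ) : Set E3 := Metric.closedBall (qpt c) (ρ : ℝ)

/-- `s` is a rational affine map (with linear part in `SL_3(ℚ)`) on each of finitely many pairwise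
disjoint closed rational cubes in the unit cube which cover it up to measure less than `v`. -/
def RatOff (s : Equiv.Perm E3) (v : ℝ) : Prop :=
  ∃ (n : ℕ) (c : Fin n → Fin 3 → ℚ) (ρ : Fin n → ℚ) (A : Fin n → RatA),
    (∀ j, 0 < ρ j) ∧ (∀ j, QCube (c j) (ρ j) ⊆ Cube) ∧
    (Pairwise fun i j => Disjoint (QCube (c i) (ρ i)) (QCube (c j) (ρ j))) ∧
    (∀ j, ∀ x ∈ QCube (c j) (ρ j), s x = (A j).app x) ∧
    volume (Cube \ ⋃ j, QCube (c j) (ρ j)) < ENNReal.ofReal v

/-- what block E uses from block D -/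
def DFin (Γ : Subgroup (Equiv.Perm E3)) (φ : Equiv.Perm E3 → ℝ) : Prop :=
  ∀ ε : ℝ, 0 < ε → ∃ v : ℝ, 0 < v ∧ ∀ s ∈ Γ, ∀ s' ∈ Γ, RatOff s v → RatOff s' v →
    |dphi φ s s'| ≤ ε

/-- what block E uses from block C (C7.1): a map which preserves each of finitely many closed
balls of radius `l`, is the identity off them, and is near the identity at scale `l`, has
`|φ| ≤ C D`, provided that the balls of radius `R l` are disjoint and contained in the cube. -/
def LLL (k : ℕ) (ε R C : ℝ) : Prop :=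
  ∀ (Γ : Subgroup (Equiv.Perm E3)) (φ : Equiv.Perm E3 → ℝ) (D : ℝ), Good Γ → HQ Γ φ D →
  ∀ (n : ℕ) (p : Fin n → E3) (l : ℝ) (A : Equiv.Perm E3), 0 < l →
    (∀ j, Metric.ball (p j) (R * l) ⊆ Cube) →
    (Pairwise fun i j => Disjoint (Metric.ball (p i) (R * l)) (Metric.ball (p j) (R * l))) →
    IsDif A → Vol A → IdOff (⋃ j, Metric.closedBall (p j) l) A →
    (∀ j, ∀ x ∈ Metric.closedBall (p j) l, A x ∈ Metric.closedBall (p j) l) →
    (∀ i ≤ k, ∀ x, l ^ i * ‖iteratedFDeriv ℝ i (disp A) x‖ ≤ ε * l) →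
    |φ A| ≤ C * D

/-- what block E uses from block C (C7.2, near-identity extension with a gap): for all `k`,
`0 < θ < 1`, `ε' > 0` there is `ε > 0` such that ... -/
def NEg : Prop :=
  ∀ (k : ℕ) (θ ε' : ℝ), 0 < θ → θ < 1 → 0 < ε' → ∃ ε : ℝ, 0 < ε ∧
    ∀ κ : Equiv.Perm E3, IsDif κ → Vol κ →
      (∀ i ≤ k + 3, ∀ x ∈ Metric.closedBall (0 : E3) 1,
        ‖iteratedFDeriv ℝ i (disp κ) x‖ ≤ ε) →
      ∃ κ' : Equiv.Perm E3, Ok (Metric.closedBall 0 1) κ' ∧
        (∀ x ∈ Metric.closedBall (0 : E3) (1 - θ), κ' x = κ x) ∧ Bn k ε' (disp κ')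

namespace EE

/-- near the identity at scale `1 / M`, up to the order `k`:
`‖D^i (f - id)‖ ≤ δ M^(i-1)` for `i ≤ k` -/
def NId (k : ℕ) (M δ : ℝ) (f : Equiv.Perm E3) : Prop :=
  ∀ i ≤ k, ∀ x, M * ‖iteratedFDeriv ℝ i (disp f) x‖ ≤ δ * M ^ i

/-- the closed cube `[e, 1 - e]^3` -/
def Kc (e : ℝ) : Set E3 := {x | ∀ i, e ≤ x i ∧ x i ≤ 1 - e}

/-- layers: products of near-identity maps supported in pairwise disjoint closed balls of radius
at most `1 / M` -/
def Lay (k : ℕ) (M δ e : ℝ) (F : Equiv.Perm E3) : Prop :=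
  ∃ (n : ℕ) (p : Fin n → E3) (ρ : ℝ) (f : Fin n → Equiv.Perm E3), ρ * M ≤ 1 ∧
    (Pairwise fun i j => Disjoint (Metric.closedBall (p i) ρ) (Metric.closedBall (p j) ρ)) ∧
    (∀ i, Metric.closedBall (p i) ρ ⊆ Kc e) ∧ (∀ i, Ok (Metric.closedBall (p i) ρ) (f i)) ∧
    (∀ i, NId k M δ (f i)) ∧ F = (List.ofFn f).prod

/-- bounds of the derivatives of orders `1, ..., k` of `g` and its inverse -/
def TB (k : ℕ) (B : ℝ) (g : Equiv.Perm E3) : Prop :=
  (∀ i, 1 ≤ i → i ≤ k → ∀ x, ‖iteratedFDeriv ℝ i (fun y => g y) x‖ ≤ B) ∧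
    ∀ i, 1 ≤ i → i ≤ k → ∀ x, ‖iteratedFDeriv ℝ i (fun y => g⁻¹ y) x‖ ≤ B

/-- the points of the lattice of mesh `h` -/
def pt (h : ℝ) (z : Fin 3 → ℤ) : E3 := fun i => h * (z i : ℝ)

/-- the indices of the cells near `[e, 1 - e]^3` -/
def Zs (h e : ℝ) : Set (Fin 3 → ℤ) := {z | ∃ y ∈ Kc e, dist y (pt h z) ≤ h}

/-- the union of the closed balls of radius `r h` around the lattice points of one colour -/
def US (h e r : ℝ) {N : ℕ} (col : (Fin 3 → ℤ) → Fin N) (c : Fin N) : Set E3 :=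
  ⋃ z ∈ {z : Fin 3 → ℤ | z ∈ Zs h e ∧ col z = c}, Metric.closedBall (pt h z) (r * h)

/-- colourings of the lattice such that different points of the same colour are at distance at
least `L` (in units of the mesh) -/
def Sep (L : ℕ) {N : ℕ} (col : (Fin 3 → ℤ) → Fin N) : Prop :=
  ∀ z z', col z = col z' → z ≠ z' → ∃ i, (L : ℤ) ≤ |z i - z' i|

end EE

end Pool.Agent.QM59
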