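import Mathlib

/-!
# MP_decea1_gt, block E, module Collect: collecting the factors of a product by colours
-/

set_option autoImplicit false

namespace Pool.Agent.QM59.EE

/-- one more factor in front -/
private theorem collect_front {G : Type*} [Group G] (h : G) : ∀ {n : ℕ} (A : Fin n → G)
    (c₀ : Fin n), (List.ofFn fun c => if c < c₀ then h * A c * h⁻¹ else
      if c = c₀ then h * A c else A c).prod = h * (List.ofFn A).prod := by
  intro n
  induction n with
  | zero => exact fun _ c₀ => c₀.elim0
  | succ n ih =>
    intro A c₀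
    rw [List.ofFn_succ, List.ofFn_succ, List.prod_cons, List.prod_cons]
    refine Fin.cases ?_ (fun d => ?_) c₀
    · have h1 : ∀ i : Fin n, (if i.succ < (0 : Fin (n + 1)) then h * A i.succ * h⁻¹ else
          if i.succ = 0 then h * A i.succ else A i.succ) = A i.succ := fun i => by
        rw [if_neg (Fin.not_lt_zero _), if_neg (Fin.succ_ne_zero i)]
      simp only [h1]
      rw [if_neg (lt_irrefl _), if_pos trivial, mul_assoc]
    · have h1 : ∀ i : Fin n, (if i.succ < d.succ then h * A i.succ * h⁻¹ else
          if i.succ = d.succ then h * A i.succ else A i.succ) =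
          if i < d then h * A i.succ * h⁻¹ else if i = d then h * A i.succ else A i.succ :=
        fun i => by
          simp only [Fin.succ_lt_succ_iff, Fin.succ_inj]
      simp only [h1]
      rw [ih (fun i => A i.succ) d, if_pos (Fin.succ_pos d)]
      group

/-- **Collecting.** Let the factors of the product of the list `l` have colours `c < n`
(`h ∈ Hs c`). Then `l.prod = A 0 * A 1 * ... * A (n - 1)`, where `A c` is a product of at most
`l.length` conjugates `w * h * w⁻¹` of factors `h ∈ l` of the colour `c`, and `w` is a product of at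
most `l.length` factors of `l`.

Proof by induction on `l`. For `h :: t` with `h ∈ Hs c₀` and `t.prod = ∏ A c` put
`A' c = h * A c * h⁻¹` for `c < c₀`, `A' c₀ = h * A c₀`, `A' c = A c` for `c > c₀`. Then
`∏ A' c = h * ∏ A c` (split `List.ofFn`, or induct on `n`). The conjugates of `A' c`, `c < c₀`, are
`(h * w) * h' * (h * w)⁻¹`, and for `c = c₀` the new conjugate `1 * h * 1⁻¹` is added in front. -/
theorem collect {G : Type*} [Group G] {n : ℕ} (Hs : Fin n → Set G) (l : List G)
    (hl : ∀ h ∈ l, ∃ c, h ∈ Hs c) :
    ∃ A : Fin n → G, l.prod = (List.ofFn A).prod ∧ ∀ c, ∃ l' : List G,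
      l'.length ≤ l.length ∧ A c = l'.prod ∧ ∀ a ∈ l', ∃ w h, h ∈ l ∧ h ∈ Hs c ∧
        a = w * h * w⁻¹ ∧ ∃ lw : List G, lw.length ≤ l.length ∧ w = lw.prod ∧
          ∀ h' ∈ lw, h' ∈ l := by
  induction l with
  | nil =>
    refine ⟨fun _ => 1, ?_, fun c => ⟨[], le_rfl, rfl, fun a ha => absurd ha (by simp)⟩⟩
    rw [List.ofFn_const, List.prod_replicate, one_pow, List.prod_nil]
  | cons h t ih =>
    obtain ⟨A, hA, hA2⟩ := ih fun h' hh' => hl h' (List.mem_cons_of_mem h hh')
    obtain ⟨c₀, hc₀⟩ := hl h List.mem_cons_self
    refine ⟨fun c => if c < c₀ then h * A c * h⁻¹ else if c = c₀ then h * A c else A c, ?_,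
      fun c => ?_⟩
    · rw [collect_front, ← hA, List.prod_cons]
    · obtain ⟨l', h1, h2, h3⟩ := hA2 c
      have hlen : t.length ≤ (h :: t).length := by simp
      by_cases hc : c < c₀
      · refine ⟨l'.map fun a => h * a * h⁻¹, ?_, ?_, fun a ha => ?_⟩
        · rw [List.length_map]
          exact h1.trans hlen
        · simp only [if_pos hc]
          rw [h2]
          exact map_list_prod (MulAut.conj h) l'
        · obtain ⟨a', ha', rfl⟩ := List.mem_map.1 ha
          obtain ⟨w, h', e1, e2, rfl, lw, e4, rfl, e6⟩ := h3 a' ha'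
          refine ⟨h * lw.prod, h', List.mem_cons_of_mem h e1, e2, by group, h :: lw, ?_, ?_, ?_⟩
          · simp only [List.length_cons]
            omega
          · rw [List.prod_cons]
          · intro x hx
            rcases List.mem_cons.1 hx with rfl | hx
            · exact List.mem_cons_self
            · exact List.mem_cons_of_mem h (e6 x hx)
      · by_cases hcc : c = c₀
        · refine ⟨h :: l', ?_, ?_, fun a ha => ?_⟩
          · simp only [List.length_cons]
            omega
          · simp only [if_neg hc, if_pos hcc]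
            rw [h2, List.prod_cons]
          · rcases List.mem_cons.1 ha with rfl | ha
            · exact ⟨1, a, List.mem_cons_self, hcc ▸ hc₀, by group, [], by simp, rfl, by simp⟩
            · obtain ⟨w, h', e1, e2, e3, lw, e4, e5, e6⟩ := h3 a ha
              exact ⟨w, h', List.mem_cons_of_mem h e1, e2, e3, lw, e4.trans hlen, e5,
                fun x hx => List.mem_cons_of_mem h (e6 x hx)⟩
        · refine ⟨l', h1.trans hlen, ?_, fun a ha => ?_⟩
          · simp only [if_neg hc, if_neg hcc]
            exact h2
          · obtain ⟨w, h', e1, e2, e3, lw, e4, e5, e6⟩ := h3 a ha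
            exact ⟨w, h', List.mem_cons_of_mem h e1, e2, e3, lw, e4.trans hlen, e5,
              fun x hx => List.mem_cons_of_mem h (e6 x hx)⟩

end Pool.Agent.QM59.EE
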