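import Mathlib
import Pool.Agent.Lib.MP_decea1_gt_E.EDefs

/-!
# MP_decea1_gt, block E, module Color: colourings of the lattice and cells
-/

set_option autoImplicit false

open MeasureTheory Set

namespace Pool.Agent.QM59.EE

/-- The colour of `z` is the triple of residues of its coordinates modulo `L`
(`finFunctionFinEquiv`). If the residues agree and `z ≠ z'`, then some difference of coordinates is
a nonzero multiple of `L`. -/
theorem exists_col (L : ℕ) (hL : 1 ≤ L) : ∃ col : (Fin 3 → ℤ) → Fin (L ^ 3), Sep L col := by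
  have hL0 : (0 : ℤ) < (L : ℤ) := by exact_mod_cast hL
  have hlt : ∀ a : ℤ, (a % (L : ℤ)).toNat < L := by
    intro a
    have h1 := Int.emod_lt_of_pos a hL0
    have h2 := Int.emod_nonneg a hL0.ne'
    omega
  refine ⟨fun z => finFunctionFinEquiv (fun i => ⟨(z i % (L : ℤ)).toNat, hlt (z i)⟩), ?_⟩
  intro z z' hc hne
  have hc' := finFunctionFinEquiv.injective hc
  obtain ⟨i, hi⟩ := Function.ne_iff.1 hne
  refine ⟨i, ?_⟩
  have h1 := congrFun hc' i
  have h2 : (z i % (L : ℤ)).toNat = (z' i % (L : ℤ)).toNat := congrArg Fin.val h1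
  have h3 := Int.emod_nonneg (z i) hL0.ne'
  have h4 := Int.emod_nonneg (z' i) hL0.ne'
  have h5 : z i % (L : ℤ) = z' i % (L : ℤ) := by omega
  have h6 : (L : ℤ) ∣ z i - z' i := Int.ModEq.dvd (show z' i ≡ z i [ZMOD L] from h5.symm)
  have h7 : z i - z' i ≠ 0 := sub_ne_zero.2 hi
  exact Int.le_of_dvd (abs_pos.2 h7) ((dvd_abs _ _).2 h6)

/-- `z i = ⌊y i / h⌋`. -/
theorem exists_cell (h : ℝ) (hh : 0 < h) (y : E3) : ∃ z : Fin 3 → ℤ, dist y (pt h z) ≤ h := by
  refine ⟨fun i => ⌊y i / h⌋, ?_⟩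
  rw [dist_pi_le_iff hh.le]
  intro i
  have h1 := Int.floor_le (y i / h)
  have h2 := Int.lt_floor_add_one (y i / h)
  rw [le_div_iff₀ hh] at h1
  rw [div_lt_iff₀ hh] at h2
  rw [Real.dist_eq, abs_le]
  simp only [pt]
  constructor <;> nlinarith

/-- sup norm -/
theorem Sep.dist_le {L N : ℕ} {col : (Fin 3 → ℤ) → Fin N} (hs : Sep L col) {h : ℝ} (hh : 0 ≤ h)
    {z z' : Fin 3 → ℤ} (hc : col z = col z') (hne : z ≠ z') :
    h * L ≤ dist (pt h z) (pt h z') := by
  obtain ⟨i, hi⟩ := hs z z' hc hne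
  refine le_trans ?_ (dist_le_pi_dist (pt h z) (pt h z') i)
  rw [Real.dist_eq]
  simp only [pt]
  rw [← mul_sub, abs_mul, abs_of_nonneg hh]
  refine mul_le_mul_of_nonneg_left ?_ hh
  have h1 : ((L : ℤ) : ℝ) ≤ ((|z i - z' i| : ℤ) : ℝ) := by exact_mod_cast hi
  push_cast at h1
  exact h1

/-- the coordinates are bounded: `|h z i| ≤ 1 + |e| + h`. -/
theorem finite_Zs (h e : ℝ) (hh : 0 < h) : (Zs h e).Finite := by
  obtain ⟨M, hM⟩ := exists_nat_gt ((1 + |e| + h) / h)
  have hsub : Zs h e ⊆ Set.Icc (fun _ => -(M : ℤ)) (fun _ => (M : ℤ)) := by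
    rintro z ⟨y, hy, hd⟩
    have key : ∀ i, |(z i : ℝ)| < M := by
      intro i
      have h1 : dist (y i) (pt h z i) ≤ h := (dist_le_pi_dist y (pt h z) i).trans hd
      rw [Real.dist_eq] at h1
      simp only [pt] at h1
      obtain ⟨h2, h3⟩ := hy i
      have h4 : |h * (z i : ℝ)| ≤ 1 + |e| + h := by
        have h5 := abs_le.1 h1
        rw [abs_le]
        have h6 := neg_abs_le e
        have h7 := le_abs_self e
        constructor <;> linarith [h5.1, h5.2]
      rw [abs_mul, abs_of_pos hh] at h4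
      have h8 : |(z i : ℝ)| ≤ (1 + |e| + h) / h := by
        rw [le_div_iff₀ hh]
        linarith
      exact h8.trans_lt hM
    constructor
    · intro i
      have h1 := (abs_lt.1 (key i)).1
      have h2 : (-(M : ℤ) : ℤ) < z i := by exact_mod_cast h1
      exact h2.le
    · intro i
      have h1 := (abs_lt.1 (key i)).2
      have h2 : z i < (M : ℤ) := by exact_mod_cast h1
      exact h2.le
  exact (Set.finite_Icc _ _).subset hsub

/-- If `y ∈ Kc e` and `dist y (pt h z) ≤ h`, then the points at distance at most `r` from `pt h z`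
are at distance less than `e` from `y`. -/
theorem ball_sub_Cube {h e r : ℝ} {z : Fin 3 → ℤ} (hz : z ∈ Zs h e) (hr : r + h < e) :
    Metric.closedBall (pt h z) r ⊆ Cube := by
  obtain ⟨y, hy, hd⟩ := hz
  intro x hx
  rw [Metric.mem_closedBall] at hx
  have h1 : dist x y < e := by
    calc dist x y ≤ dist x (pt h z) + dist (pt h z) y := dist_triangle _ _ _
      _ ≤ r + h := add_le_add hx (by rw [dist_comm]; exact hd)
      _ < e := hr
  intro i
  have h2 : dist (x i) (y i) < e := (dist_le_pi_dist x y i).trans_lt h1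
  rw [Real.dist_eq] at h2
  obtain ⟨h3, h4⟩ := hy i
  have h5 := abs_lt.1 h2
  simp only [Pi.zero_apply, Pi.one_apply]
  constructor <;> linarith [h5.1, h5.2]

/-- `US h e r col c` is a finite union of closed balls. -/
theorem isCompact_US (h e r : ℝ) (hh : 0 < h) {N : ℕ} (col : (Fin 3 → ℤ) → Fin N)
    (c : Fin N) : IsCompact (US h e r col c) := by
  unfold US
  have hf : {z : Fin 3 → ℤ | z ∈ Zs h e ∧ col z = c}.Finite :=
    (finite_Zs h e hh).subset fun z hz => hz.1
  exact hf.isCompact_biUnion fun z _ => isCompact_closedBall _ _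

theorem US_sub_Cube (h e r : ℝ) (hr : r * h + h < e) {N : ℕ} (col : (Fin 3 → ℤ) → Fin N)
    (c : Fin N) : US h e r col c ⊆ Cube := by
  unfold US
  exact Set.iUnion₂_subset fun z hz => ball_sub_Cube hz.1 hr

theorem US_mono (h e r r' : ℝ) (hh : 0 ≤ h) (hr : r ≤ r') {N : ℕ} (col : (Fin 3 → ℤ) → Fin N)
    (c : Fin N) : US h e r col c ⊆ US h e r' col c := by
  unfold US
  exact Set.iUnion₂_mono fun z _ =>
    Metric.closedBall_subset_closedBall (mul_le_mul_of_nonneg_right hr hh)

end Pool.Agent.QM59.EE
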