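import Mathlib
import Pool.Agent.Lib.MP_decea1_gt_E.EDefs
import Pool.Agent.Lib.MP_decea1_gt_A.J2
import Pool.Agent.Lib.MP_decea1_gt_C.Prm
import Pool.Agent.Lib.MP_decea1_gt_C.Norms

/-!
# MP_decea1_gt, block E, module Nrm: calculus of near-identity maps at scale `1 / M`

`NId k M δ f` means `M ‖D^i (f - id)‖ ≤ δ M^i` for `i ≤ k`. Everything is homothety invariant: if
`f̂ = homoth 0 M * f * (homoth 0 M)⁻¹`, that is `f̂ x = M f (x / M)`, then
`disp f̂ x = M disp f (x / M)` and `NId k M δ f ↔ Bn k δ (disp f̂)`; `f ↦ f̂` is a homomorphism. So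
the statements for general `M` follow from those for `M = 1`, which are the composition estimates
E2 - E5 of block C (module `C/Norms.lean`, weight `η = 1`).
-/

set_option autoImplicit false

open MeasureTheory Set

namespace Pool.Agent.QM59.EE

/-- scaling of the iterated derivatives, without smoothness -/
private theorem nrm_scale {M : ℝ} (hM : 0 < M) (v : E3 → E3) (i : ℕ) (x : E3) :
    ‖iteratedFDeriv ℝ i (fun y => M • v (M⁻¹ • y)) x‖ =
      M * (M⁻¹ ^ i * ‖iteratedFDeriv ℝ i v (M⁻¹ • x)‖) := by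
  have hMi : (0 : ℝ) < M⁻¹ := inv_pos.2 hM
  obtain ⟨g, hg⟩ : ∃ g : E3 ≃L[ℝ] E3, ∀ y, g y = M • y :=
    ⟨ContinuousLinearEquiv.smulLeft (Units.mk0 M hM.ne'), fun y => rfl⟩
  obtain ⟨h, hh⟩ : ∃ h : E3 ≃L[ℝ] E3, ∀ y, h y = M⁻¹ • y :=
    ⟨ContinuousLinearEquiv.smulLeft (Units.mk0 M⁻¹ hMi.ne'), fun y => rfl⟩
  have e : (fun y => M • v (M⁻¹ • y)) = g ∘ (v ∘ h) := by
    funext y
    rw [Function.comp_apply, Function.comp_apply, hg, hh]
  have e2 := h.iteratedFDerivWithin_comp_right v uniqueDiffOn_univ (mem_univ (h x)) i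
  rw [preimage_univ, iteratedFDerivWithin_univ, iteratedFDerivWithin_univ] at e2
  rw [e, g.iteratedFDeriv_comp_left, e2, hh]
  have e3 : g.toContinuousLinearMap.compContinuousMultilinearMap
      ((iteratedFDeriv ℝ i v (M⁻¹ • x)).compContinuousLinearMap fun _ => (h : E3 →L[ℝ] E3)) =
      M • (M⁻¹ ^ i • iteratedFDeriv ℝ i v (M⁻¹ • x)) := by
    ext1 m
    have e4 : (fun j => (h : E3 →L[ℝ] E3) (m j)) = fun j => M⁻¹ • m j := funext fun j => hh _
    have e5 := (iteratedFDeriv ℝ i v (M⁻¹ • x)).map_smul_univ (fun _ => M⁻¹) m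
    rw [Finset.prod_const, Finset.card_univ, Fintype.card_fin] at e5
    change g ((iteratedFDeriv ℝ i v (M⁻¹ • x)) fun j => (h : E3 →L[ℝ] E3) (m j)) = _
    rw [hg, e4, e5]
    rfl
  rw [e3, norm_smul, norm_smul, norm_pow, Real.norm_eq_abs, Real.norm_eq_abs, abs_of_pos hM,
    abs_of_pos hMi]

private theorem nrm_to {k : ℕ} {M δ : ℝ} {f : Equiv.Perm E3} (hM : 0 < M) (h : NId k M δ f) :
    Nb.NBN k M 1 (disp f) (δ / M) := by
  have h1 : ∀ i ≤ k, ∀ x, ‖iteratedFDeriv ℝ i (disp f) x‖ ≤ δ / M * M ^ i := by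
    intro i hi x
    rw [div_mul_eq_mul_div, le_div_iff₀ hM, mul_comm]
    exact h i hi x
  exact ⟨fun i hi x => h1 i hi.le x, fun x => by rw [one_mul]; exact h1 k le_rfl x⟩

private theorem nrm_of {k : ℕ} {M δ : ℝ} {f : Equiv.Perm E3} (hM : 0 < M)
    (h : Nb.NBN k M 1 (disp f) (δ / M)) : NId k M δ f := by
  intro i hi x
  have h1 : ‖iteratedFDeriv ℝ i (disp f) x‖ ≤ δ / M * M ^ i := by
    rcases hi.lt_or_eq with hi | rfl
    · exact h.1 i hi x
    · have h2 := h.2 x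
      rwa [one_mul] at h2
  rwa [div_mul_eq_mul_div, le_div_iff₀ hM, mul_comm] at h1

private theorem nrm_dif (l : List (Equiv.Perm E3)) (h : ∀ g ∈ l, IsDif g) : IsDif l.prod := by
  induction l with
  | nil =>
    rw [List.prod_nil]
    exact IsDif.one
  | cons a t ih =>
    rw [List.prod_cons]
    exact (h a List.mem_cons_self).mul (ih fun g hg => h g (List.mem_cons_of_mem a hg))

theorem NId.mono {k : ℕ} {M δ δ' : ℝ} {f : Equiv.Perm E3} (h : NId k M δ f) (hM : 0 ≤ M)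
    (hδ : δ ≤ δ') : NId k M δ' f := by
  intro i hi x
  exact (h i hi x).trans (mul_le_mul_of_nonneg_right hδ (pow_nonneg hM i))

theorem NId.mono_order {k k' : ℕ} {M δ : ℝ} {f : Equiv.Perm E3} (h : NId k M δ f)
    (hk : k' ≤ k) : NId k' M δ f := by
  exact fun i hi x => h i (hi.trans hk) x

theorem NId.one (k : ℕ) {M δ : ℝ} (hM : 0 ≤ M) (hδ : 0 ≤ δ) : NId k M δ 1 := by
  intro i _ x
  have h1 : disp (1 : Equiv.Perm E3) = fun _ => 0 := by
    funext y
    simp [disp]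
  have h2 : iteratedFDeriv ℝ i (fun _ : E3 => (0 : E3)) x = 0 :=
    congrFun (iteratedFDeriv_fun_zero (𝕜 := ℝ) (E := E3) (F := E3) (n := i)) x
  rw [h1, h2, norm_zero, mul_zero]
  exact mul_nonneg hδ (pow_nonneg hM i)

/-- level `0` -/
theorem NId.disp_le {k : ℕ} {M δ : ℝ} {f : Equiv.Perm E3} (h : NId k M δ f) (hM : 0 < M)
    (x : E3) : ‖disp f x‖ ≤ δ / M := by
  have h1 := h 0 (Nat.zero_le k) x
  rw [norm_iteratedFDeriv_zero, pow_zero, mul_one] at h1
  rw [le_div_iff₀ hM, mul_comm]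
  exact h1

/-- level `1` -/
theorem NId.fderiv_le {k : ℕ} {M δ : ℝ} {f : Equiv.Perm E3} (h : NId k M δ f) (hM : 0 < M)
    (hk : 1 ≤ k) (x : E3) : ‖fderiv ℝ (disp f) x‖ ≤ δ := by
  have h1 := h 1 hk x
  rw [norm_iteratedFDeriv_one, pow_one, mul_comm δ] at h1
  exact le_of_mul_le_mul_left h1 hM

/-- rescaling to `M = 1` -/
theorem NId_iff_scl {k : ℕ} {M δ : ℝ} (hM : 0 < M) (f : Equiv.Perm E3) :
    NId k M δ f ↔ NId k 1 δ (scl M hM.ne' f) := by
  have hd : disp (scl M hM.ne' f) = fun y => M • disp f (M⁻¹ • y) :=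
    funext fun y => disp_scl f M hM.ne' y
  have hMi : (0 : ℝ) < M⁻¹ := inv_pos.2 hM
  constructor
  · intro h i hi x
    rw [hd, nrm_scale hM, one_mul, one_pow, mul_one]
    have h1 := mul_le_mul_of_nonneg_left (h i hi (M⁻¹ • x)) (pow_nonneg hMi.le i)
    have h2 : M⁻¹ ^ i * (δ * M ^ i) = δ := by
      rw [mul_left_comm, ← mul_pow, inv_mul_cancel₀ hM.ne', one_pow, mul_one]
    rw [h2] at h1
    calc M * (M⁻¹ ^ i * ‖iteratedFDeriv ℝ i (disp f) (M⁻¹ • x)‖)
        = M⁻¹ ^ i * (M * ‖iteratedFDeriv ℝ i (disp f) (M⁻¹ • x)‖) := by ring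
      _ ≤ δ := h1
  · intro h i hi x
    have h1 := h i hi (M • x)
    rw [hd, nrm_scale hM, one_mul, one_pow, mul_one, inv_smul_smul₀ hM.ne'] at h1
    have h2 := mul_le_mul_of_nonneg_right h1 (pow_nonneg hM.le i)
    have h3 : M * (M⁻¹ ^ i * ‖iteratedFDeriv ℝ i (disp f) x‖) * M ^ i =
        (M⁻¹ * M) ^ i * (M * ‖iteratedFDeriv ℝ i (disp f) x‖) := by
      rw [mul_pow]
      ring
    rw [h3, inv_mul_cancel₀ hM.ne', one_pow, one_mul] at h2
    exact h2

/-- products (E5): `disp (f * g) = disp f ∘ (id + disp g) + disp g`. -/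
theorem NId_mul (k : ℕ) : ∃ C c : ℝ, 1 ≤ C ∧ 0 < c ∧ ∀ (M a b : ℝ) (f g : Equiv.Perm E3),
    0 < M → 0 ≤ a → a ≤ c → 0 ≤ b → b ≤ c → IsDif f → IsDif g → NId k M a f → NId k M b g →
      NId k M (C * (a + b)) (f * g) := by
  rcases Nat.eq_zero_or_pos k with rfl | hk
  · refine ⟨1, 1, le_rfl, one_pos, ?_⟩
    intro M a b f g hM _ _ _ _ _ _ hfa hgb i hi x
    obtain rfl : i = 0 := by omega
    have h1 := hfa 0 le_rfl (x + disp g x)
    have h2 := hgb 0 le_rfl x
    rw [norm_iteratedFDeriv_zero] at h1 h2 ⊢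
    rw [disp_mul, one_mul, add_mul]
    calc M * ‖disp g x + disp f (x + disp g x)‖
        ≤ M * (‖disp g x‖ + ‖disp f (x + disp g x)‖) :=
          mul_le_mul_of_nonneg_left (norm_add_le _ _) hM.le
      _ = M * ‖disp f (x + disp g x)‖ + M * ‖disp g x‖ := by ring
      _ ≤ a * M ^ 0 + b * M ^ 0 := add_le_add h1 h2
  · have hC := Nb.one_le_cN k
    refine ⟨Nb.cN k, 1, hC, one_pos, ?_⟩
    intro M a b f g hM ha _ hb hb1 hf hg hfa hgb
    have h1 : Nb.NBN k M 1 (fun x => disp g x + disp f (x + disp g x))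
        (b / M + Nb.cN k * (a / M)) :=
      Nb.NBN.comp_id hk hM zero_le_one le_rfl hf.contDiff_disp hg.contDiff_disp
        (fun x => (hgb.fderiv_le hM hk x).trans hb1) (nrm_to hM hfa) (nrm_to hM hgb)
        (by rw [mul_div_cancel₀ _ hM.ne']; exact hb1)
    have h3 : disp (f * g) = fun x => disp g x + disp f (x + disp g x) :=
      funext fun x => disp_mul f g x
    rw [← h3] at h1
    have h4 : b / M + Nb.cN k * (a / M) = (b + Nb.cN k * a) / M := by ring
    rw [h4] at h1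
    refine (nrm_of hM h1).mono hM.le ?_
    have h5 : b ≤ Nb.cN k * b := le_mul_of_one_le_left hb hC
    linarith

/-- inverses (E4) -/
theorem NId_inv (k : ℕ) : ∃ C c : ℝ, 1 ≤ C ∧ 0 < c ∧ ∀ (M a : ℝ) (f : Equiv.Perm E3),
    0 < M → 0 ≤ a → a ≤ c → IsDif f → NId k M a f → NId k M (C * a) f⁻¹ := by
  rcases Nat.eq_zero_or_pos k with rfl | hk
  · refine ⟨1, 1, le_rfl, one_pos, ?_⟩
    intro M a f hM _ _ _ hfa i hi x
    obtain rfl : i = 0 := by omega
    have h1 := hfa 0 le_rfl (x + disp f⁻¹ x)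
    rw [norm_iteratedFDeriv_zero] at h1 ⊢
    rw [disp_inv, norm_neg, one_mul]
    exact h1
  · have hC := Nb.one_le_cN k
    have hC0 := Nb.cN_pos k
    refine ⟨2 * Nb.cN k, (2 * Nb.cN k)⁻¹, by linarith, by positivity, ?_⟩
    intro M a f hM ha hac hf hfa
    have h2 : 2 * Nb.cN k * a ≤ 1 := by
      have h3 := mul_le_mul_of_nonneg_left hac (by positivity : 0 ≤ 2 * Nb.cN k)
      rwa [mul_inv_cancel₀ (by positivity)] at h3
    have ha2 : a ≤ 1 / 2 := by nlinarith
    have h1 := Nb.NBN.inv hk hM zero_le_one le_rfl hf.contDiff_disp hf.inv.contDiff_disp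
      (disp_inv f) (fun x => (hfa.fderiv_le hM hk x).trans ha2) (nrm_to hM hfa)
      (by rw [mul_div_cancel₀ _ hM.ne']; exact h2)
    have h4 : 2 * Nb.cN k * (a / M) = 2 * Nb.cN k * a / M := by ring
    rw [h4] at h1
    exact nrm_of hM h1

/-- Products of boundedly many maps and inverses of maps near the identity are near the identity:
induction on `N` with `NId_mul` and `NId_inv`. -/
theorem NId_list (k N : ℕ) (ε : ℝ) (hε : 0 < ε) : ∃ δ : ℝ, 0 < δ ∧ δ ≤ ε ∧
    ∀ (M : ℝ) (l : List (Equiv.Perm E3)), 0 < M → l.length ≤ N →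
      (∀ f ∈ l, IsDif f ∧ (NId k M δ f ∨ NId k M δ f⁻¹)) → NId k M ε l.prod := by
  induction N generalizing ε with
  | zero =>
    refine ⟨ε, hε, le_rfl, ?_⟩
    intro M l hM hl _
    have h1 : l = [] := List.length_eq_zero_iff.1 (Nat.le_zero.1 hl)
    rw [h1, List.prod_nil]
    exact NId.one k hM.le hε.le
  | succ N ih =>
    obtain ⟨C, c, hC, hc, hmul⟩ := NId_mul k
    obtain ⟨C', c', hC', hc', hinv⟩ := NId_inv k
    have hC0 : 0 < C := by linarith
    have hC0' : 0 < C' := by linarith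
    obtain ⟨δ', hδ', hle, h⟩ := ih (min c (ε / (2 * C))) (lt_min hc (by positivity))
    set ε' : ℝ := min c (ε / (2 * C)) with hε'
    have hε0 : 0 < ε' := hδ'.trans_le hle
    have hεc : ε' ≤ c := min_le_left _ _
    have hεε : C * (ε' + ε') ≤ ε := by
      have h1 : ε' ≤ ε / (2 * C) := min_le_right _ _
      rw [le_div_iff₀ (by positivity)] at h1
      linarith
    have hε1 : ε' ≤ ε := by nlinarith
    refine ⟨min δ' (min c' (ε' / C')), lt_min hδ' (lt_min hc' (by positivity)),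
      (min_le_left _ _).trans (hle.trans hε1), ?_⟩
    set δ : ℝ := min δ' (min c' (ε' / C')) with hδ
    have hδ0 : 0 < δ := lt_min hδ' (lt_min hc' (by positivity))
    have hδ1 : δ ≤ δ' := min_le_left _ _
    have hδ2 : δ ≤ c' := (min_le_right _ _).trans (min_le_left _ _)
    have hδ3 : C' * δ ≤ ε' := by
      have h1 : δ ≤ ε' / C' := (min_le_right _ _).trans (min_le_right _ _)
      rw [le_div_iff₀ hC0'] at h1
      linarith
    intro M l hM hl hf
    cases l with
    | nil =>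
      rw [List.prod_nil]
      exact NId.one k hM.le hε.le
    | cons f t =>
      rw [List.prod_cons]
      have hfd := (hf f List.mem_cons_self).1
      have hft : ∀ g ∈ t, IsDif g ∧ (NId k M δ' g ∨ NId k M δ' g⁻¹) := by
        intro g hg
        obtain ⟨h1, h2⟩ := hf g (List.mem_cons_of_mem f hg)
        exact ⟨h1, h2.imp (fun h3 => h3.mono hM.le hδ1) fun h3 => h3.mono hM.le hδ1⟩
      have h1 : NId k M ε' f := by
        rcases (hf f List.mem_cons_self).2 with h2 | h2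
        · exact h2.mono hM.le (hδ1.trans hle)
        · have h3 := hinv M δ f⁻¹ hM hδ0.le hδ2 hfd.inv h2
          rw [inv_inv] at h3
          exact h3.mono hM.le hδ3
      have h4 : NId k M ε' t.prod := h M t hM (by
        rw [List.length_cons] at hl
        omega) hft
      have h5 : IsDif t.prod := nrm_dif t fun g hg => (hft g hg).1
      exact (hmul M ε' ε' f t.prod hM hε0.le hεc hε0.le hεc hfd h5 h1 h4).mono hM.le hεε

end Pool.Agent.QM59.EE
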