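import Mathlib
import Pool.Agent.Lib.MP_decea1_gt_E.Nrm

/-!
# MP_decea1_gt, block E, module Conj: conjugates of near-identity maps with fixed maps
-/

set_option autoImplicit false

open MeasureTheory Set

namespace Pool.Agent.QM59.EE

private theorem conj_le_smo (n : ℕ) : ((n : ℕ∞) : WithTop ℕ∞) ≤ smo := by
  exact_mod_cast le_top

private theorem conj_add {F : Type*} [NormedAddCommGroup F] [NormedSpace ℝ F] {k : ℕ} {a b : ℝ}
    {f g : E3 → F} (hf : ContDiff ℝ smo f) (hg : ContDiff ℝ smo g) (h : Bn k a f)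
    (h' : Bn k b g) : Bn k (a + b) (fun x => f x + g x) := by
  intro i hi x
  have e : iteratedFDeriv ℝ i (fun x => f x + g x) x
      = iteratedFDeriv ℝ i f x + iteratedFDeriv ℝ i g x :=
    fun_iteratedFDeriv_add_apply (hf.of_le (conj_le_smo i)).contDiffAt
      (hg.of_le (conj_le_smo i)).contDiffAt
  rw [e]
  exact (norm_add_le _ _).trans (add_le_add (h i hi x) (h' i hi x))

private theorem conj_comp {F : Type*} [NormedAddCommGroup F] [NormedSpace ℝ F] {k : ℕ}
    {a b : ℝ} (ha : 0 ≤ a) (hb : 0 ≤ b)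
    {f : E3 → (E3 →L[ℝ] F)} {g : E3 → (E3 →L[ℝ] E3)} (hf : ContDiff ℝ smo f)
    (hg : ContDiff ℝ smo g) (h : Bn k a f) (h' : Bn k b g) :
    Bn k (2 ^ k * a * b) (fun x => (f x).comp (g x)) := by
  intro i hi x
  have e := (ContinuousLinearMap.compL ℝ E3 E3 F).norm_iteratedFDeriv_le_of_bilinear_of_le_one
    hf hg x (n := i) (conj_le_smo i) (ContinuousLinearMap.norm_compL_le ℝ E3 E3 F)
  refine e.trans ?_
  calc ∑ j ∈ Finset.range (i + 1), (i.choose j : ℝ) * ‖iteratedFDeriv ℝ j f x‖ *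
        ‖iteratedFDeriv ℝ (i - j) g x‖
      ≤ ∑ j ∈ Finset.range (i + 1), (i.choose j : ℝ) * a * b := by
        refine Finset.sum_le_sum fun j hj => ?_
        have hj' : j ≤ i := Nat.lt_succ_iff.mp (Finset.mem_range.mp hj)
        have h1 := h j (hj'.trans hi) x
        have h2 := h' (i - j) ((Nat.sub_le _ _).trans hi) x
        gcongr
    _ = 2 ^ i * a * b := by
        rw [← Finset.sum_mul, ← Finset.sum_mul, ← Nat.cast_sum, Nat.sum_range_choose]
        push_cast
        ring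
    _ ≤ 2 ^ k * a * b := by
        have : (2 : ℝ) ^ i ≤ 2 ^ k := pow_le_pow_right₀ (by norm_num) hi
        gcongr

/-- Let `‖D^i U‖ ≤ B` for `1 ≤ i ≤ k + 1` and `Bn k a v`, `a ≤ 1`. Then all derivatives of order at
most `k` of `U ∘ (id + v) - U` are bounded by `C a`, `C = C(k, B)`. Induction on `k`, for all
target spaces: level `0` is the mean value inequality
(`Convex.norm_image_sub_le_of_norm_fderiv_le`), and
`D (U ∘ (id + v) - U) = (DU ∘ (id + v) - DU) + (DU ∘ (id + v)) ∘L Dv`;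
the first summand is bounded by the induction hypothesis for `DU`, the second is a bilinear
expression (`ContinuousLinearMap.norm_iteratedFDeriv_le_of_bilinear`, or E1 of block C). -/
theorem comp_sub_bound (k : ℕ) (B : ℝ) (hB : 0 ≤ B) : ∃ C : ℝ, 1 ≤ C ∧
    ∀ (F : Type) [NormedAddCommGroup F] [NormedSpace ℝ F] (U : E3 → F) (v : E3 → E3) (a : ℝ),
      ContDiff ℝ smo U → ContDiff ℝ smo v → 0 ≤ a → a ≤ 1 →
      (∀ i, 1 ≤ i → i ≤ k + 1 → ∀ x, ‖iteratedFDeriv ℝ i U x‖ ≤ B) → Bn k a v →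
      Bn k (C * a) (fun x => U (x + v x) - U x) := by
  have zero : ∀ (F : Type) [NormedAddCommGroup F] [NormedSpace ℝ F] (U : E3 → F)
      (v : E3 → E3) (a C : ℝ), ContDiff ℝ smo U → 0 ≤ a → B ≤ C →
      (∀ x, ‖iteratedFDeriv ℝ 1 U x‖ ≤ B) → (∀ x, ‖iteratedFDeriv ℝ 0 v x‖ ≤ a) →
      ∀ x, ‖iteratedFDeriv ℝ 0 (fun x => U (x + v x) - U x) x‖ ≤ C * a := by
    intro F _ _ U v a C hU ha hBC h1 h2 x
    rw [norm_iteratedFDeriv_zero]
    have h3 : ∀ y ∈ (univ : Set E3), ‖fderiv ℝ U y‖ ≤ B := fun y _ => by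
      have := h1 y
      rwa [norm_iteratedFDeriv_one] at this
    have h4 := Convex.norm_image_sub_le_of_norm_fderiv_le
      (fun y _ => (hU.differentiable (by simp)).differentiableAt) h3 convex_univ
      (mem_univ x) (mem_univ (x + v x))
    have h5 : ‖v x‖ ≤ a := by
      have := h2 x
      rwa [norm_iteratedFDeriv_zero] at this
    calc ‖U (x + v x) - U x‖ ≤ B * ‖x + v x - x‖ := h4
      _ = B * ‖v x‖ := by rw [add_sub_cancel_left]
      _ ≤ C * a := by
        have hC0 : 0 ≤ C := hB.trans hBC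
        gcongr
  induction k with
  | zero =>
    refine ⟨max 1 B, le_max_left _ _, ?_⟩
    intro F _ _ U v a hU hv ha ha1 h1 h2 i hi x
    obtain rfl : i = 0 := Nat.le_zero.mp hi
    exact zero F U v a _ hU ha (le_max_right _ _) (fun y => h1 1 le_rfl (by omega) y)
      (fun y => h2 0 le_rfl y) x
  | succ k ih =>
    obtain ⟨C, hC1, hC⟩ := ih
    have hpow : (1 : ℝ) ≤ 2 ^ k := one_le_pow₀ (by norm_num)
    have hCB : B ≤ 2 ^ k * (C + B) := by nlinarith
    have hC'B : B ≤ C + 2 ^ k * (C + B) := by linarith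
    refine ⟨C + 2 ^ k * (C + B), by linarith, ?_⟩
    intro F _ _ U v a hU hv ha ha1 h1 h2 i hi x
    rcases Nat.eq_zero_or_pos i with rfl | hpos
    · exact zero F U v a _ hU ha hC'B (fun y => h1 1 le_rfl (by omega) y)
        (fun y => h2 0 (Nat.zero_le _) y) x
    · obtain ⟨j, rfl⟩ : ∃ j, i = j + 1 := ⟨i - 1, by omega⟩
      have hj : j ≤ k := by omega
      have hUd : Differentiable ℝ U := hU.differentiable (by simp)
      have hvd : Differentiable ℝ v := hv.differentiable (by simp)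
      have hDU : ContDiff ℝ smo (fderiv ℝ U) := hU.fderiv_right (by simp)
      have hDv : ContDiff ℝ smo (fderiv ℝ v) := hv.fderiv_right (by simp)
      have hDUv : ContDiff ℝ smo (fun x => fderiv ℝ U (x + v x)) :=
        hDU.comp (contDiff_id.add hv)
      have hB1 : ∀ i, 1 ≤ i → i ≤ k + 1 → ∀ x, ‖iteratedFDeriv ℝ i (fderiv ℝ U) x‖ ≤ B := by
        intro i hi1 hi2 x
        rw [norm_iteratedFDeriv_fderiv]
        exact h1 (i + 1) (by omega) (by omega) x
      have hB0 : Bn k B (fderiv ℝ U) := by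
        intro i hi x
        rw [norm_iteratedFDeriv_fderiv]
        exact h1 (i + 1) (by omega) (by omega) x
      have hv' : Bn k a (fderiv ℝ v) := by
        intro i hi x
        rw [norm_iteratedFDeriv_fderiv]
        exact h2 (i + 1) (by omega) x
      have hvk : Bn k a v := fun i hi x => h2 i (by omega) x
      have s1 := hC (E3 →L[ℝ] F) (fderiv ℝ U) v a hDU hv ha ha1 hB1 hvk
      have s2 : Bn k (C + B) (fun x => fderiv ℝ U (x + v x)) := by
        have s3 := conj_add (hDUv.sub hDU) hDU s1 hB0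
        intro i hi x
        have s4 := s3 i hi x
        have e : (fun x => fderiv ℝ U (x + v x) - fderiv ℝ U x + fderiv ℝ U x)
            = fun x => fderiv ℝ U (x + v x) := by
          funext x
          rw [sub_add_cancel]
        rw [e] at s4
        have : C * a ≤ C * 1 := by gcongr
        linarith
      have s5 := conj_comp (by linarith) ha hDUv hDv s2 hv'
      have hc : ContDiff ℝ smo (fun x => (fderiv ℝ U (x + v x)).comp (fderiv ℝ v x)) :=
        hDUv.clm_comp hDv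
      have s6 := conj_add (hDUv.sub hDU) hc s1 s5
      have e2 : fderiv ℝ (fun x => U (x + v x) - U x)
          = fun x => (fderiv ℝ U (x + v x) - fderiv ℝ U x)
            + (fderiv ℝ U (x + v x)).comp (fderiv ℝ v x) := by
        funext x
        have d1 : HasFDerivAt (fun x => x + v x) (ContinuousLinearMap.id ℝ E3 + fderiv ℝ v x) x :=
          (hasFDerivAt_id x).add (hvd x).hasFDerivAt
        have d2 : HasFDerivAt (fun x => U (x + v x))
            ((fderiv ℝ U (x + v x)).comp (ContinuousLinearMap.id ℝ E3 + fderiv ℝ v x)) x :=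
          (hUd (x + v x)).hasFDerivAt.comp x d1
        have d3 : HasFDerivAt (fun x => U (x + v x) - U x) _ x := d2.sub (hUd x).hasFDerivAt
        rw [d3.fderiv, ContinuousLinearMap.comp_add, ContinuousLinearMap.comp_id]
        abel
      rw [← norm_iteratedFDeriv_fderiv, e2]
      refine (s6 j hj x).trans (le_of_eq ?_)
      ring

/-- Conjugation at scale one: `disp (g⁻¹ * f * g) x = W (g x)` with
`W y = g⁻¹ (y + v y) - g⁻¹ y`, `v = disp f`. `comp_sub_bound` for `U = g⁻¹` and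
`norm_iteratedFDeriv_comp_le` with the bound `‖D^i g‖ ≤ D ^ i`, `D = max 1 B`. -/
theorem conj_bound_one (k : ℕ) (B : ℝ) (hB : 0 ≤ B) : ∃ C : ℝ, 1 ≤ C ∧
    ∀ (a : ℝ) (f g : Equiv.Perm E3), 0 ≤ a → a ≤ 1 → IsDif f → IsDif g → TB (k + 1) B g →
      NId k 1 a f → NId k 1 (C * a) (g⁻¹ * f * g) := by
  obtain ⟨C, hC1, hC⟩ := comp_sub_bound k B hB
  set D : ℝ := max 1 B with hD
  have hD1 : 1 ≤ D := le_max_left _ _
  have hDB : B ≤ D := le_max_right _ _
  have hfac : (1 : ℝ) ≤ (k.factorial : ℝ) := by exact_mod_cast Nat.factorial_pos k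
  have hDk : (1 : ℝ) ≤ D ^ k := one_le_pow₀ hD1
  refine ⟨(k.factorial : ℝ) * C * D ^ k, ?_, ?_⟩
  · have : 1 ≤ (k.factorial : ℝ) * C := one_le_mul_of_one_le_of_one_le hfac hC1
    exact one_le_mul_of_one_le_of_one_le this hDk
  intro a f g ha ha1 hf hg hT hN n hn x
  have hgs : ContDiff ℝ smo (fun x => g x) := hg.1
  have hgi : ContDiff ℝ smo (fun x => g⁻¹ x) := hg.2
  have hv : ContDiff ℝ smo (disp f) := hf.1.sub contDiff_id
  have hBn : Bn k a (disp f) := by
    intro i hi x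
    have := hN i hi x
    simpa using this
  have hW := hC E3 (fun x => g⁻¹ x) (disp f) a hgi hv ha ha1
    (fun i hi1 hi2 x => hT.2 i hi1 hi2 x) hBn
  have e : disp (g⁻¹ * f * g)
      = (fun y => (fun x => g⁻¹ x) (y + disp f y) - (fun x => g⁻¹ x) y) ∘ (fun x => g x) := by
    funext x
    simp only [disp, Function.comp_apply, Equiv.Perm.mul_apply, add_sub_cancel]
    rw [show g⁻¹ (g x) = x from g.symm_apply_apply x]
  have hWs : ContDiff ℝ smo (fun y => (fun x => g⁻¹ x) (y + disp f y) - (fun x => g⁻¹ x) y) :=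
    (hgi.comp (contDiff_id.add hv)).sub hgi
  rw [one_mul, one_pow, mul_one, e]
  have key := norm_iteratedFDeriv_comp_le hWs hgs (n := n) (conj_le_smo n) x (C := C * a) (D := D)
    (fun i hi => hW i (hi.trans hn) (g x))
    (fun i hi1 hi2 => (hT.1 i hi1 (by omega) x).trans
      (hDB.trans (le_self_pow₀ hD1 (by omega))))
  refine key.trans ?_
  have h1 : (n.factorial : ℝ) ≤ k.factorial := by exact_mod_cast Nat.factorial_le hn
  have h2 : D ^ n ≤ D ^ k := pow_le_pow_right₀ hD1 hn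
  calc (n.factorial : ℝ) * (C * a) * D ^ n ≤ k.factorial * (C * a) * D ^ k := by gcongr
    _ = k.factorial * C * D ^ k * a := by ring

private theorem scl_apply (M : ℝ) (hM : M ≠ 0) (g : Equiv.Perm E3) (x : E3) :
    scl M hM g x = M • g (M⁻¹ • x) := by
  unfold scl
  rw [Equiv.Perm.mul_apply, Equiv.Perm.mul_apply]
  change (0 : E3) + M • g (M⁻¹ • (x - 0)) = _
  rw [zero_add, sub_zero]

private theorem scl_inv (M : ℝ) (hM : M ≠ 0) (g : Equiv.Perm E3) :
    (scl M hM g)⁻¹ = scl M hM g⁻¹ := by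
  unfold scl
  group

private theorem scl_mul (M : ℝ) (hM : M ≠ 0) (f g : Equiv.Perm E3) :
    scl M hM (f * g) = scl M hM f * scl M hM g := by
  unfold scl
  group

private theorem scl_isDif (M : ℝ) (hM : M ≠ 0) {g : Equiv.Perm E3} (hg : IsDif g) :
    IsDif (scl M hM g) := by
  have aux : ∀ u : Equiv.Perm E3, ContDiff ℝ smo (fun x => u x) →
      ContDiff ℝ smo (fun x => scl M hM u x) := by
    intro u hu
    have : (fun x => scl M hM u x) = fun x => M • u (M⁻¹ • x) := by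
      funext x
      exact scl_apply M hM u x
    rw [this]
    exact (hu.comp (contDiff_const_smul M⁻¹)).const_smul M
  refine ⟨aux g hg.1, ?_⟩
  have : (fun x => (scl M hM g).symm x) = fun x => scl M hM g⁻¹ x := by
    funext x
    rw [← scl_inv]
    rfl
  rw [this]
  exact aux g⁻¹ hg.2

private theorem TB_aux {k : ℕ} {B : ℝ} (hB : 0 ≤ B) {M : ℝ} (hM : 1 ≤ M) {g : Equiv.Perm E3}
    (hg : ContDiff ℝ smo (fun x => g x))
    (h : ∀ i, 1 ≤ i → i ≤ k → ∀ x, ‖iteratedFDeriv ℝ i (fun y => g y) x‖ ≤ B) :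
    ∀ i, 1 ≤ i → i ≤ k → ∀ x,
      ‖iteratedFDeriv ℝ i (fun y => scl M (zero_lt_one.trans_le hM).ne' g y) x‖ ≤ B := by
  intro i h1 h2 x
  have hM0 : 0 < M := zero_lt_one.trans_le hM
  have e : (fun y => scl M hM0.ne' g y) = fun y => M • g (M⁻¹ • y) := by
    funext y
    exact scl_apply M hM0.ne' g y
  have hs : ContDiff ℝ i (fun y => g (M⁻¹ • y)) :=
    (hg.of_le (conj_le_smo i)).comp (contDiff_const_smul M⁻¹)
  have e3 : iteratedFDeriv ℝ i (fun y => g (M⁻¹ • y))
      = fun x => M⁻¹ ^ i • iteratedFDeriv ℝ i (fun y => g y) (M⁻¹ • x) :=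
    iteratedFDeriv_comp_const_smul M⁻¹ (hg.of_le (conj_le_smo i))
  have e2 : iteratedFDeriv ℝ i (fun y => M • g (M⁻¹ • y)) x
      = M • (M⁻¹ ^ i • iteratedFDeriv ℝ i (fun y => g y) (M⁻¹ • x)) := by
    rw [iteratedFDeriv_const_smul_apply' hs.contDiffAt, e3]
  rw [e, e2, norm_smul, norm_smul, Real.norm_of_nonneg hM0.le,
    Real.norm_of_nonneg (by positivity : (0 : ℝ) ≤ M⁻¹ ^ i)]
  have h3 := h i h1 h2 (M⁻¹ • x)
  have h4 : M * M⁻¹ ^ i ≤ 1 := by
    obtain ⟨j, rfl⟩ : ∃ j, i = j + 1 := ⟨i - 1, by omega⟩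
    rw [pow_succ, mul_comm, mul_assoc, inv_mul_cancel₀ hM0.ne', mul_one]
    exact pow_le_one₀ (by positivity) (inv_le_one_of_one_le₀ hM)
  calc M * (M⁻¹ ^ i * ‖iteratedFDeriv ℝ i (fun y => g y) (M⁻¹ • x)‖)
      = (M * M⁻¹ ^ i) * ‖iteratedFDeriv ℝ i (fun y => g y) (M⁻¹ • x)‖ := by ring
    _ ≤ 1 * B := by gcongr
    _ = B := one_mul B

/-- The rescaled maps `scl M g` satisfy the same bounds for `M ≥ 1`: their derivatives of order `i`
are `M^(1 - i)` times those of `g`. -/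
theorem TB_scl {k : ℕ} {B : ℝ} (hB : 0 ≤ B) {M : ℝ} (hM : 1 ≤ M) {g : Equiv.Perm E3}
    (hg : IsDif g) (h : TB k B g) :
    TB k B (scl M (zero_lt_one.trans_le hM).ne' g) := by
  refine ⟨TB_aux hB hM hg.1 h.1, ?_⟩
  rw [scl_inv]
  exact TB_aux hB hM hg.2 h.2

/-- conjugation at all scales: `NId_iff_scl`, `TB_scl`, `conj_bound_one`. -/
theorem conj_bound (k : ℕ) (B : ℝ) (hB : 0 ≤ B) : ∃ C : ℝ, 1 ≤ C ∧
    ∀ (M a : ℝ) (f g : Equiv.Perm E3), 1 ≤ M → 0 ≤ a → a ≤ 1 → IsDif f → IsDif g →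
      TB (k + 1) B g → NId k M a f → NId k M (C * a) (g⁻¹ * f * g) := by
  obtain ⟨C, hC1, hC⟩ := conj_bound_one k B hB
  refine ⟨C, hC1, ?_⟩
  intro M a f g hM ha ha1 hf hg hT hN
  have hM0 : 0 < M := zero_lt_one.trans_le hM
  rw [NId_iff_scl hM0] at hN ⊢
  have e : scl M hM0.ne' (g⁻¹ * f * g)
      = (scl M hM0.ne' g)⁻¹ * scl M hM0.ne' f * scl M hM0.ne' g := by
    rw [scl_inv, scl_mul, scl_mul]
  rw [e]
  exact hC a _ _ ha ha1 (scl_isDif M hM0.ne' hf) (scl_isDif M hM0.ne' hg)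
    (TB_scl hB hM hg hT) hN

end Pool.Agent.QM59.EE
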