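import Mathlib
import Pool.Agent.Lib.MP_decea1_gt_E.EDefs
import Pool.Agent.Lib.MP_decea1_gt_A.J2

/-!
# MP_decea1_gt, block E, module Glue: finite products of permutations with disjoint supports
-/

set_option autoImplicit false

open MeasureTheory Set Filter Topology

namespace Pool.Agent.QM59.EE

/-- All factors fix `x`. -/
private theorem glue_off0 {n : ℕ} (f : Fin n → Equiv.Perm E3) (K : Fin n → Set E3)
    (hf : ∀ i, IdOff (K i) (f i)) (x : E3) (hx : ∀ i, x ∉ K i) : (List.ofFn f).prod x = x := by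
  induction n with
  | zero =>
    rw [List.ofFn_zero, List.prod_nil]
    rfl
  | succ n ih =>
    rw [List.ofFn_succ, List.prod_cons, Equiv.Perm.mul_apply,
      ih (fun i => f i.succ) (fun i => K i.succ) (fun i => hf i.succ) fun i => hx i.succ]
    exact hf 0 x (hx 0)

/-- Induction on `n` (`List.ofFn_succ`). If `x ∈ K i` then `f i x ∈ K i` (`IdOff.mem_iff`), and the
factors with index `j ≠ i` fix `x` and `f i x`, which are not in `K j`. -/
theorem glue_mem {n : ℕ} (f : Fin n → Equiv.Perm E3) (K : Fin n → Set E3)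
    (hd : Pairwise fun i j => Disjoint (K i) (K j)) (hf : ∀ i, IdOff (K i) (f i)) (i : Fin n)
    (x : E3) (hx : x ∈ K i) : (List.ofFn f).prod x = f i x := by
  induction n with
  | zero => exact i.elim0
  | succ n ih =>
    rw [List.ofFn_succ, List.prod_cons, Equiv.Perm.mul_apply]
    revert hx
    refine Fin.cases (fun hx => ?_) (fun j hx => ?_) i
    · rw [glue_off0 (fun i => f i.succ) (fun i => K i.succ) (fun i => hf i.succ) x fun j hj =>
        Set.disjoint_left.1 (hd (Fin.succ_ne_zero j)) hj hx]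
    · rw [ih (fun i => f i.succ) (fun i => K i.succ)
        (fun a b hab => hd fun h => hab (Fin.succ_injective _ h)) (fun i => hf i.succ) j hx]
      have h1 : f j.succ x ∈ K j.succ := ((hf j.succ).mem_iff x).2 hx
      exact hf 0 _ fun h2 => Set.disjoint_left.1 (hd (Fin.succ_ne_zero j)) h1 h2

/-- All factors fix `x`. -/
theorem glue_off {n : ℕ} (f : Fin n → Equiv.Perm E3) (K : Fin n → Set E3)
    (hf : ∀ i, IdOff (K i) (f i)) (x : E3) (hx : ∀ i, x ∉ K i) : (List.ofFn f).prod x = x := by
  exact glue_off0 f K hf x hx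

theorem glue_idOff {n : ℕ} (f : Fin n → Equiv.Perm E3) (K : Fin n → Set E3)
    (hf : ∀ i, IdOff (K i) (f i)) : IdOff (⋃ i, K i) (List.ofFn f).prod := by
  intro x hx
  exact glue_off f K hf x fun i hi => hx (Set.mem_iUnion.2 ⟨i, hi⟩)

/-- `IsDif`, `Vol` and `IdOff` are closed under products (`IsDif.mul`, `Vol.mul`). -/
theorem list_isDif (l : List (Equiv.Perm E3)) (h : ∀ f ∈ l, IsDif f) : IsDif l.prod := by
  induction l with
  | nil =>
    rw [List.prod_nil]
    exact IsDif.one
  | cons a l ih =>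
    rw [List.prod_cons]
    exact (h a List.mem_cons_self).mul (ih fun f hf => h f (List.mem_cons_of_mem _ hf))

theorem list_vol (l : List (Equiv.Perm E3)) (h : ∀ f ∈ l, IsDif f) (hv : ∀ f ∈ l, Vol f) :
    Vol l.prod := by
  induction l with
  | nil =>
    rw [List.prod_nil]
    exact Vol.one
  | cons a l ih =>
    rw [List.prod_cons]
    exact Vol.mul (h a List.mem_cons_self)
      (list_isDif l fun f hf => h f (List.mem_cons_of_mem _ hf)) (hv a List.mem_cons_self)
      (ih (fun f hf => h f (List.mem_cons_of_mem _ hf))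
        fun f hf => hv f (List.mem_cons_of_mem _ hf))

theorem list_idOff (K : Set E3) (l : List (Equiv.Perm E3)) (h : ∀ f ∈ l, IdOff K f) :
    IdOff K l.prod := by
  induction l with
  | nil =>
    rw [List.prod_nil]
    exact IdOff.one K
  | cons a l ih =>
    rw [List.prod_cons]
    exact (h a List.mem_cons_self).mul (ih fun f hf => h f (List.mem_cons_of_mem _ hf))

/-- The product is locally one of the factors or the identity. If `x ∈ K i` then on the open
neighbourhood `(⋃ j ≠ i, K j)ᶜ` of `x` the product is `f i` (`glue_mem`, `glue_off`, and `f i` is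
the identity off `K i`); if `x` is in no `K i` then it is the identity on the open set
`(⋃ i, K i)ᶜ`. -/
theorem glue_near {n : ℕ} (f : Fin n → Equiv.Perm E3) (K : Fin n → Set E3)
    (hc : ∀ i, IsClosed (K i)) (hd : Pairwise fun i j => Disjoint (K i) (K j))
    (hf : ∀ i, IdOff (K i) (f i)) (x : E3) :
    (∃ i, (fun y => (List.ofFn f).prod y) =ᶠ[𝓝 x] fun y => f i y) ∨
      (fun y => (List.ofFn f).prod y) =ᶠ[𝓝 x] fun y => y := by
  by_cases hx : ∃ i, x ∈ K i
  · obtain ⟨i, hi⟩ := hx
    refine Or.inl ⟨i, ?_⟩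
    have h1 : IsClosed (⋃ j : {j : Fin n // j ≠ i}, K j) :=
      isClosed_iUnion_of_finite fun j => hc j
    have h2 : x ∉ ⋃ j : {j : Fin n // j ≠ i}, K j := by
      intro h
      obtain ⟨⟨j, hj⟩, hxj⟩ := Set.mem_iUnion.1 h
      exact Set.disjoint_left.1 (hd hj) hxj hi
    filter_upwards [h1.isOpen_compl.mem_nhds h2] with y hy
    by_cases hyi : y ∈ K i
    · exact glue_mem f K hd hf i y hyi
    · rw [hf i y hyi]
      refine glue_off f K hf y fun j hj => ?_
      by_cases hji : j = i
      · exact hyi (hji ▸ hj)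
      · exact hy (Set.mem_iUnion.2 ⟨⟨j, hji⟩, hj⟩)
  · refine Or.inr ?_
    have h1 : IsClosed (⋃ j, K j) := isClosed_iUnion_of_finite hc
    have h2 : x ∉ ⋃ j, K j := fun h => hx (Set.mem_iUnion.1 h)
    filter_upwards [h1.isOpen_compl.mem_nhds h2] with y hy
    exact glue_off f K hf y fun j hj => hy (Set.mem_iUnion.2 ⟨j, hj⟩)

/-- from `glue_near`: the derivatives of the displacement agree with those of `disp (f i)` or
vanish (`Filter.EventuallyEq.iteratedFDeriv_eq`). -/
theorem glue_NId {k : ℕ} {M δ : ℝ} (hM : 0 ≤ M) (hδ : 0 ≤ δ) {n : ℕ}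
    (f : Fin n → Equiv.Perm E3) (K : Fin n → Set E3) (hc : ∀ i, IsClosed (K i))
    (hd : Pairwise fun i j => Disjoint (K i) (K j)) (hf : ∀ i, IdOff (K i) (f i))
    (hN : ∀ i, NId k M δ (f i)) : NId k M δ (List.ofFn f).prod := by
  intro m hm x
  rcases glue_near f K hc hd hf x with ⟨i, hi⟩ | hi
  · have h1 : disp (List.ofFn f).prod =ᶠ[𝓝 x] disp (f i) := by
      filter_upwards [hi] with y hy
      change (List.ofFn f).prod y - y = f i y - y
      rw [hy]
    rw [(h1.iteratedFDeriv ℝ m).eq_of_nhds]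
    exact hN i m hm x
  · have h1 : disp (List.ofFn f).prod =ᶠ[𝓝 x] fun _ => (0 : E3) := by
      filter_upwards [hi] with y hy
      change (List.ofFn f).prod y - y = 0
      rw [hy, sub_self]
    rw [(h1.iteratedFDeriv ℝ m).eq_of_nhds, iteratedFDeriv_fun_zero, Pi.zero_apply, norm_zero, mul_zero]
    exact mul_nonneg hδ (pow_nonneg hM m)

/-- the inverse is the product of the inverses (pointwise, `glue_mem`, `glue_off`). -/
theorem glue_inv {n : ℕ} (f : Fin n → Equiv.Perm E3) (K : Fin n → Set E3)
    (hd : Pairwise fun i j => Disjoint (K i) (K j)) (hf : ∀ i, IdOff (K i) (f i)) :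
    (List.ofFn f).prod⁻¹ = (List.ofFn fun i => (f i)⁻¹).prod := by
  refine Equiv.ext fun x => ?_
  have hf' : ∀ i, IdOff (K i) (f i)⁻¹ := fun i => (hf i).inv
  rw [Equiv.Perm.inv_eq_iff_eq]
  by_cases hx : ∃ i, x ∈ K i
  · obtain ⟨i, hi⟩ := hx
    rw [glue_mem (fun i => (f i)⁻¹) K hd hf' i x hi,
      glue_mem f K hd hf i _ (((hf' i).mem_iff x).2 hi)]
    exact ((f i).apply_symm_apply x).symm
  · have h1 : ∀ i, x ∉ K i := fun i hi => hx ⟨i, hi⟩
    rw [glue_off (fun i => (f i)⁻¹) K hf' x h1, glue_off f K hf x h1]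

/-- Conjugation is a homomorphism (`MulAut.conj`, `map_list_prod`, `List.map_ofFn`). -/
theorem glue_conj {n : ℕ} (f : Fin n → Equiv.Perm E3) (g : Equiv.Perm E3) :
    g⁻¹ * (List.ofFn f).prod * g = (List.ofFn fun i => g⁻¹ * f i * g).prod := by
  have h2 : g⁻¹ * (List.ofFn f).prod * g = MulAut.conj g⁻¹ (List.ofFn f).prod := by
    rw [MulAut.conj_apply, inv_inv]
  rw [h2, map_list_prod, List.map_ofFn]
  refine congrArg (fun g => (List.ofFn g).prod) (funext fun i => ?_)
  change MulAut.conj g⁻¹ (f i) = _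
  rw [MulAut.conj_apply, inv_inv]

/-- Splitting a product into the subproducts of the colours. Pointwise: for `x ∈ K i` the
subproduct of the colour `a` is `f i x` if `a = c i` and `x` otherwise (`glue_mem` for the family
`fun i => if c i = a then f i else 1`); then `glue_mem` for the pairwise disjoint sets
`⋃ i (_ : c i = a), K i`. For `x` in no `K i` both sides are `x`. -/
theorem glue_split {n N : ℕ} (f : Fin n → Equiv.Perm E3) (K : Fin n → Set E3)
    (hd : Pairwise fun i j => Disjoint (K i) (K j)) (hf : ∀ i, IdOff (K i) (f i))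
    (c : Fin n → Fin N) :
    (List.ofFn fun a : Fin N => (List.ofFn fun i : Fin n => if c i = a then f i else 1).prod).prod =
      (List.ofFn f).prod := by
  have h1 : ∀ (a : Fin N) (i : Fin n), IdOff (if c i = a then K i else ∅)
      (if c i = a then f i else 1 : Equiv.Perm E3) := by
    intro a i
    split_ifs
    · exact hf i
    · exact IdOff.one _
  have h2 : ∀ a : Fin N, IdOff (⋃ i, if c i = a then K i else ∅)
      (List.ofFn fun i : Fin n => if c i = a then f i else 1).prod := fun a =>
    glue_idOff _ _ (h1 a)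
  have h3 : Pairwise fun a b : Fin N => Disjoint (⋃ i, if c i = a then K i else ∅)
      (⋃ i, if c i = b then K i else ∅) := by
    intro a b hab
    rw [Set.disjoint_left]
    intro x hx hx'
    obtain ⟨i, hi⟩ := Set.mem_iUnion.1 hx
    obtain ⟨j, hj⟩ := Set.mem_iUnion.1 hx'
    split_ifs at hi with hia
    · split_ifs at hj with hjb
      · have hij : i ≠ j := by
          rintro rfl
          exact hab (hia.symm.trans hjb)
        exact Set.disjoint_left.1 (hd hij) hi hj
      · exact hj
    · exact hi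
  refine Equiv.ext fun x => ?_
  by_cases hx : ∃ i, x ∈ K i
  · obtain ⟨i, hi⟩ := hx
    have h4 : x ∈ ⋃ j, if c j = c i then K j else ∅ := by
      refine Set.mem_iUnion.2 ⟨i, ?_⟩
      rw [if_pos rfl]
      exact hi
    rw [glue_mem _ _ h3 h2 (c i) x h4, glue_mem f K hd hf i x hi]
    have h5 : ∀ j : Fin n, IdOff (K j) (if c j = c i then f j else 1 : Equiv.Perm E3) := by
      intro j
      split_ifs
      · exact hf j
      · exact IdOff.one _
    rw [glue_mem (fun j : Fin n => if c j = c i then f j else 1) K hd h5 i x hi, if_pos rfl]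
  · have h4 : ∀ i, x ∉ K i := fun i hi => hx ⟨i, hi⟩
    rw [glue_off f K hf x h4]
    refine glue_off _ _ h2 x fun a ha => ?_
    obtain ⟨i, hi⟩ := Set.mem_iUnion.1 ha
    split_ifs at hi
    · exact h4 i hi
    · exact hi

end Pool.Agent.QM59.EE
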