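import Mathlib
import Pool.Agent.Lib.MP_decea1_gt_E.Nrm
import Pool.Agent.Lib.MP_decea1_gt_E.Glue
import Pool.Agent.Lib.MP_decea1_gt_E.Color
import Pool.Agent.Lib.MP_decea1_gt_E.Collect

/-!
# MP_decea1_gt, block E, module FragA: regrouping a product by the colours of the cells
-/

set_option autoImplicit false

open MeasureTheory Set

namespace Pool.Agent.QM59.EE

/-- Conjugation with a map `w` which moves points by at most `h` enlarges the support from the
balls of radius `2 h` to the balls of radius `3 h`: if `w⁻¹ x ∈ closedBall (pt h z) (2 h)`, then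
`dist x (pt h z) ≤ dist (w (w⁻¹ x)) (w⁻¹ x) + 2 h ≤ 3 h`. -/
theorem conj_idOff_US {h e : ℝ} {N : ℕ} {col : (Fin 3 → ℤ) → Fin N} {c : Fin N}
    {f w : Equiv.Perm E3} (hf : IdOff (US h e 2 col c) f) (hw : ∀ x, ‖disp w x‖ ≤ h) :
    IdOff (US h e 3 col c) (w * f * w⁻¹) := by
  intro x hx
  have h1 : w⁻¹ x ∉ US h e 2 col c := by
    intro h2
    apply hx
    unfold US at h2 ⊢
    rw [mem_iUnion₂] at h2 ⊢
    obtain ⟨z, hz, h3⟩ := h2
    refine ⟨z, hz, ?_⟩
    rw [Metric.mem_closedBall] at h3 ⊢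
    have h4 : w (w⁻¹ x) = x := w.apply_symm_apply x
    have h5 : dist x (w⁻¹ x) ≤ h := by
      have h6 := hw (w⁻¹ x)
      unfold disp at h6
      rw [h4] at h6
      rw [dist_eq_norm]
      exact h6
    calc dist x (pt h z) ≤ dist x (w⁻¹ x) + dist (w⁻¹ x) (pt h z) := dist_triangle _ _ _
      _ ≤ h + 2 * h := add_le_add h5 h3
      _ = 3 * h := by ring
  show w (f (w⁻¹ x)) = x
  rw [hf _ h1]
  exact w.apply_symm_apply x

private theorem fragA_flat {G : Type*} [Group G] (P : G → Prop) (m : ℕ) (l : List G)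
    (h : ∀ a ∈ l, ∃ La : List G, La.length ≤ m ∧ a = La.prod ∧ ∀ f ∈ La, P f) :
    ∃ L : List G, L.length ≤ l.length * m ∧ l.prod = L.prod ∧ ∀ f ∈ L, P f := by
  induction l with
  | nil => exact ⟨[], by simp, rfl, by simp⟩
  | cons a t ih =>
    obtain ⟨L, h1, h2, h3⟩ := ih fun b hb => h b (List.mem_cons_of_mem _ hb)
    obtain ⟨La, h4, h5, h6⟩ := h a List.mem_cons_self
    refine ⟨La ++ L, ?_, ?_, ?_⟩
    · rw [List.length_append, List.length_cons, Nat.succ_mul]
      omega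
    · rw [List.prod_append, List.prod_cons, h5, h2]
    · intro f hf
      rcases List.mem_append.1 hf with hf | hf
      · exact h6 f hf
      · exact h3 f hf

/-- **Regrouping.** `collect` with `Hs c = {f | IdOff (US h e 2 col c) f}`: `A c` is a product of
at most `T` conjugates `w * f * w⁻¹`, `f ∈ l` of colour `c`, `w` a product of at most `T` elements
of `l`. So `w` and `A c` are products of at most `T * (2 * T + 1)` elements of `l` and inverses of
such elements (for `w⁻¹` use `List.prod_inv_reverse`), and `NId_list` for the number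
`T * (2 * T + 1) + T` gives `δ` with `NId k M ε w`, `NId k M ε (A c)`. Then
`‖disp w x‖ ≤ ε / M ≤ h` (`NId.disp_le`), `conj_idOff_US`, `list_idOff`, `list_isDif`,
`list_vol`. -/
theorem regroup (k T : ℕ) (ε : ℝ) (hε : 0 < ε) (hε1 : ε ≤ 1) : ∃ δ : ℝ, 0 < δ ∧
    ∀ (M h e : ℝ) (N : ℕ) (col : (Fin 3 → ℤ) → Fin N) (l : List (Equiv.Perm E3)),
      0 < M → 1 ≤ h * M → l.length ≤ T →
      (∀ f ∈ l, IsDif f ∧ Vol f ∧ NId k M δ f ∧ ∃ c, IdOff (US h e 2 col c) f) →
      ∃ A : Fin N → Equiv.Perm E3, l.prod = (List.ofFn A).prod ∧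
        ∀ c, IsDif (A c) ∧ Vol (A c) ∧ NId k M ε (A c) ∧ IdOff (US h e 3 col c) (A c) := by
  obtain ⟨δ, hδ, -, hN⟩ := NId_list k (T * (2 * T + 1) + T) ε hε
  refine ⟨δ, hδ, ?_⟩
  intro M h e N col l hM hhM hlT hl
  obtain ⟨A, hA, hA'⟩ := collect (fun c : Fin N => {f : Equiv.Perm E3 | IdOff (US h e 2 col c) f})
    l fun f hf => (hl f hf).2.2.2
  refine ⟨A, hA, fun c => ?_⟩
  obtain ⟨l', hlen, hAc, hl'⟩ := hA' c
  -- the elements of the list and their inverses
  let P : Equiv.Perm E3 → Prop := fun f =>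
    IsDif f ∧ Vol f ∧ (NId k M δ f ∨ NId k M δ f⁻¹)
  have hP : ∀ f ∈ l, P f := fun f hf =>
    ⟨(hl f hf).1, (hl f hf).2.1, Or.inl (hl f hf).2.2.1⟩
  have hPi : ∀ f ∈ l, P f⁻¹ := fun f hf =>
    ⟨(hl f hf).1.inv, Vol.inv (hl f hf).1 (hl f hf).2.1, Or.inr (by
      rw [inv_inv]
      exact (hl f hf).2.2.1)⟩
  have hdisp : ∀ lw : List (Equiv.Perm E3), lw.length ≤ l.length → (∀ f ∈ lw, f ∈ l) →
      ∀ x, ‖disp lw.prod x‖ ≤ h := by
    intro lw h1 h2 x
    have h3 : NId k M ε lw.prod := by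
      apply hN M lw hM
      · have : T ≤ T * (2 * T + 1) + T := Nat.le_add_left _ _
        omega
      · intro f hf
        exact ⟨(hP f (h2 f hf)).1, (hP f (h2 f hf)).2.2⟩
    have h4 := h3.disp_le hM x
    have h5 : ε / M ≤ h := by
      rw [div_le_iff₀ hM]
      linarith
    exact h4.trans h5
  have hflat : ∀ a ∈ l', ∃ La : List (Equiv.Perm E3), La.length ≤ 2 * T + 1 ∧ a = La.prod ∧
      ∀ f ∈ La, P f := by
    intro a ha
    obtain ⟨w, f, hfl, -, haw, lw, hlw, hw, hlw'⟩ := hl' a ha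
    refine ⟨lw ++ [f] ++ (lw.map fun x => x⁻¹).reverse, ?_, ?_, ?_⟩
    · simp only [List.length_append, List.length_cons, List.length_nil, List.length_reverse,
        List.length_map]
      omega
    · rw [List.prod_append, List.prod_append, List.prod_singleton, ← List.prod_inv_reverse,
        ← hw]
      exact haw
    · intro g hg
      rw [List.mem_append, List.mem_append, List.mem_reverse, List.mem_map,
        List.mem_singleton] at hg
      rcases hg with (hg | hg) | ⟨g', hg', rfl⟩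
      · exact hP g (hlw' g hg)
      · rw [hg]
        exact hP f hfl
      · exact hPi g' (hlw' g' hg')
  obtain ⟨L, hL1, hL2, hL3⟩ := fragA_flat P (2 * T + 1) l' hflat
  have hLlen : L.length ≤ T * (2 * T + 1) + T := by
    have h1 : l'.length * (2 * T + 1) ≤ T * (2 * T + 1) :=
      Nat.mul_le_mul_right _ (hlen.trans hlT)
    omega
  have hAL : A c = L.prod := hAc.trans hL2
  refine ⟨?_, ?_, ?_, ?_⟩
  · rw [hAL]
    exact list_isDif L fun f hf => (hL3 f hf).1
  · rw [hAL]
    exact list_vol L (fun f hf => (hL3 f hf).1) fun f hf => (hL3 f hf).2.1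
  · rw [hAL]
    exact hN M L hM hLlen fun f hf => ⟨(hL3 f hf).1, (hL3 f hf).2.2⟩
  · rw [hAc]
    apply list_idOff
    intro a ha
    obtain ⟨w, f, hfl, hfc, haw, lw, hlw, hw, hlw'⟩ := hl' a ha
    rw [haw]
    apply conj_idOff_US hfc
    intro x
    rw [hw]
    exact hdisp lw hlw hlw' x

end Pool.Agent.QM59.EE
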