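import Mathlib
import Pool.Agent.Lib.MP_decea1_gt_E.EDefs
import Pool.Agent.Lib.MP_decea1_gt_A.J2
import Pool.Agent.Lib.MP_decea1_gt_A.A1

/-!
# MP_decea1_gt, block E, module Tame: bounds for fixed elements of a good group
-/

set_option autoImplicit false

open MeasureTheory Set

namespace Pool.Agent.QM59.EE

theorem TB.mono {k : ℕ} {B B' : ℝ} {g : Equiv.Perm E3} (h : TB k B g) (hB : B ≤ B') :
    TB k B' g :=
  ⟨fun i h1 h2 x => (h.1 i h1 h2 x).trans hB, fun i h1 h2 x => (h.2 i h1 h2 x).trans hB⟩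

private theorem norm_id_le' (n : ℕ) (x : E3) :
    ‖iteratedFDeriv ℝ (n + 1) (fun y : E3 => y) x‖ ≤ 1 := by
  rw [← norm_iteratedFDeriv_fderiv]
  have h1 : fderiv ℝ (fun y : E3 => y) = fun _ => ContinuousLinearMap.id ℝ E3 := by
    funext y
    exact fderiv_fun_id
  rw [h1]
  cases n with
  | zero =>
    rw [norm_iteratedFDeriv_zero]
    exact ContinuousLinearMap.norm_id_le
  | succ n =>
    rw [iteratedFDeriv_succ_const]
    simp

private theorem bound_one (i : ℕ) (hi : 1 ≤ i) (f : E3 → E3) (hf : ContDiff ℝ smo f)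
    (K : Set E3) (hK : IsCompact K) (h : ∀ x, x ∉ K → f x = x) :
    ∃ B : ℝ, 1 ≤ B ∧ ∀ x, ‖iteratedFDeriv ℝ i f x‖ ≤ B := by
  have hc : Continuous (iteratedFDeriv ℝ i f) :=
    (contDiff_infty.1 hf i).continuous_iteratedFDeriv'
  obtain ⟨C, hC⟩ := hK.exists_bound_of_continuousOn hc.continuousOn
  refine ⟨max 1 C, le_max_left _ _, fun x => ?_⟩
  by_cases hx : x ∈ K
  · exact (hC x hx).trans (le_max_right _ _)
  · have h1 : f =ᶠ[nhds x] fun y => y := by
      filter_upwards [hK.isClosed.isOpen_compl.mem_nhds hx] with y hy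
      exact h y hy
    rw [(h1.iteratedFDeriv ℝ i).eq_of_nhds]
    obtain ⟨n, rfl⟩ : ∃ n, i = n + 1 := ⟨i - 1, by omega⟩
    exact (norm_id_le' n x).trans (le_max_left _ _)

private theorem bound_all (k : ℕ) (f : E3 → E3) (hf : ContDiff ℝ smo f)
    (K : Set E3) (hK : IsCompact K) (h : ∀ x, x ∉ K → f x = x) :
    ∃ B : ℝ, 1 ≤ B ∧ ∀ i, 1 ≤ i → i ≤ k → ∀ x, ‖iteratedFDeriv ℝ i f x‖ ≤ B := by
  induction k with
  | zero => exact ⟨1, le_rfl, fun i h1 h2 => by omega⟩
  | succ k ih =>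
    obtain ⟨B, hB1, hB⟩ := ih
    obtain ⟨C, hC1, hC⟩ := bound_one (k + 1) (by omega) f hf K hK h
    refine ⟨max B C, hB1.trans (le_max_left _ _), fun i h1 h2 x => ?_⟩
    rcases Nat.lt_or_ge k i with h3 | h3
    · obtain rfl : i = k + 1 := by omega
      exact (hC x).trans (le_max_right _ _)
    · exact (hB i h1 h3 x).trans (le_max_left _ _)

/-- `disp g` is smooth with compact support, so its derivatives are bounded, and
`D^i g = D^i id + D^i disp g`; the same for the inverse. -/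
theorem exists_TB (k : ℕ) (g : Equiv.Perm E3) (hg : IsDif g) (K : Set E3) (hK : IsCompact K)
    (h : IdOff K g) : ∃ B : ℝ, 1 ≤ B ∧ TB k B g := by
  obtain ⟨B, hB1, hB⟩ := bound_all k (fun x => g x) hg.1 K hK h
  obtain ⟨C, hC1, hC⟩ := bound_all k (fun x => g⁻¹ x) hg.2 K hK h.inv
  exact ⟨max B C, hB1.trans (le_max_left _ _),
    fun i h1 h2 x => (hB i h1 h2 x).trans (le_max_left _ _),
    fun i h1 h2 x => (hC i h1 h2 x).trans (le_max_right _ _)⟩

/-- a common bound for the members of a list -/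
theorem exists_TB_list {ι : Type*} (k : ℕ) (l : List ι) (g : ι → Equiv.Perm E3)
    (h : ∀ j ∈ l, IsDif (g j) ∧ ∃ K, IsCompact K ∧ IdOff K (g j)) :
    ∃ B : ℝ, 1 ≤ B ∧ ∀ j ∈ l, TB k B (g j) := by
  induction l with
  | nil => exact ⟨1, le_rfl, fun j hj => absurd hj List.not_mem_nil⟩
  | cons a l ih =>
    obtain ⟨B, hB1, hB⟩ := ih fun j hj => h j (List.mem_cons_of_mem _ hj)
    obtain ⟨h1, K, hK, h2⟩ := h a List.mem_cons_self
    obtain ⟨C, hC1, hC⟩ := exists_TB k (g a) h1 K hK h2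
    refine ⟨max B C, hB1.trans (le_max_left _ _), fun j hj => ?_⟩
    rcases List.mem_cons.1 hj with rfl | hj
    · exact hC.mono (le_max_right _ _)
    · exact (hB j hj).mono (le_max_left _ _)

/-- the mean value inequality -/
theorem TB.dist_inv_le {k : ℕ} {B : ℝ} {g : Equiv.Perm E3} (hg : IsDif g) (h : TB (k + 1) B g)
    (x y : E3) : dist (g⁻¹ x) (g⁻¹ y) ≤ B * dist x y := by
  rw [dist_eq_norm, dist_eq_norm]
  refine Convex.norm_image_sub_le_of_norm_fderiv_le (𝕜 := ℝ) (s := Set.univ)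
    (f := fun y => g⁻¹ y) (fun z _ => ?_) (fun z _ => ?_) convex_univ (Set.mem_univ _)
    (Set.mem_univ _)
  · exact (hg.2.differentiable (by simp)) z
  · have h1 := h.2 1 le_rfl (by omega) z
    rwa [norm_iteratedFDeriv_one] at h1

theorem isCompact_Kc (e : ℝ) : IsCompact (Kc e) := by
  have h : Kc e = Icc (fun _ => e) (fun _ => 1 - e) := by
    ext x
    constructor
    · intro hx
      exact ⟨fun i => (hx i).1, fun i => (hx i).2⟩
    · intro hx i
      exact ⟨hx.1 i, hx.2 i⟩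
  rw [h]
  exact isCompact_Icc

theorem Kc_sub_Cube {e : ℝ} (he : 0 < e) : Kc e ⊆ Cube := by
  intro x hx i
  have h := hx i
  refine ⟨?_, ?_⟩
  · simp only [Pi.zero_apply]
    linarith [h.1]
  · simp only [Pi.one_apply]
    linarith [h.2]

theorem Kc_anti {e e' : ℝ} (h : e ≤ e') : Kc e' ⊆ Kc e := by
  intro x hx i
  exact ⟨h.trans (hx i).1, by linarith [(hx i).2]⟩

/-- the coordinates of the points of a compact subset of the open cube are bounded away from `0`
and `1`. -/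
theorem exists_Kc (K : Set E3) (hK : IsCompact K) (h : K ⊆ Cube) : ∃ e : ℝ, 0 < e ∧ K ⊆ Kc e := by
  have key : ∀ i : Fin 3, ∃ e : ℝ, 0 < e ∧ ∀ x ∈ K, e ≤ x i ∧ x i ≤ 1 - e := by
    intro i
    rcases K.eq_empty_or_nonempty with rfl | hne
    · exact ⟨1, one_pos, fun x hx => absurd hx (Set.notMem_empty x)⟩
    · have hc : Continuous fun x : E3 => min (x i) (1 - x i) := by fun_prop
      obtain ⟨z, hz, hmin⟩ := hK.exists_isMinOn hne hc.continuousOn
      refine ⟨min (z i) (1 - z i), ?_, fun x hx => ?_⟩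
      · have h1 := h hz i
        simp only [Pi.zero_apply, Pi.one_apply] at h1
        exact lt_min h1.1 (by linarith [h1.2])
      · have h2 : min (z i) (1 - z i) ≤ min (x i) (1 - x i) := hmin hx
        refine ⟨h2.trans (min_le_left _ _), ?_⟩
        have h3 := h2.trans (min_le_right _ _)
        linarith
  choose e he hKe using key
  refine ⟨min (e 0) (min (e 1) (e 2)), lt_min (he 0) (lt_min (he 1) (he 2)), fun x hx i => ?_⟩
  have h0 : min (e 0) (min (e 1) (e 2)) ≤ e 0 := min_le_left _ _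
  have h1 : min (e 0) (min (e 1) (e 2)) ≤ e 1 := (min_le_right _ _).trans (min_le_left _ _)
  have h2 : min (e 0) (min (e 1) (e 2)) ≤ e 2 := (min_le_right _ _).trans (min_le_right _ _)
  have hi : min (e 0) (min (e 1) (e 2)) ≤ e i := by
    fin_cases i
    · exact h0
    · exact h1
    · exact h2
  have h4 := hKe i x hx
  exact ⟨hi.trans h4.1, by linarith [h4.2]⟩

/-- `g⁻¹ '' Kc e` is a compact subset of the cube (`g⁻¹` maps the cube onto itself,
`IdOff.image_eq`); `exists_Kc`, and the minimum over the list. -/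
theorem exists_Kc_list {ι : Type*} (l : List ι) (g : ι → Equiv.Perm E3)
    (h : ∀ j ∈ l, IsDif (g j) ∧ ∃ K, K ⊆ Cube ∧ IsCompact K ∧ IdOff K (g j)) (e : ℝ)
    (he : 0 < e) : ∃ e' : ℝ, 0 < e' ∧ ∀ j ∈ l, ∀ x ∈ Kc e, (g j)⁻¹ x ∈ Kc e' := by
  induction l with
  | nil => exact ⟨1, one_pos, fun j hj => absurd hj List.not_mem_nil⟩
  | cons a l ih =>
    obtain ⟨b, hb0, hb⟩ := ih fun j hj => h j (List.mem_cons_of_mem _ hj)
    obtain ⟨h1, K, hKC, hK, h2⟩ := h a List.mem_cons_self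
    have hc : Continuous fun x => (g a)⁻¹ x := h1.2.continuous
    have h3 : IsCompact ((fun x => (g a)⁻¹ x) '' Kc e) := (isCompact_Kc e).image hc
    have h4 : (fun x => (g a)⁻¹ x) '' Kc e ⊆ Cube := by
      rintro _ ⟨x, hx, rfl⟩
      exact ((h2.inv.mono hKC).mem_iff x).2 (Kc_sub_Cube he hx)
    obtain ⟨c, hc0, hc1⟩ := exists_Kc _ h3 h4
    refine ⟨min b c, lt_min hb0 hc0, fun j hj x hx => ?_⟩
    rcases List.mem_cons.1 hj with rfl | hj
    · exact Kc_anti (min_le_right _ _) (hc1 ⟨x, hx, rfl⟩)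
    · exact Kc_anti (min_le_left _ _) (hb j hj x hx)

/-- A near-identity volume preserving map with compact support is in the good group: `A1` for
`u = disp f` gives an isotopy, then `Good.iso`. -/
theorem mem_of_near {Γ : Subgroup (Equiv.Perm E3)} (hΓ : Good Γ) {f : Equiv.Perm E3}
    (hf : IsDif f) (hv : Vol f) (K : Set E3) (hK : IsCompact K) (hKC : K ⊆ Cube)
    (h : IdOff K f) (hD : ∀ x, ‖fderiv ℝ (disp f) x‖ ≤ 1 / 2) : f ∈ Γ := by
  have hd : ContDiff ℝ smo (disp f) := hf.1.sub contDiff_id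
  obtain ⟨f', hf', hx⟩ := A1 Cube isOpen_Cube (disp f) hd K hK hKC
    (fun x hx => by simp only [disp, h x hx, sub_self]) hD
  have h1 : f' = f := by
    ext1 x
    rw [hx x]
    simp only [disp, add_sub_cancel]
  exact hΓ.iso f (h1 ▸ hf') hv

end Pool.Agent.QM59.EE
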