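import Mathlib
import Pool.Agent.Lib.MP_decea1_gt_E.Nrm
import Pool.Agent.Lib.MP_decea1_gt_E.Tame
import Pool.Agent.Lib.MP_decea1_gt_E.Color

/-!
# MP_decea1_gt, block E, module FragB: the bound for one colour
-/

set_option autoImplicit false

open MeasureTheory Set

namespace Pool.Agent.QM59.EE

/-- more derivatives, stronger hypothesis -/
theorem LLL_mono {k k' : ℕ} {ε R C : ℝ} (h : LLL k ε R C) (hk : k ≤ k') : LLL k' ε R C := by
  intro Γ φ D hΓ hφ n p l A hl h1 h2 h3 h4 h5 h6 h7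
  exact h Γ φ D hΓ hφ n p l A hl h1 h2 h3 h4 h5 h6 fun i hi => h7 i (hi.trans hk)

/-- A map which is the identity off the balls of radius `3 h` of one colour and moves points by
less than `2 h` preserves each of these balls: `A x` is in one of them (`IdOff.mem_iff`), and the
centres of two different ones have distance at least `8 h > 3 h + 3 h + ‖disp A x‖`. -/
theorem preserves {h e : ℝ} {L N : ℕ} (hL : 8 ≤ L) {col : (Fin 3 → ℤ) → Fin N} (hs : Sep L col)
    {c : Fin N} {A : Equiv.Perm E3} (hh : 0 < h) (hA : IdOff (US h e 3 col c) A)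
    (hd : ∀ x, ‖disp A x‖ < 2 * h) {z : Fin 3 → ℤ} (hz : z ∈ Zs h e) (hc : col z = c) {x : E3}
    (hx : x ∈ Metric.closedBall (pt h z) (3 * h)) : A x ∈ Metric.closedBall (pt h z) (3 * h) := by
  have hxU : x ∈ US h e 3 col c := by
    unfold US
    rw [mem_iUnion₂]
    exact ⟨z, ⟨hz, hc⟩, hx⟩
  have hAx : A x ∈ US h e 3 col c := (hA.mem_iff x).2 hxU
  unfold US at hAx
  rw [mem_iUnion₂] at hAx
  obtain ⟨z', ⟨hz', hc'⟩, hx'⟩ := hAx
  by_cases hzz : z = z'
  · subst hzz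
    exact hx'
  · exfalso
    have h1 : h * L ≤ dist (pt h z) (pt h z') := hs.dist_le hh.le (hc.trans hc'.symm) hzz
    have h2 : (8 : ℝ) ≤ L := by exact_mod_cast hL
    have h3 : h * 8 ≤ h * L := mul_le_mul_of_nonneg_left h2 hh.le
    have h4 : dist (pt h z) (pt h z') ≤ dist (pt h z) x + dist x (A x) + dist (A x) (pt h z') :=
      dist_triangle4 _ _ _ _
    have h5 : dist (pt h z) x ≤ 3 * h := by
      rw [dist_comm]
      exact Metric.mem_closedBall.1 hx
    have h6 : dist (A x) (pt h z') ≤ 3 * h := Metric.mem_closedBall.1 hx'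
    have h7 : dist x (A x) < 2 * h := by
      rw [dist_comm, dist_eq_norm]
      exact hd x
    linarith

/-- **One colour.** Put `h = B / M`, `l = 3 h`, so `l M = 3 B ≥ 3`, and
`ε' = min (1/2) (ε / (3 B)^k)`. From `M ‖D^i disp A x‖ ≤ ε' M^i` one gets
`l^i ‖D^i disp A x‖ ≤ ε' l (3 B)^i / (3 B) ≤ ε l`. The centres are the points `pt h z` with
`z ∈ Zs h e`, `col z = c`, a finite set (`finite_Zs`), enumerated by `Fin n`. The balls of radius
`R l = 3 R h` around them are in the cube (`ball_sub_Cube`, `3 R h + h < e`) and pairwise disjoint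
(`Sep.dist_le`, `6 R ≤ L`). `A` preserves the balls of radius `l` (`preserves`,
`‖disp A x‖ ≤ ε' / M ≤ h / 2`). So `LLL` applies. `A ∈ Γ` by `mem_of_near` with the compact set
`US h e 3 col c` (`isCompact_US`, `US_sub_Cube`, `NId.fderiv_le`). -/
theorem one_colour {k : ℕ} (hk : 1 ≤ k) {ε R C : ℝ} (hε : 0 < ε) (hR : 1 ≤ R)
    (hLL : LLL k ε R C) (B : ℝ) (hB : 1 ≤ B) (L : ℕ) (hL : 6 * R + 8 ≤ L) :
    ∃ ε' : ℝ, 0 < ε' ∧ ε' ≤ 1 ∧
      ∀ (Γ : Subgroup (Equiv.Perm E3)) (φ : Equiv.Perm E3 → ℝ) (D : ℝ), Good Γ → HQ Γ φ D →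
      ∀ (M e : ℝ) (N : ℕ) (col : (Fin 3 → ℤ) → Fin N) (c : Fin N) (A : Equiv.Perm E3),
        0 < M → Sep L col → (3 * R + 1) * (B / M) < e → IsDif A → Vol A → NId k M ε' A →
        IdOff (US (B / M) e 3 col c) A → A ∈ Γ ∧ |φ A| ≤ C * D := by
  have hB0 : 0 < B := lt_of_lt_of_le one_pos hB
  have h3B : (1 : ℝ) ≤ 3 * B := by linarith
  have hpow : 0 < (3 * B) ^ k := by positivity
  have hε' : 0 < min (1 / 2) (ε / (3 * B) ^ k) := lt_min (by norm_num) (div_pos hε hpow)
  refine ⟨min (1 / 2) (ε / (3 * B) ^ k), hε', (min_le_left _ _).trans (by norm_num), ?_⟩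
  intro Γ φ D hΓ hφ M e N col c A hM hs he hdif hvol hN hoff
  have hε1 : min (1 / 2) (ε / (3 * B) ^ k) ≤ 1 / 2 := min_le_left _ _
  have hε2 : min (1 / 2) (ε / (3 * B) ^ k) ≤ ε / (3 * B) ^ k := min_le_right _ _
  generalize min (1 / 2) (ε / (3 * B) ^ k) = ε' at hε' hε1 hε2 hN
  have hε3 : ε' * (3 * B) ^ k ≤ ε := (le_div_iff₀ hpow).1 hε2
  set h : ℝ := B / M with hh
  have hh0 : 0 < h := div_pos hB0 hM
  have hhM : h * M = B := div_mul_cancel₀ _ hM.ne'
  have hL8 : 8 ≤ L := by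
    have : (8 : ℝ) ≤ L := by linarith
    exact_mod_cast this
  have hRh : h ≤ R * h := by nlinarith
  have he4 : 3 * h + h < e := by linarith
  have hmem : A ∈ Γ := by
    refine mem_of_near hΓ hdif hvol (US h e 3 col c) (isCompact_US h e 3 hh0 col c)
      (US_sub_Cube h e 3 he4 col c) hoff fun x => ?_
    exact (hN.fderiv_le hM hk x).trans hε1
  refine ⟨hmem, ?_⟩
  have hdisp : ∀ x, ‖disp A x‖ < 2 * h := by
    intro x
    have h1 := hN.disp_le hM x
    have h2 : ε' / M ≤ B / M := by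
      rw [div_le_div_iff_of_pos_right hM]
      linarith
    rw [← hh] at h2
    linarith
  have hfin : {z : Fin 3 → ℤ | z ∈ Zs h e ∧ col z = c}.Finite :=
    (finite_Zs h e hh0).subset fun z hz => hz.1
  have : Finite {z : Fin 3 → ℤ | z ∈ Zs h e ∧ col z = c} := hfin.to_subtype
  obtain ⟨n, ⟨q⟩⟩ := Finite.exists_equiv_fin {z : Fin 3 → ℤ | z ∈ Zs h e ∧ col z = c}
  refine hLL Γ φ D hΓ hφ n (fun j => pt h (q.symm j : {z : Fin 3 → ℤ | z ∈ Zs h e ∧ col z = c}))
    (3 * h) A (by positivity) ?_ ?_ hdif hvol ?_ ?_ ?_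
  · intro j
    refine Metric.ball_subset_closedBall.trans (ball_sub_Cube (q.symm j).2.1 ?_)
    linarith
  · intro i j hij
    refine Metric.ball_disjoint_ball ?_
    have hne : (q.symm i : Fin 3 → ℤ) ≠ (q.symm j : Fin 3 → ℤ) := by
      intro hcon
      exact hij (q.symm.injective (Subtype.ext hcon))
    have h1 := hs.dist_le hh0.le ((q.symm i).2.2.trans (q.symm j).2.2.symm) hne
    have h2 : h * (6 * R + 8) ≤ h * L := mul_le_mul_of_nonneg_left hL hh0.le
    refine le_trans ?_ h1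
    refine le_trans ?_ h2
    nlinarith
  · refine hoff.mono ?_
    unfold US
    refine iUnion₂_subset fun z hz => ?_
    refine subset_iUnion_of_subset (q ⟨z, hz⟩) ?_
    rw [Equiv.symm_apply_apply]
  · intro j x hx
    exact preserves hL8 hs hh0 hoff hdisp (q.symm j).2.1 (q.symm j).2.2 hx
  · intro i hi x
    have h1 := hN i hi x
    have hl : 3 * h = (3 * B) / M := by rw [hh]; ring
    have h2 : (3 * h) ^ i * ‖iteratedFDeriv ℝ i (disp A) x‖
        = (3 * B) ^ i / M ^ i * (M * ‖iteratedFDeriv ℝ i (disp A) x‖) / M := by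
      rw [hl, div_pow]
      field_simp
    have hMi : 0 < M ^ i := pow_pos hM i
    calc (3 * h) ^ i * ‖iteratedFDeriv ℝ i (disp A) x‖
        = (3 * B) ^ i / M ^ i * (M * ‖iteratedFDeriv ℝ i (disp A) x‖) / M := h2
      _ ≤ (3 * B) ^ i / M ^ i * (ε' * M ^ i) / M := by gcongr
      _ = ε' * (3 * B) ^ i * (1 / M) := by field_simp
      _ ≤ ε' * (3 * B) ^ k * (3 * h) := by
          have h5 : (3 * B) ^ i ≤ (3 * B) ^ k := pow_le_pow_right₀ h3B hi
          have h6 : 1 / M ≤ 3 * h := by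
            rw [hl]
            exact div_le_div_of_nonneg_right h3B hM.le
          gcongr
      _ ≤ ε * (3 * h) := by gcongr

end Pool.Agent.QM59.EE
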