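import Mathlib
import Pool.Agent.Lib.MP_decea1_gt_E.Glue
import Pool.Agent.Lib.MP_decea1_gt_E.Conj
import Pool.Agent.Lib.MP_decea1_gt_E.Tame
import Pool.Agent.Lib.MP_decea1_gt_E.Color

/-!
# MP_decea1_gt, block E, module Row: the conjugate of a layer, split by colours
-/

set_option autoImplicit false

open MeasureTheory Set

namespace Pool.Agent.QM59.EE

/-- Let `F = ∏ f i` be a layer, `f' i = g⁻¹ * f i * g` and `K' i = g⁻¹ '' closedBall (p i) ρ`. The
sets `K' i` are compact and pairwise disjoint, `f' i` is the identity off `K' i` (`IdOff.conj` for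
`g⁻¹`), and `NId k M (C δ) (f' i)` (`conj_bound`). If `0 ≤ ρ`, then `p i ∈ Kc e`, so
`g⁻¹ (p i) ∈ Kc e'`, and for `h = B / M`, `z` from `exists_cell h (g⁻¹ (p i))`:
`K' i ⊆ closedBall (g⁻¹ (p i)) (B ρ) ⊆ closedBall (pt h z) (2 h)` (`TB.dist_inv_le`,
`B ρ ≤ B / M = h`); if `ρ < 0` the ball is empty. Let `c i = col z`. Then
`H a = (List.ofFn fun i => if c i = a then f' i else 1).prod`: `glue_split` and `glue_conj` give the
product, `glue_NId` (for the family `fun i => if c i = a then f' i else 1`, the same `K'`) the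
bound, and `list_idOff`, `list_isDif`, `list_vol` the rest. -/
theorem row (k : ℕ) (B : ℝ) (hB : 1 ≤ B) : ∃ C : ℝ, 1 ≤ C ∧
    ∀ (M δ e e' : ℝ) (g F : Equiv.Perm E3) (N : ℕ) (col : (Fin 3 → ℤ) → Fin N),
      1 ≤ M → 0 ≤ δ → δ ≤ 1 → IsDif g → Vol g → TB (k + 1) B g →
      (∀ x ∈ Kc e, g⁻¹ x ∈ Kc e') → Lay k M δ e F →
      ∃ H : Fin N → Equiv.Perm E3, (List.ofFn H).prod = g⁻¹ * F * g ∧
        ∀ c, IsDif (H c) ∧ Vol (H c) ∧ NId k M (C * δ) (H c) ∧
          IdOff (US (B / M) e' 2 col c) (H c) := by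
  obtain ⟨C, hC, hcb⟩ := conj_bound k B (zero_le_one.trans hB)
  refine ⟨C, hC, fun M δ e e' g F N col hM hδ hδ1 hg hgv hTB hKc hL => ?_⟩
  obtain ⟨n, p, ρ, f, hρ, hdis, hsub, hok, hN, rfl⟩ := hL
  have hM0 : 0 < M := zero_lt_one.trans_le hM
  have hB0 : 0 < B := zero_lt_one.trans_le hB
  have hh : 0 < B / M := div_pos hB0 hM0
  have hgi : IsDif g⁻¹ := hg.inv
  have hgc : Continuous fun x => g⁻¹ x := hgi.1.continuous
  obtain ⟨K, hK⟩ : ∃ K : Fin n → Set E3, K = fun i =>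
      (fun x => (g⁻¹ : Equiv.Perm E3) x) '' Metric.closedBall (p i) ρ := ⟨_, rfl⟩
  have hKcl : ∀ i, IsClosed (K i) := fun i => by
    rw [hK]
    exact ((isCompact_closedBall (p i) ρ).image hgc).isClosed
  have hKd : Pairwise fun i j => Disjoint (K i) (K j) := fun i j hij => by
    rw [hK]
    exact (Set.disjoint_image_iff g⁻¹.injective).2 (hdis hij)
  have hoff : ∀ i, IdOff (K i) (g⁻¹ * f i * g) := fun i => by
    have h1 := (hok i).off.conj g⁻¹
    rw [inv_inv] at h1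
    rw [hK]
    exact h1
  have hdif : ∀ i, IsDif (g⁻¹ * f i * g) := fun i => (hgi.mul (hok i).dif).mul hg
  have hvol : ∀ i, Vol (g⁻¹ * f i * g) := fun i =>
    Vol.mul (hgi.mul (hok i).dif) hg (Vol.mul hgi (hok i).dif (hgv.inv hg) (hok i).vol) hgv
  have hNid : ∀ i, NId k M (C * δ) (g⁻¹ * f i * g) := fun i =>
    hcb M δ (f i) g hM hδ hδ1 (hok i).dif hg hTB (hN i)
  have hCδ : 0 ≤ C * δ := mul_nonneg (zero_le_one.trans hC) hδ
  have hcell : ∀ i, ∃ z : Fin 3 → ℤ, ∀ x ∈ K i, z ∈ Zs (B / M) e' ∧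
      x ∈ Metric.closedBall (pt (B / M) z) (2 * (B / M)) := by
    intro i
    obtain ⟨z, hz⟩ := exists_cell (B / M) hh (g⁻¹ (p i))
    refine ⟨z, fun x hx => ?_⟩
    rw [hK] at hx
    obtain ⟨y, hy, rfl⟩ := hx
    have hy' := Metric.mem_closedBall.1 hy
    have hρ0 : 0 ≤ ρ := dist_nonneg.trans hy'
    refine ⟨⟨g⁻¹ (p i), hKc _ (hsub i (Metric.mem_closedBall_self hρ0)), hz⟩, ?_⟩
    rw [Metric.mem_closedBall]
    have h1 : dist (g⁻¹ y) (g⁻¹ (p i)) ≤ B * dist y (p i) := hTB.dist_inv_le hg y (p i)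
    have h2 : B * dist y (p i) ≤ B / M := by
      rw [le_div_iff₀ hM0]
      have h3 : dist y (p i) * M ≤ 1 := (mul_le_mul_of_nonneg_right hy' hM0.le).trans hρ
      calc B * dist y (p i) * M = B * (dist y (p i) * M) := by ring
        _ ≤ B * 1 := mul_le_mul_of_nonneg_left h3 hB0.le
        _ = B := mul_one B
    have h4 := dist_triangle (g⁻¹ y) (g⁻¹ (p i)) (pt (B / M) z)
    linarith
  choose z hz using hcell
  have hmem : ∀ (a : Fin N) (h : Equiv.Perm E3),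
      h ∈ List.ofFn (fun i => if col (z i) = a then g⁻¹ * f i * g else 1) →
      h = 1 ∨ ∃ i, col (z i) = a ∧ h = g⁻¹ * f i * g := by
    intro a h hh'
    obtain ⟨i, rfl⟩ := List.mem_ofFn.1 hh'
    by_cases hi : col (z i) = a
    · exact Or.inr ⟨i, hi, by simp only [if_pos hi]⟩
    · exact Or.inl (by simp only [if_neg hi])
  refine ⟨fun a => (List.ofFn fun i => if col (z i) = a then g⁻¹ * f i * g else 1).prod, ?_,
    fun a => ⟨list_isDif _ fun h hh' => ?_, list_vol _ (fun h hh' => ?_) fun h hh' => ?_, ?_,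
      list_idOff _ _ fun h hh' => ?_⟩⟩
  · rw [glue_conj]
    exact glue_split _ K hKd hoff fun i => col (z i)
  · rcases hmem a h hh' with rfl | ⟨i, -, rfl⟩
    · exact IsDif.one
    · exact hdif i
  · rcases hmem a h hh' with rfl | ⟨i, -, rfl⟩
    · exact IsDif.one
    · exact hdif i
  · rcases hmem a h hh' with rfl | ⟨i, -, rfl⟩
    · exact Vol.one
    · exact hvol i
  · refine glue_NId hM0.le hCδ _ K hKcl hKd (fun i => ?_) fun i => ?_
    · split_ifs
      · exact hoff i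
      · exact IdOff.one _
    · split_ifs
      · exact hNid i
      · exact NId.one k hM0.le hCδ
  · rcases hmem a h hh' with rfl | ⟨i, hi, rfl⟩
    · exact IdOff.one _
    · refine (hoff i).mono fun x hx => ?_
      obtain ⟨h1, h2⟩ := hz i x hx
      exact Set.mem_biUnion (show z i ∈ {z : Fin 3 → ℤ | z ∈ Zs (B / M) e' ∧ col z = a} from
        ⟨h1, hi⟩) h2

/-- the elements of a layer are smooth, volume preserving and the identity off `Kc e`
(`list_isDif`, `list_vol`, `list_idOff`), and `NId k M δ` (`glue_NId`). -/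
theorem Lay.props {k : ℕ} {M δ e : ℝ} {F : Equiv.Perm E3} (hM : 0 ≤ M) (hδ : 0 ≤ δ)
    (h : Lay k M δ e F) : IsDif F ∧ Vol F ∧ IdOff (Kc e) F ∧ NId k M δ F := by
  obtain ⟨n, p, ρ, f, -, hdis, hsub, hok, hN, rfl⟩ := h
  refine ⟨list_isDif _ fun h hh => ?_, list_vol _ (fun h hh => ?_) fun h hh => ?_,
    list_idOff _ _ fun h hh => ?_, ?_⟩
  · obtain ⟨i, rfl⟩ := List.mem_ofFn.1 hh
    exact (hok i).dif
  · obtain ⟨i, rfl⟩ := List.mem_ofFn.1 hh
    exact (hok i).dif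
  · obtain ⟨i, rfl⟩ := List.mem_ofFn.1 hh
    exact (hok i).vol
  · obtain ⟨i, rfl⟩ := List.mem_ofFn.1 hh
    exact (hok i).off.mono (hsub i)
  · exact glue_NId hM hδ f (fun i => Metric.closedBall (p i) ρ)
      (fun i => Metric.isClosed_closedBall) hdis (fun i => (hok i).off) hN

/-- `mem_of_near` with `Lay.props` and `NId.fderiv_le`. -/
theorem Lay.mem {Γ : Subgroup (Equiv.Perm E3)} (hΓ : Good Γ) {k : ℕ} (hk : 1 ≤ k) {M δ e : ℝ}
    {F : Equiv.Perm E3} (hM : 0 < M) (hδ : 0 ≤ δ) (hδ2 : δ ≤ 1 / 2) (he : 0 < e)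
    (h : Lay k M δ e F) : F ∈ Γ := by
  obtain ⟨h1, h2, h3, h4⟩ := h.props hM.le hδ
  exact mem_of_near hΓ h1 h2 (Kc e) (isCompact_Kc e) (Kc_sub_Cube he) h3 fun x =>
    (h4.fderiv_le hM hk x).trans hδ2

theorem Lay.mono {k : ℕ} {M δ δ' e : ℝ} {F : Equiv.Perm E3} (hM : 0 ≤ M) (hδ : δ ≤ δ')
    (h : Lay k M δ e F) : Lay k M δ' e F := by
  obtain ⟨n, p, ρ, f, hρ, hdis, hsub, hok, hN, hF⟩ := h
  exact ⟨n, p, ρ, f, hρ, hdis, hsub, hok, fun i => (hN i).mono hM hδ, hF⟩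

end Pool.Agent.QM59.EE
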