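import Mathlib
import Pool.Agent.Lib.MP_decea1_gt_E.Row
import Pool.Agent.Lib.MP_decea1_gt_E.FragA
import Pool.Agent.Lib.MP_decea1_gt_E.FragB
import Pool.Agent.Lib.MP_decea1_gt_B.B0

/-!
# MP_decea1_gt, block E, module Frag: products of conjugates of layers have bounded `φ`
-/

set_option autoImplicit false

open MeasureTheory Set

namespace Pool.Agent.QM59.EE

/-- induction on the list: `φ 1 = 0`, `|φ (a * t)| ≤ |φ a| + |φ t| + D` -/
theorem list_phi_le {Γ : Subgroup (Equiv.Perm E3)} {φ : Equiv.Perm E3 → ℝ} {D c : ℝ}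
    (hφ : HQ Γ φ D) (hc : 0 ≤ c) (l : List (Equiv.Perm E3)) (hl : ∀ a ∈ l, a ∈ Γ ∧ |φ a| ≤ c) :
    |φ l.prod| ≤ l.length * (c + D) := by
  have key : ∀ l : List (Equiv.Perm E3), (∀ a ∈ l, a ∈ Γ ∧ |φ a| ≤ c) →
      l.prod ∈ Γ ∧ |φ l.prod| ≤ l.length * (c + D) := by
    intro l
    induction l with
    | nil =>
      intro _
      refine ⟨Γ.one_mem, ?_⟩
      simp [hφ.map_one]
    | cons a t ih =>
      intro h
      obtain ⟨m1, m2⟩ := ih fun b hb => h b (List.mem_cons_of_mem _ hb)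
      obtain ⟨a1, a2⟩ := h a List.mem_cons_self
      rw [List.prod_cons]
      refine ⟨Γ.mul_mem a1 m1, ?_⟩
      have h3 := hφ.bdd a a1 _ m1
      have h4 : |φ (a * t.prod)| ≤ |φ a| + |φ t.prod| + D := by
        have e1 : φ (a * t.prod) = (φ (a * t.prod) - φ a - φ t.prod) + φ a + φ t.prod := by ring
        rw [e1]
        refine (abs_add_le _ _).trans ?_
        have := abs_add_le (φ (a * t.prod) - φ a - φ t.prod) (φ a)
        linarith
      rw [List.length_cons]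
      push_cast
      linarith
  exact (key l hl).2

/-- **FRAG.** Let `L` be a natural number with `6 R + 8 ≤ L`, `N = L ^ 3`, `col` from `exists_col`,
`C₀ = N (C + 1)`. For the list `l` and the maps `g j ∈ Γ` (`Good.dif`, `Good.vol`, `Good.supp`) take
`B` from `exists_TB_list` (order `k + 1`), `e'` from `exists_Kc_list`, `C₁` from `row`, `ε'` from
`one_colour`, `T = l.length * N`, `δ₂` from `regroup k T ε'`, `δ = min 1 (δ₂ / C₁)`, `M₀ ≥ 1` with
`(3 R + 1) B / M₀ < e'`. For `M ≥ M₀` and layers `F j` choose the factors `H j c` of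
`(g j)⁻¹ * F j * g j` by `row` (`h = B / M`, so `1 ≤ h M`). Then
`(l.map fun j => (g j)⁻¹ * F j * g j).prod` is the product of the list
`l.flatMap fun j => List.ofFn (H j)` of length `T`, to which `regroup` applies:
it is `(List.ofFn A).prod`, and `|φ (A c)| ≤ C D`, `A c ∈ Γ` by `one_colour`; `list_phi_le`. -/
theorem frag {k : ℕ} (hk : 1 ≤ k) {ε R C : ℝ} (hε : 0 < ε) (hR : 1 ≤ R) (hC : 0 ≤ C)
    (hLL : LLL k ε R C) : ∃ C₀ : ℝ, 0 ≤ C₀ ∧
      ∀ (Γ : Subgroup (Equiv.Perm E3)) (φ : Equiv.Perm E3 → ℝ) (D : ℝ), Good Γ → HQ Γ φ D →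
      ∀ (ι : Type) (l : List ι) (g : ι → Equiv.Perm E3), (∀ j ∈ l, g j ∈ Γ) →
      ∀ e : ℝ, 0 < e → ∃ δ M₀ : ℝ, 0 < δ ∧ δ ≤ 1 ∧ 1 ≤ M₀ ∧ ∀ M : ℝ, M₀ ≤ M →
        ∀ F : ι → Equiv.Perm E3, (∀ j ∈ l, Lay k M δ e (F j)) →
          |φ (l.map fun j => (g j)⁻¹ * F j * g j).prod| ≤ C₀ * D := by
  classical
  obtain ⟨L, hL⟩ := exists_nat_ge (6 * R + 8)
  have hL1 : 1 ≤ L := by
    have : (1 : ℝ) ≤ L := by linarith
    exact_mod_cast this
  obtain ⟨col, hsep⟩ := exists_col L hL1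
  refine ⟨((L ^ 3 : ℕ) : ℝ) * (C + 1), by positivity, ?_⟩
  intro Γ φ D hΓ hφ ι l g hg e he
  have hD := hφ.nonneg
  obtain ⟨B, hB, hTB⟩ := exists_TB_list (k + 1) l g fun j hj => by
    obtain ⟨K, -, hK2, hK3⟩ := hΓ.supp _ (hg j hj)
    exact ⟨hΓ.dif _ (hg j hj), K, hK2, hK3⟩
  obtain ⟨e', he', hKc⟩ := exists_Kc_list l g
    (fun j hj => ⟨hΓ.dif _ (hg j hj), hΓ.supp _ (hg j hj)⟩) e he
  obtain ⟨C₁, hC₁, hrow⟩ := row k B hB
  obtain ⟨ε', hε', hε'1, hone⟩ := one_colour hk hε hR hLL B hB L hL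
  obtain ⟨δ₂, hδ₂, hreg⟩ := regroup k (l.length * L ^ 3) ε' hε' hε'1
  have hC₁0 : 0 < C₁ := lt_of_lt_of_le one_pos hC₁
  have hδ : 0 < min 1 (δ₂ / C₁) := lt_min one_pos (div_pos hδ₂ hC₁0)
  have hB0 : 0 < B := lt_of_lt_of_le one_pos hB
  have hRB : 0 < (3 * R + 1) * B := by positivity
  refine ⟨min 1 (δ₂ / C₁), max 1 ((3 * R + 1) * B / e' + 1), hδ, min_le_left _ _,
    le_max_left _ _, ?_⟩
  intro M hM F hF
  have hM1 : 1 ≤ M := (le_max_left _ _).trans hM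
  have hM0 : 0 < M := lt_of_lt_of_le one_pos hM1
  have hM2 : (3 * R + 1) * B / e' + 1 ≤ M := (le_max_right _ _).trans hM
  have hsm : (3 * R + 1) * (B / M) < e' := by
    have h1 : (3 * R + 1) * B / e' < M := by linarith
    rw [div_lt_iff₀ he'] at h1
    rw [← mul_div_assoc, div_lt_iff₀ hM0]
    linarith
  have hex : ∀ j, j ∈ l → ∃ H : Fin (L ^ 3) → Equiv.Perm E3,
      (List.ofFn H).prod = (g j)⁻¹ * F j * g j ∧
        ∀ c, IsDif (H c) ∧ Vol (H c) ∧ NId k M (C₁ * min 1 (δ₂ / C₁)) (H c) ∧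
          IdOff (US (B / M) e' 2 col c) (H c) := fun j hj =>
    hrow M _ e e' (g j) (F j) (L ^ 3) col hM1 hδ.le (min_le_left _ _) (hΓ.dif _ (hg j hj))
      (hΓ.vol _ (hg j hj)) (hTB j hj) (hKc j hj) (hF j hj)
  choose! H hH using hex
  have hCδ : C₁ * min 1 (δ₂ / C₁) ≤ δ₂ := by
    calc C₁ * min 1 (δ₂ / C₁) ≤ C₁ * (δ₂ / C₁) :=
          mul_le_mul_of_nonneg_left (min_le_right _ _) hC₁0.le
      _ = δ₂ := by field_simp
  have hprod : (l.map fun j => (g j)⁻¹ * F j * g j).prod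
      = (l.flatMap fun j => List.ofFn (H j)).prod := by
    rw [List.flatMap_def, List.prod_flatten, List.map_map]
    congr 1
    refine List.map_congr_left fun j hj => ?_
    exact ((hH j hj).1).symm
  obtain ⟨A, hA1, hA2⟩ := hreg M (B / M) e' (L ^ 3) col (l.flatMap fun j => List.ofFn (H j)) hM0
    (by rw [div_mul_cancel₀ _ hM0.ne']; exact hB)
    (by simp [List.length_flatMap])
    (by
      intro f hf
      rw [List.mem_flatMap] at hf
      obtain ⟨j, hj, hfj⟩ := hf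
      rw [List.mem_ofFn] at hfj
      obtain ⟨c, rfl⟩ := hfj
      obtain ⟨-, h2⟩ := hH j hj
      obtain ⟨a1, a2, a3, a4⟩ := h2 c
      exact ⟨a1, a2, a3.mono hM0.le hCδ, c, a4⟩)
  rw [hprod, hA1]
  have hfin := list_phi_le hφ (mul_nonneg hC hD) (List.ofFn A) (by
    intro a ha
    rw [List.mem_ofFn] at ha
    obtain ⟨c, rfl⟩ := ha
    obtain ⟨a1, a2, a3, a4⟩ := hA2 c
    exact hone Γ φ D hΓ hφ M e' (L ^ 3) col c (A c) hM0 hsep hsm a1 a2 a3 a4)
  refine hfin.trans (le_of_eq ?_)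
  rw [List.length_ofFn]
  ring

end Pool.Agent.QM59.EE
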