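import Mathlib
import Pool.Agent.Lib.MP_decea1_gt_E.Frag

/-!
# MP_decea1_gt, block E, module Layer: the layer lemma (power trick)
-/

set_option autoImplicit false

open MeasureTheory Set

namespace Pool.Agent.QM59.EE

private theorem conj_list {ι : Type} (y : Equiv.Perm E3) (l : List ι) (f : ι → Equiv.Perm E3) :
    y⁻¹ * (l.map f).prod * y = (l.map fun j => y⁻¹ * f j * y).prod := by
  induction l with
  | nil => simp
  | cons a t ih =>
    simp only [List.map_cons, List.prod_cons]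
    rw [← ih]
    group

/-- The product `pprod x P n` of the conjugates `x^(-i) P x^i` of `P = ∏ (g j)⁻¹ F j (g j)`,
`i = n - 1, ..., 0`, as the product over the list of all pairs `(i, j)`. Induction on `n`
(`List.range_succ`, `List.reverse_append`, `List.flatMap_append`); conjugation by `x ^ n` is a
homomorphism (`MulAut.conj`, `map_list_prod`). -/
theorem pprod_eq {ι : Type} (x : Equiv.Perm E3) (l : List ι) (g F : ι → Equiv.Perm E3) (n : ℕ) :
    pprod x (l.map fun j => (g j)⁻¹ * F j * g j).prod n =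
      (((List.range n).reverse.flatMap fun i => l.map fun j => (i, j)).map fun q : ℕ × ι =>
        (g q.2 * x ^ q.1)⁻¹ * F q.2 * (g q.2 * x ^ q.1)).prod := by
  induction n with
  | zero => simp [pprod]
  | succ n ih =>
    rw [pprod, ih, List.range_succ, List.reverse_append, List.reverse_singleton,
      List.singleton_append, List.flatMap_cons, List.map_append, List.prod_append, inv_pow,
      conj_list, List.map_map]
    congr 2

private theorem mem_pairs {ι : Type} {l : List ι} {n : ℕ} {q : ℕ × ι}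
    (hq : q ∈ (List.range n).reverse.flatMap fun i => l.map fun j => (i, j)) : q.2 ∈ l := by
  rw [List.mem_flatMap] at hq
  obtain ⟨i, -, hq⟩ := hq
  rw [List.mem_map] at hq
  obtain ⟨j, hj, rfl⟩ := hq
  exact hj

/-- **LAYER LEMMA.** Choose `n ≥ 1` with `(D + C₀ D) / n ≤ η`, `C₀` from `frag`. Apply `frag` to the
list of the pairs `(i, j)`, `i < n`, the maps `g j * x ^ i ∈ Γ` and `F (i, j) = F j`. Let `P` be the
product; `P ∈ Γ` because `F j ∈ Γ` (`Lay.mem`, `δ ≤ 1/2`). `mul_pow_eq_pprod` and `pprod_eq`: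
`(x * P) ^ n = x ^ n * Q` with `|φ Q| ≤ C₀ D`, so `|n φ (x P) - n φ x - φ Q| ≤ D`. -/
theorem layer {k : ℕ} (hk : 1 ≤ k) {ε R C : ℝ} (hε : 0 < ε) (hR : 1 ≤ R) (hC : 0 ≤ C)
    (hLL : LLL k ε R C) {Γ : Subgroup (Equiv.Perm E3)} {φ : Equiv.Perm E3 → ℝ} {D : ℝ}
    (hΓ : Good Γ) (hφ : HQ Γ φ D) {x : Equiv.Perm E3} (hx : x ∈ Γ) {ι : Type} (l : List ι)
    (g : ι → Equiv.Perm E3) (hg : ∀ j ∈ l, g j ∈ Γ) (e : ℝ) (he : 0 < e) (η : ℝ) (hη : 0 < η) :
    ∃ δ M₀ : ℝ, 0 < δ ∧ δ ≤ 1 / 2 ∧ 1 ≤ M₀ ∧ ∀ M : ℝ, M₀ ≤ M →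
      ∀ F : ι → Equiv.Perm E3, (∀ j ∈ l, Lay k M δ e (F j)) →
        |φ (x * (l.map fun j => (g j)⁻¹ * F j * g j).prod) - φ x| ≤ η := by
  obtain ⟨C₀, hC₀, hfrag⟩ := frag hk hε hR hC hLL
  have hD := hφ.nonneg
  obtain ⟨n, hn⟩ := exists_nat_gt ((D + C₀ * D) / η)
  have hnum : 0 ≤ (D + C₀ * D) / η := by positivity
  have hn0 : (0 : ℝ) < n := lt_of_le_of_lt hnum hn
  rw [div_lt_iff₀ hη] at hn
  obtain ⟨δ, M₀, h1, h2, h3, h4⟩ := hfrag Γ φ D hΓ hφ (ℕ × ι)
    ((List.range n).reverse.flatMap fun i => l.map fun j => (i, j))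
    (fun q => g q.2 * x ^ q.1)
    (fun q hq => Γ.mul_mem (hg _ (mem_pairs hq)) (Γ.pow_mem hx _)) e he
  have hmin : 0 < min δ (1 / 2) := lt_min h1 (by norm_num)
  refine ⟨min δ (1 / 2), M₀, hmin, min_le_right _ _, h3, ?_⟩
  intro M hM F hF
  have hM0 : 0 < M := by linarith
  have hP : (l.map fun j => (g j)⁻¹ * F j * g j).prod ∈ Γ := by
    apply Subgroup.list_prod_mem
    intro y hy
    rw [List.mem_map] at hy
    obtain ⟨j, hj, rfl⟩ := hy
    exact Γ.mul_mem (Γ.mul_mem (Γ.inv_mem (hg j hj))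
      (Lay.mem hΓ hk hM0 hmin.le (min_le_right _ _) he (hF j hj))) (hg j hj)
  have hQ := h4 M hM (fun q => F q.2)
    (fun q hq => Lay.mono hM0.le (min_le_left _ _) (hF _ (mem_pairs hq)))
  rw [← pprod_eq] at hQ
  set P := (l.map fun j => (g j)⁻¹ * F j * g j).prod with hPdef
  have hxP : x * P ∈ Γ := Γ.mul_mem hx hP
  have hQm : pprod x P n ∈ Γ := by
    have e1 := mul_pow_eq_pprod x P n
    have e2 : pprod x P n = (x ^ n)⁻¹ * (x * P) ^ n := by
      rw [e1]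
      group
    rw [e2]
    exact Γ.mul_mem (Γ.inv_mem (Γ.pow_mem hx n)) (Γ.pow_mem hxP n)
  have hb := hφ.bdd _ (Γ.pow_mem hx n) _ hQm
  rw [← mul_pow_eq_pprod, hφ.map_pow hxP, hφ.map_pow hx] at hb
  have hfin : (n : ℝ) * |φ (x * P) - φ x| ≤ D + C₀ * D := by
    have e2 : (n : ℝ) * |φ (x * P) - φ x| = |(n : ℝ) * φ (x * P) - (n : ℝ) * φ x| := by
      rw [← mul_sub, abs_mul, abs_of_pos hn0]
    rw [e2]
    have e3 : (n : ℝ) * φ (x * P) - (n : ℝ) * φ x
        = ((n : ℝ) * φ (x * P) - (n : ℝ) * φ x - φ (pprod x P n)) + φ (pprod x P n) := by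
      ring
    rw [e3]
    exact (abs_add_le _ _).trans (add_le_add hb hQ)
  have h5 : (n : ℝ) * |φ (x * P) - φ x| < n * η := lt_of_le_of_lt hfin hn
  exact (lt_of_mul_lt_mul_left h5 hn0.le).le

end Pool.Agent.QM59.EE
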