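import Mathlib
import Pool.Agent.Lib.MP_decea1_gt_E.EDefs

/-!
# MP_decea1_gt, block E, module Grid: the cells of the grid of mesh `1 / M`
-/

set_option autoImplicit false

open MeasureTheory Set

namespace Pool.Agent.QM59.EE

/-- the centre coordinate -/
private def cc (a M : ℕ) (s : ℕ) : ℚ := (((a + s : ℕ) : ℚ) + 1 / 2) / (M : ℚ)

private theorem cc_cast (a M s : ℕ) :
    ((cc a M s : ℚ) : ℝ) = (((a : ℝ) + (s : ℝ)) + 1 / 2) / (M : ℝ) := by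
  unfold cc
  push_cast
  rfl

private theorem mem_QC (c : Fin 3 → ℚ) (ρ : ℚ) (hρ : 0 ≤ ρ) (x : E3) :
    x ∈ QCube c ρ ↔ ∀ k, |x k - (c k : ℝ)| ≤ (ρ : ℝ) := by
  unfold QCube
  rw [Metric.mem_closedBall, dist_pi_le_iff (by exact_mod_cast hρ)]
  rfl

private theorem vol_Cube : volume Cube = 1 := by
  have h : Cube = Set.pi Set.univ fun _ : Fin 3 => Set.Ioo (0 : ℝ) 1 := by
    ext x
    simp [Cube, Box, Set.mem_pi]
  rw [h, Real.volume_pi_Ioo]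
  simp

private theorem vol_QC (c : Fin 3 → ℚ) (ρ : ℚ) (hρ : 0 ≤ ρ) :
    volume (QCube c ρ) = ENNReal.ofReal ((2 * (ρ : ℝ)) ^ 3) := by
  unfold QCube
  rw [Real.volume_pi_closedBall _ (by exact_mod_cast hρ)]
  simp

private theorem disj_QC (c d : Fin 3 → ℚ) (ρ : ℚ) (hρ : 0 ≤ ρ) (k : Fin 3)
    (h : 2 * (ρ : ℝ) < |(c k : ℝ) - (d k : ℝ)|) : Disjoint (QCube c ρ) (QCube d ρ) := by
  rw [Set.disjoint_left]
  intro x hx hx'
  have h1 := (mem_QC c ρ hρ x).1 hx k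
  have h2 := (mem_QC d ρ hρ x).1 hx' k
  have h3 : |(c k : ℝ) - (d k : ℝ)| ≤ |x k - (c k : ℝ)| + |x k - (d k : ℝ)| := by
    have := abs_sub (x k - (d k : ℝ)) (x k - (c k : ℝ))
    have e1 : (x k - (d k : ℝ)) - (x k - (c k : ℝ)) = (c k : ℝ) - (d k : ℝ) := by ring
    rw [e1] at this
    linarith
  linarith

private theorem grid_aux (q : ℚ) (v : ℝ) (hv : 0 < v) (hq : 0 < q) (hq8 : (q : ℝ) ≤ 1 / 8)
    (hqv : (q : ℝ) ≤ v / 60) (M : ℕ) (hM : 1 ≤ (q : ℝ) * M) (hM1 : 1 ≤ M) :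
    ∃ (n : ℕ) (c : Fin n → Fin 3 → ℚ),
      (Pairwise fun i j => Disjoint (QCube (c i) ((1 - q) / (2 * M)))
        (QCube (c j) ((1 - q) / (2 * M)))) ∧
      (∀ i, QCube (c i) ((1 - q) / (2 * M)) ⊆ Kc (q : ℝ)) ∧
      volume (Cube \ ⋃ i, QCube (c i) ((1 - 2 * q) * ((1 - q) / (2 * M)))) <
        ENNReal.ofReal v := by
  have hqR : (0 : ℝ) < (q : ℝ) := by exact_mod_cast hq
  have hMR : (1 : ℝ) ≤ (M : ℝ) := by exact_mod_cast hM1
  have hM0 : (0 : ℝ) < (M : ℝ) := by linarith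
  have hM0q : (0 : ℚ) < (M : ℚ) := by exact_mod_cast hM0
  have hq8' : q ≤ 1 / 8 := by
    have : ((q : ℚ) : ℝ) ≤ ((1 / 8 : ℚ) : ℝ) := by push_cast; linarith
    exact_mod_cast this
  set a : ℕ := ⌈(q : ℝ) * M⌉₊ with ha
  set b : ℕ := ⌊(1 - (q : ℝ)) * M⌋₊ with hb
  have ha1 : (q : ℝ) * M ≤ a := Nat.le_ceil _
  have ha2 : (a : ℝ) < (q : ℝ) * M + 1 := Nat.ceil_lt_add_one (by positivity)
  have hb1 : (b : ℝ) ≤ (1 - (q : ℝ)) * M :=
    Nat.floor_le (mul_nonneg (by linarith) hM0.le)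
  have hb2 : (1 - (q : ℝ)) * M < b + 1 := Nat.lt_floor_add_one _
  have hab : a ≤ b := by
    have : (a : ℝ) < (b : ℝ) + 1 := by nlinarith
    have h' : a < b + 1 := by exact_mod_cast this
    omega
  obtain ⟨m, hm⟩ : ∃ m, b = a + m := ⟨b - a, by omega⟩
  have hmb : (b : ℝ) = (a : ℝ) + (m : ℝ) := by rw [hm]; push_cast; rfl
  have hmM : (1 - 4 * (q : ℝ)) * M ≤ (m : ℝ) := by nlinarith
  -- the radii
  have hr0 : (0 : ℚ) ≤ (1 - q) / (2 * (M : ℚ)) :=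
    div_nonneg (by linarith) (by positivity)
  have hr0' : (0 : ℚ) ≤ (1 - 2 * q) * ((1 - q) / (2 * (M : ℚ))) :=
    mul_nonneg (by linarith) hr0
  have hrc : (((1 - q) / (2 * (M : ℚ)) : ℚ) : ℝ) = (1 - (q : ℝ)) / (2 * (M : ℝ)) := by
    push_cast; rfl
  have hrc' : (((1 - 2 * q) * ((1 - q) / (2 * (M : ℚ))) : ℚ) : ℝ) =
      (1 - 2 * (q : ℝ)) * ((1 - (q : ℝ)) / (2 * (M : ℝ))) := by
    push_cast; rfl
  have hrM : (1 - (q : ℝ)) / (2 * (M : ℝ)) * M = (1 - (q : ℝ)) / 2 := by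
    field_simp
  -- the cells
  let E := Fintype.equivFin (Fin 3 → Fin m)
  let c : Fin (Fintype.card (Fin 3 → Fin m)) → Fin 3 → ℚ :=
    fun i k => cc a M ((E.symm i k : Fin m) : ℕ)
  have hdis : Pairwise fun i j => Disjoint (QCube (c i) ((1 - q) / (2 * M)))
      (QCube (c j) ((1 - q) / (2 * M))) := by
    intro i j hij
    have hne : E.symm i ≠ E.symm j := fun h => hij (E.symm.injective h)
    obtain ⟨k, hk⟩ := Function.ne_iff.1 hne
    refine disj_QC _ _ _ hr0 k ?_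
    have hk' : ((E.symm i k : Fin m) : ℕ) ≠ ((E.symm j k : Fin m) : ℕ) :=
      fun h => hk (Fin.ext h)
    have h1 : (1 : ℝ) ≤ |(((E.symm i k : Fin m) : ℕ) : ℝ) - (((E.symm j k : Fin m) : ℕ) : ℝ)| := by
      have h2 : (((E.symm i k : Fin m) : ℕ) : ℤ) - (((E.symm j k : Fin m) : ℕ) : ℤ) ≠ 0 := by
        intro h
        apply hk'
        omega
      have h3 : (1 : ℤ) ≤ |(((E.symm i k : Fin m) : ℕ) : ℤ) - (((E.symm j k : Fin m) : ℕ) : ℤ)| :=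
        Int.one_le_abs h2
      exact_mod_cast h3
    have e1 : ((c i k : ℚ) : ℝ) - ((c j k : ℚ) : ℝ) =
        ((((E.symm i k : Fin m) : ℕ) : ℝ) - (((E.symm j k : Fin m) : ℕ) : ℝ)) / (M : ℝ) := by
      change ((cc a M _ : ℚ) : ℝ) - ((cc a M _ : ℚ) : ℝ) = _
      rw [cc_cast, cc_cast]
      ring
    rw [e1, abs_div, abs_of_pos hM0, lt_div_iff₀ hM0, hrc]
    have : 2 * ((1 - (q : ℝ)) / (2 * (M : ℝ))) * M = 1 - (q : ℝ) := by
      field_simp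
    rw [this]
    linarith
  have hsub : ∀ i, QCube (c i) ((1 - q) / (2 * M)) ⊆ Kc (q : ℝ) := by
    intro i x hx k
    have h1 := (mem_QC _ _ hr0 x).1 hx k
    rw [hrc] at h1
    have e1 : ((c i k : ℚ) : ℝ) =
        (((a : ℝ) + (((E.symm i k : Fin m) : ℕ) : ℝ)) + 1 / 2) / (M : ℝ) := cc_cast _ _ _
    rw [e1, abs_le] at h1
    obtain ⟨h2, h3⟩ := h1
    have hs : (((E.symm i k : Fin m) : ℕ) : ℝ) + 1 ≤ (m : ℝ) := by
      have : ((E.symm i k : Fin m) : ℕ) + 1 ≤ m := (E.symm i k).2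
      exact_mod_cast this
    have hs0 : (0 : ℝ) ≤ (((E.symm i k : Fin m) : ℕ) : ℝ) := Nat.cast_nonneg _
    set s : ℝ := (((E.symm i k : Fin m) : ℕ) : ℝ) with hsdef
    have e2 : (((a : ℝ) + s) + 1 / 2) / (M : ℝ) * M = ((a : ℝ) + s) + 1 / 2 := by
      field_simp
    constructor
    · have h4 := mul_le_mul_of_nonneg_right h2 hM0.le
      have h5 : (q : ℝ) * M ≤ x k * M := by
        have e3 : (x k - (((a : ℝ) + s) + 1 / 2) / (M : ℝ)) * M =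
            x k * M - (((a : ℝ) + s) + 1 / 2) := by rw [sub_mul, e2]
        have e4 : -((1 - (q : ℝ)) / (2 * (M : ℝ))) * M = -((1 - (q : ℝ)) / 2) := by
          rw [neg_mul, hrM]
        rw [e3, e4] at h4
        linarith
      exact le_of_mul_le_mul_right h5 hM0
    · have h4 := mul_le_mul_of_nonneg_right h3 hM0.le
      have h5 : x k * M ≤ (1 - (q : ℝ)) * M := by
        have e3 : (x k - (((a : ℝ) + s) + 1 / 2) / (M : ℝ)) * M =
            x k * M - (((a : ℝ) + s) + 1 / 2) := by rw [sub_mul, e2]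
        rw [e3, hrM] at h4
        linarith
      exact le_of_mul_le_mul_right h5 hM0
  refine ⟨_, c, hdis, hsub, ?_⟩
  -- the small cubes
  have hss : ∀ i, QCube (c i) ((1 - 2 * q) * ((1 - q) / (2 * M))) ⊆
      QCube (c i) ((1 - q) / (2 * M)) := by
    intro i
    unfold QCube
    refine Metric.closedBall_subset_closedBall ?_
    have : (1 - 2 * q) * ((1 - q) / (2 * (M : ℚ))) ≤ (1 - q) / (2 * (M : ℚ)) := by
      nlinarith
    exact_mod_cast this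
  have hmeas : ∀ i, MeasurableSet (QCube (c i) ((1 - 2 * q) * ((1 - q) / (2 * M)))) :=
    fun i => Metric.isClosed_closedBall.measurableSet
  have hKC : Kc (q : ℝ) ⊆ Cube := by
    intro x hx i
    have := hx i
    constructor
    · show (0 : ℝ) < x i
      linarith [this.1]
    · show x i < (1 : ℝ)
      linarith [this.2]
  have hUC : (⋃ i, QCube (c i) ((1 - 2 * q) * ((1 - q) / (2 * M)))) ⊆ Cube :=
    Set.iUnion_subset fun i => ((hss i).trans (hsub i)).trans hKC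
  have hvolU : volume (⋃ i, QCube (c i) ((1 - 2 * q) * ((1 - q) / (2 * M)))) =
      ENNReal.ofReal
        (((m : ℝ) * (2 * ((1 - 2 * (q : ℝ)) * ((1 - (q : ℝ)) / (2 * (M : ℝ)))))) ^ 3) := by
    rw [measure_iUnion (fun i j hij => (hdis hij).mono (hss i) (hss j)) hmeas, tsum_fintype]
    have h1 : ∀ i, volume (QCube (c i) ((1 - 2 * q) * ((1 - q) / (2 * M)))) =
        ENNReal.ofReal ((2 * ((1 - 2 * (q : ℝ)) * ((1 - (q : ℝ)) / (2 * (M : ℝ))))) ^ 3) := by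
      intro i
      rw [vol_QC _ _ hr0', hrc']
    rw [Finset.sum_congr rfl fun i _ => h1 i, Finset.sum_const, Finset.card_univ,
      Fintype.card_fin, nsmul_eq_mul, mul_pow (m : ℝ),
      ENNReal.ofReal_mul (by positivity : (0 : ℝ) ≤ (m : ℝ) ^ 3)]
    congr 1
    rw [Fintype.card_fun, Fintype.card_fin, Fintype.card_fin, Nat.cast_pow,
      ENNReal.ofReal_pow (by positivity), ENNReal.ofReal_natCast]
  have hdiff : volume (Cube \ ⋃ i, QCube (c i) ((1 - 2 * q) * ((1 - q) / (2 * M)))) =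
      1 - ENNReal.ofReal
        (((m : ℝ) * (2 * ((1 - 2 * (q : ℝ)) * ((1 - (q : ℝ)) / (2 * (M : ℝ)))))) ^ 3) := by
    rw [measure_sdiff hUC (MeasurableSet.iUnion hmeas).nullMeasurableSet
      (by rw [hvolU]; exact ENNReal.ofReal_ne_top), hvolU, vol_Cube]
  rw [hdiff]
  have e5 : (m : ℝ) * (2 * ((1 - 2 * (q : ℝ)) * ((1 - (q : ℝ)) / (2 * (M : ℝ))))) =
      (m : ℝ) / M * ((1 - 2 * (q : ℝ)) * (1 - (q : ℝ))) := by
    field_simp
  have h6 : 1 - 4 * (q : ℝ) ≤ (m : ℝ) / M := by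
    rw [le_div_iff₀ hM0]
    exact hmM
  have h7 : 1 - 7 * (q : ℝ) ≤ (m : ℝ) / M * ((1 - 2 * (q : ℝ)) * (1 - (q : ℝ))) := by
    have h8 : (0 : ℝ) ≤ (1 - 2 * (q : ℝ)) * (1 - (q : ℝ)) :=
      mul_nonneg (by linarith) (by linarith)
    have h9 := mul_le_mul_of_nonneg_right h6 h8
    refine le_trans ?_ h9
    nlinarith [mul_pos hqR hqR, mul_pos (mul_pos hqR hqR) hqR]
  have h10 : 1 - 21 * (q : ℝ) ≤ (1 - 7 * (q : ℝ)) ^ 3 := by
    nlinarith [mul_pos hqR hqR, mul_pos (mul_pos hqR hqR) hqR]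
  have h11 : (1 - 7 * (q : ℝ)) ^ 3 ≤
      ((m : ℝ) * (2 * ((1 - 2 * (q : ℝ)) * ((1 - (q : ℝ)) / (2 * (M : ℝ)))))) ^ 3 := by
    rw [e5]
    exact pow_le_pow_left₀ (by linarith) h7 3
  have h12 : (0 : ℝ) ≤
      ((m : ℝ) * (2 * ((1 - 2 * (q : ℝ)) * ((1 - (q : ℝ)) / (2 * (M : ℝ)))))) ^ 3 := by
    have h13 : (0 : ℝ) ≤ (1 - 7 * (q : ℝ)) ^ 3 := pow_nonneg (by linarith) 3
    linarith
  rw [← ENNReal.ofReal_one, ← ENNReal.ofReal_sub _ h12]
  exact (ENNReal.ofReal_lt_ofReal_iff hv).2 (by linarith)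

/-- **Grid.** Let `e = θ = min (1/8) (v/60)` (rational, or a smaller positive rational number) and
`M₁ ≥ 1 / e`. For `M ≥ M₁` the cells are the closed cubes with centres
`((z i + 1/2) / M)`, `z : Fin 3 → ℕ`, `e ≤ z i / M`, `(z i + 1) / M ≤ 1 - e`. They are in `Kc e`;
cubes of radius `(1 - θ) / (2 M)` around different centres are disjoint, because two centres differ
by at least `1 / M` in some coordinate. The number of admissible values of one coordinate is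
`m ≥ (1 - 2 e) M - 2 ≥ (1 - 4 e) M`. The cubes of radius `(1 - 2 θ) (1 - θ) / (2 M)` are disjoint,
with total volume `m ^ 3 ((1 - 2 θ) (1 - θ) / M) ^ 3 ≥ ((1 - 4 e) (1 - 2 θ) (1 - θ)) ^ 3`, which is
at least `(1 - 7 e) ^ 3 ≥ 1 - 21 e > 1 - v` (for `θ = e`, `7 e < 1`); the cube has volume `1`
(`Real.volume_pi_closedBall`, `measure_iUnion`, `measure_diff`). -/
theorem grid (v : ℝ) (hv : 0 < v) : ∃ (e : ℝ) (θ : ℚ) (M₁ : ℕ), 0 < e ∧ 0 < θ ∧ θ < 1 / 4 ∧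
    1 ≤ M₁ ∧ ∀ M : ℕ, M₁ ≤ M → ∃ (n : ℕ) (c : Fin n → Fin 3 → ℚ),
      (Pairwise fun i j => Disjoint (QCube (c i) ((1 - θ) / (2 * M)))
        (QCube (c j) ((1 - θ) / (2 * M)))) ∧
      (∀ i, QCube (c i) ((1 - θ) / (2 * M)) ⊆ Kc e) ∧
      volume (Cube \ ⋃ i, QCube (c i) ((1 - 2 * θ) * ((1 - θ) / (2 * M)))) <
        ENNReal.ofReal v := by
  obtain ⟨q, hq0, hq1⟩ := exists_rat_btwn
    (show (0 : ℝ) < min (1 / 8) (v / 60) from lt_min (by norm_num) (by positivity))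
  have hq : 0 < q := by exact_mod_cast hq0
  have hq8 : (q : ℝ) ≤ 1 / 8 := hq1.le.trans (min_le_left _ _)
  have hqv : (q : ℝ) ≤ v / 60 := hq1.le.trans (min_le_right _ _)
  refine ⟨(q : ℝ), q, ⌈1 / (q : ℝ)⌉₊ + 1, hq0, hq, ?_, by omega, ?_⟩
  · have : ((q : ℚ) : ℝ) < ((1 / 4 : ℚ) : ℝ) := by push_cast; linarith
    exact_mod_cast this
  · intro M hM
    have h1 : 1 / (q : ℝ) ≤ (M : ℝ) := by
      have h2 : 1 / (q : ℝ) ≤ (⌈1 / (q : ℝ)⌉₊ : ℝ) := Nat.le_ceil _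
      have h3 : ((⌈1 / (q : ℝ)⌉₊ + 1 : ℕ) : ℝ) ≤ (M : ℝ) := by exact_mod_cast hM
      push_cast at h3
      linarith
    have h4 : 1 ≤ (q : ℝ) * M := by
      rw [div_le_iff₀ hq0] at h1
      linarith [mul_comm (M : ℝ) (q : ℝ)]
    exact grid_aux q v hv hq hq8 hqv M h4 (by omega)

end Pool.Agent.QM59.EE
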