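import Mathlib
import Pool.Agent.Lib.MP_decea1_gt_E.EDefs
import Pool.Agent.Lib.MP_decea1_gt_A.J2

/-!
# MP_decea1_gt, block E, module RatPt: rational affine maps and density
-/

set_option autoImplicit false

open MeasureTheory Set

namespace Pool.Agent.QM59.EE

/-- the linear part -/
noncomputable def linA (A : RatA) : E3 →L[ℝ] E3 :=
  LinearMap.toContinuousLinearMap (Matrix.toLin' (A.L.map (fun q : ℚ => (q : ℝ))))

private theorem linA_apply (A : RatA) (x : E3) :
    linA A x = fun i => ∑ j, (A.L i j : ℝ) * x j := by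
  funext i
  simp [linA, Matrix.toLin'_apply, Matrix.mulVec, dotProduct]

theorem app_eq (A : RatA) (x : E3) : A.app x = linA A x + fun i => (A.t i : ℝ) := by
  rw [linA_apply]
  rfl

theorem det_linA (A : RatA) : (linA A).det = 1 := by
  have h1 : (linA A).det = (A.L.map (fun q : ℚ => (q : ℝ))).det := by
    rw [linA, ContinuousLinearMap.det, LinearMap.coe_toContinuousLinearMap, LinearMap.det_toLin']
  have h2 := (Rat.castHom ℝ).map_det A.L
  have h3 : (Rat.castHom ℝ).mapMatrix A.L = A.L.map (fun q : ℚ => (q : ℝ)) := rfl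
  rw [h1, ← h3, ← h2, A.det]
  simp

/-- The rational affine map as a permutation: the inverse of `linA A` is a continuous linear
equivalence (`ContinuousLinearEquiv` from the determinant, or the matrix inverse). -/
theorem exists_perm (A : RatA) : ∃ (Λ : E3 ≃L[ℝ] E3) (T : Equiv.Perm E3),
    (Λ : E3 →L[ℝ] E3) = linA A ∧ (∀ x, T x = A.app x) ∧
    (∀ x, T x = Λ x + fun i => (A.t i : ℝ)) ∧ IsDif T ∧ Vol T := by
  have hd : (linA A).det ≠ 0 := by
    rw [det_linA]
    exact one_ne_zero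
  let Λ : E3 ≃L[ℝ] E3 := (linA A).toContinuousLinearEquivOfDetNeZero hd
  have hΛ : (Λ : E3 →L[ℝ] E3) = linA A :=
    ContinuousLinearMap.coe_toContinuousLinearEquivOfDetNeZero _ hd
  let T : Equiv.Perm E3 := Λ.toEquiv.trans (Equiv.addRight fun i => (A.t i : ℝ))
  have hT : ∀ x, T x = Λ x + fun i => (A.t i : ℝ) := fun x => rfl
  have hTs : ∀ x, T.symm x = Λ.symm (x - fun i => (A.t i : ℝ)) := fun x => by
    rw [Equiv.symm_apply_eq, hT, Λ.apply_symm_apply, sub_add_cancel]
  refine ⟨Λ, T, hΛ, fun x => ?_, hT, ⟨?_, ?_⟩, fun x => ?_⟩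
  · rw [hT, app_eq, ← hΛ]
    rfl
  · simp only [hT]
    exact Λ.contDiff.add contDiff_const
  · simp only [hTs]
    exact Λ.symm.contDiff.comp (contDiff_id.sub contDiff_const)
  · have h1 : HasFDerivAt (fun y => T y) (Λ : E3 →L[ℝ] E3) x := by
      simp only [hT]
      exact Λ.hasFDerivAt.add_const _
    unfold jac
    rw [h1.fderiv, hΛ, det_linA]

/-- the first row divided by the determinant -/
private noncomputable def nrow {k : Type*} [Field k] (X : Matrix (Fin 3) (Fin 3) k) :
    Matrix (Fin 3) (Fin 3) k := X.updateRow 0 (X.det⁻¹ • X 0)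

private theorem det_nrow {k : Type*} [Field k] (X : Matrix (Fin 3) (Fin 3) k) (hX : X.det ≠ 0) :
    (nrow X).det = 1 := by
  rw [nrow, Matrix.det_updateRow_smul, Matrix.updateRow_eq_self, inv_mul_cancel₀ hX]

private theorem nrow_apply {k : Type*} [Field k] (X : Matrix (Fin 3) (Fin 3) k) (i j : Fin 3) :
    nrow X i j = if i = 0 then X.det⁻¹ * X 0 j else X i j := by
  rw [nrow, Matrix.updateRow_apply]
  rfl

private theorem nrow_map (X : Matrix (Fin 3) (Fin 3) ℚ) :
    (nrow X).map (fun q : ℚ => (q : ℝ)) = nrow (X.map (fun q : ℚ => (q : ℝ))) := by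
  have h2 := (Rat.castHom ℝ).map_det X
  have h3 : (Rat.castHom ℝ).mapMatrix X = X.map (fun q : ℚ => (q : ℝ)) := rfl
  rw [h3] at h2
  have h4 : ((X.det : ℚ) : ℝ) = (X.map (fun q : ℚ => (q : ℝ))).det := h2
  ext i j
  rw [Matrix.map_apply, nrow_apply, nrow_apply, ← h4]
  split_ifs with hi
  · push_cast
    rfl
  · rfl

private theorem continuousAt_nrow (M : Matrix (Fin 3) (Fin 3) ℝ) (hM : M.det ≠ 0) :
    ContinuousAt (fun X : Matrix (Fin 3) (Fin 3) ℝ => nrow X) M := by
  have hd : ContinuousAt (fun X : Matrix (Fin 3) (Fin 3) ℝ => X.det) M :=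
    (continuous_id.matrix_det).continuousAt
  refine continuousAt_pi.2 fun i => continuousAt_pi.2 fun j => ?_
  have he : ∀ i j : Fin 3, ContinuousAt (fun X : Matrix (Fin 3) (Fin 3) ℝ => X i j) M :=
    fun i j => (continuous_id.matrix_elem i j).continuousAt
  by_cases hi : i = 0
  · have h1 : (fun X : Matrix (Fin 3) (Fin 3) ℝ => nrow X i j) = fun X => X.det⁻¹ * X 0 j := by
      funext X
      rw [nrow_apply, if_pos hi]
    rw [h1]
    exact (hd.inv₀ hM).mul (he 0 j)
  · have h1 : (fun X : Matrix (Fin 3) (Fin 3) ℝ => nrow X i j) = fun X => X i j := by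
      funext X
      rw [nrow_apply, if_neg hi]
    rw [h1]
    exact he i j

private theorem dense_rat : DenseRange fun c : Fin 3 → ℚ => fun i => (c i : ℝ) := by
  have h : DenseRange (Pi.map fun _ : Fin 3 => ((↑) : ℚ → ℝ)) :=
    DenseRange.piMap fun _ => Rat.denseRange_cast
  exact h

private theorem dense_ratM :
    DenseRange fun X : Matrix (Fin 3) (Fin 3) ℚ => X.map (fun q : ℚ => (q : ℝ)) := by
  have h : DenseRange (Pi.map fun _ : Fin 3 => Pi.map fun _ : Fin 3 => ((↑) : ℚ → ℝ)) :=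
    DenseRange.piMap fun _ => DenseRange.piMap fun _ => Rat.denseRange_cast
  exact h

/-- **Density of `SL_3(ℚ)` in `SL_3(ℝ)`.** Take a rational matrix near the matrix of `P`, divide its
first row by its determinant `d`, which is near `1`; this is again near `P` and has determinant
`1`. Then choose the rational vector `t` near `q - L c`. -/
theorem exists_ratA (P : E3 →L[ℝ] E3) (hP : P.det = 1) (c : Fin 3 → ℚ) (q : E3) (η η' : ℝ)
    (hη : 0 < η) (hη' : 0 < η') :
    ∃ A : RatA, ‖linA A - P‖ ≤ η ∧ ‖A.app (qpt c) - q‖ ≤ η' := by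
  set M : Matrix (Fin 3) (Fin 3) ℝ := LinearMap.toMatrix' (P : E3 →ₗ[ℝ] E3) with hM
  have hMd : M.det = 1 := by
    rw [hM, LinearMap.det_toMatrix']
    exact hP
  have hMP : LinearMap.toContinuousLinearMap (Matrix.toLin' M) = P := by
    rw [hM, Matrix.toLin'_toMatrix']
    rfl
  have hnM : nrow M = M := by
    ext i j
    rw [nrow_apply, hMd]
    split_ifs with hi
    · rw [hi, inv_one, one_mul]
    · rfl
  let Ψ : Matrix (Fin 3) (Fin 3) ℝ → (E3 →L[ℝ] E3) := fun X =>
    LinearMap.toContinuousLinearMap (Matrix.toLin' X)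
  have hΨ : Continuous Ψ := by
    have h1 : Continuous (((Matrix.toLin' : Matrix (Fin 3) (Fin 3) ℝ ≃ₗ[ℝ] _).trans
      LinearMap.toContinuousLinearMap : Matrix (Fin 3) (Fin 3) ℝ ≃ₗ[ℝ] (E3 →L[ℝ] E3)) :
      Matrix (Fin 3) (Fin 3) ℝ →ₗ[ℝ] (E3 →L[ℝ] E3)) := LinearMap.continuous_of_finiteDimensional _
    exact h1
  have hc : ContinuousAt (fun X => Ψ (nrow X)) M :=
    hΨ.continuousAt.comp (continuousAt_nrow M (by rw [hMd]; exact one_ne_zero))
  have hev : ∀ᶠ X in nhds M, ‖Ψ (nrow X) - P‖ < η ∧ X.det ≠ 0 := by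
    refine Filter.Eventually.and ?_ ?_
    · have h1 : ContinuousAt (fun X => ‖Ψ (nrow X) - P‖) M := (hc.sub continuousAt_const).norm
      refine h1.eventually_lt continuousAt_const ?_
      show ‖Ψ (nrow M) - P‖ < η
      rw [hnM]
      show ‖LinearMap.toContinuousLinearMap (Matrix.toLin' M) - P‖ < η
      rw [hMP, sub_self, norm_zero]
      exact hη
    · have h1 : ContinuousAt (fun X : Matrix (Fin 3) (Fin 3) ℝ => X.det) M :=
        (continuous_id.matrix_det).continuousAt
      refine h1.eventually_ne ?_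
      rw [hMd]
      exact one_ne_zero
  obtain ⟨U, hU, hUo, hMU⟩ := eventually_nhds_iff.1 hev
  obtain ⟨X, hX⟩ := dense_ratM.exists_mem_open hUo ⟨M, hMU⟩
  obtain ⟨hX1, hX2⟩ := hU _ hX
  have hXd : X.det ≠ 0 := by
    intro h0
    apply hX2
    have h2 := (Rat.castHom ℝ).map_det X
    have h3 : (Rat.castHom ℝ).mapMatrix X = X.map (fun q : ℚ => (q : ℝ)) := rfl
    rw [h3, h0, map_zero] at h2
    exact h2.symm
  let A0 : RatA := ⟨nrow X, 0, det_nrow X hXd⟩
  obtain ⟨t, ht⟩ := dense_rat.exists_dist_lt (q - linA A0 (qpt c)) hη'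
  let A : RatA := ⟨nrow X, t, det_nrow X hXd⟩
  have hA : linA A = linA A0 := rfl
  refine ⟨A, ?_, ?_⟩
  · have h1 : linA A = Ψ (nrow (X.map (fun q : ℚ => (q : ℝ)))) := by
      rw [← nrow_map]
      rfl
    rw [h1]
    exact hX1.le
  · rw [app_eq, hA]
    rw [dist_comm, dist_eq_norm] at ht
    have h1 : linA A0 (qpt c) + (fun i => (A.t i : ℝ)) - q
        = (fun i => (t i : ℝ)) - (q - linA A0 (qpt c)) := by
      have h2 : (fun i => (A.t i : ℝ)) = fun i => (t i : ℝ) := rfl
      rw [h2]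
      abel
    rw [h1]
    exact ht.le

end Pool.Agent.QM59.EE
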