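import Mathlib
import Pool.Agent.Lib.MP_decea1_gt_E.EDefs
import Pool.Agent.Lib.MP_decea1_gt_E.Tame

/-!
# MP_decea1_gt, block E, module Resc: rescaling of `T⁻¹ a` near a point
-/

set_option autoImplicit false

open MeasureTheory Set

namespace Pool.Agent.QM59.EE

/-- the rescaled map `ξ ↦ l⁻¹ (T⁻¹ (a (p + l ξ)) - p)` -/
noncomputable def resc (p : E3) (l : ℝ) (hl : l ≠ 0) (T a : Equiv.Perm E3) : Equiv.Perm E3 :=
  (homoth p l hl)⁻¹ * T⁻¹ * a * homoth p l hl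

theorem homoth_isDif (p : E3) (l : ℝ) (hl : l ≠ 0) : IsDif (homoth p l hl) := by
  constructor
  · change ContDiff ℝ smo (fun x : E3 => p + l • x)
    exact contDiff_const.add (contDiff_id.const_smul l)
  · change ContDiff ℝ smo (fun x : E3 => l⁻¹ • (x - p))
    exact (contDiff_id.sub contDiff_const).const_smul l⁻¹

theorem resc_isDif (p : E3) (l : ℝ) (hl : l ≠ 0) {T a : Equiv.Perm E3} (hT : IsDif T)
    (ha : IsDif a) : IsDif (resc p l hl T a) := by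
  have h := homoth_isDif p l hl
  exact ((h.inv.mul hT.inv).mul ha).mul h

private theorem hasFDerivAt_homoth (p : E3) (l : ℝ) (x : E3) :
    HasFDerivAt (fun y : E3 => p + l • y) (l • ContinuousLinearMap.id ℝ E3) x := by
  have h := ((hasFDerivAt_id (𝕜 := ℝ) x).const_smul l).const_add p
  exact h

private theorem jac_homoth (p : E3) (l : ℝ) (hl : l ≠ 0) (x y : E3) :
    jac (fun z => homoth p l hl z) x = jac (fun z => homoth p l hl z) y := by
  unfold jac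
  change (fderiv ℝ (fun z : E3 => p + l • z) x).det = (fderiv ℝ (fun z : E3 => p + l • z) y).det
  rw [(hasFDerivAt_homoth p l x).fderiv, (hasFDerivAt_homoth p l y).fderiv]

/-- the Jacobians of the homotheties are constant and cancel -/
theorem vol_conj_homoth (p : E3) (l : ℝ) (hl : l ≠ 0) {f : Equiv.Perm E3} (hf : IsDif f)
    (hv : Vol f) : Vol ((homoth p l hl)⁻¹ * f * homoth p l hl) := by
  intro x
  have h := homoth_isDif p l hl
  rw [(h.inv.mul hf).jac_mul h, h.inv.jac_mul hf, hv, h.jac_inv, mul_one,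
    jac_homoth p l hl _ x]
  exact inv_mul_cancel₀ (h.jac_ne_zero x)

theorem vol_conj_homoth' (p : E3) (l : ℝ) (hl : l ≠ 0) {f : Equiv.Perm E3} (hf : IsDif f)
    (hv : Vol f) : Vol (homoth p l hl * f * (homoth p l hl)⁻¹) := by
  intro x
  have h := homoth_isDif p l hl
  rw [(h.mul hf).jac_mul h.inv, h.jac_mul hf, hv, h.jac_inv, mul_one,
    jac_homoth p l hl _ ((homoth p l hl)⁻¹ x)]
  exact mul_inv_cancel₀ (h.jac_ne_zero _)

private theorem nat_le_smo (i : ℕ) : (i : WithTop ℕ∞) ≤ smo := by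
  change ((i : ℕ∞) : WithTop ℕ∞) ≤ ((⊤ : ℕ∞) : WithTop ℕ∞)
  exact WithTop.coe_le_coe.mpr le_top

private theorem itf_scale (g : E3 → E3) (hg : ContDiff ℝ smo g) (c : ℝ) (q : E3) (i : ℕ)
    (x : E3) :
    iteratedFDeriv ℝ i (fun x => g (q + c • x)) x = c ^ i • iteratedFDeriv ℝ i g (q + c • x) := by
  have hG : ContDiff ℝ smo (fun y : E3 => g (q + y)) :=
    hg.comp (contDiff_const.add contDiff_id)
  have e : (fun x => g (q + c • x)) =
      (fun y : E3 => g (q + y)) ∘ (c • ContinuousLinearMap.id ℝ E3 : E3 →L[ℝ] E3) := by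
    funext y
    simp
  rw [e, ContinuousLinearMap.iteratedFDeriv_comp_right _ hG x (nat_le_smo i)]
  ext1 m
  rw [ContinuousMultilinearMap.compContinuousLinearMap_apply, iteratedFDeriv_comp_add_left]
  have h := (iteratedFDeriv ℝ i g (q + c • x)).map_smul_univ (fun _ => c) m
  simp only [Finset.prod_const, Finset.card_univ, Fintype.card_fin] at h
  simpa using h

/-- derivatives of a conjugate with a homothety:
`disp (homoth p l * f * (homoth p l)⁻¹) x = l • disp f (l⁻¹ • (x - p))`, so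
`D^i = l^(1 - i) (D^i disp f) (l⁻¹ • (x - p))`. -/
theorem disp_conj_homoth (p : E3) (l : ℝ) (hl : 0 < l) (f : Equiv.Perm E3) (hf : IsDif f)
    (i : ℕ) (x : E3) :
    l ^ i * ‖iteratedFDeriv ℝ i (disp (homoth p l hl.ne' * f * (homoth p l hl.ne')⁻¹)) x‖ =
      l * ‖iteratedFDeriv ℝ i (disp f) (l⁻¹ • (x - p))‖ := by
  have hd : ContDiff ℝ smo (disp f) := hf.1.sub contDiff_id
  have e : disp (homoth p l hl.ne' * f * (homoth p l hl.ne')⁻¹) =
      fun x => l • disp f (-(l⁻¹ • p) + l⁻¹ • x) := by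
    funext x
    change p + l • f (l⁻¹ • (x - p)) - x = l • (f (-(l⁻¹ • p) + l⁻¹ • x) - (-(l⁻¹ • p) + l⁻¹ • x))
    have e1 : -(l⁻¹ • p) + l⁻¹ • x = l⁻¹ • (x - p) := by
      rw [smul_sub]
      abel
    rw [e1]
    have e2 : l • (l⁻¹ • (x - p)) = x - p := by
      rw [smul_smul, mul_inv_cancel₀ hl.ne', one_smul]
    rw [smul_sub l (f (l⁻¹ • (x - p))) (l⁻¹ • (x - p)), e2]
    abel
  have hd' : ContDiff ℝ smo (fun x : E3 => disp f (-(l⁻¹ • p) + l⁻¹ • x)) :=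
    hd.comp (contDiff_const.add (contDiff_id.const_smul l⁻¹))
  have e1 : -(l⁻¹ • p) + l⁻¹ • x = l⁻¹ • (x - p) := by
    rw [smul_sub]
    abel
  rw [e]
  have h1 := iteratedFDeriv_const_smul_apply' (𝕜 := ℝ) (i := i) (a := l) (x := x)
    (f := fun x : E3 => disp f (-(l⁻¹ • p) + l⁻¹ • x))
    (hd'.contDiffAt.of_le (nat_le_smo i))
  rw [h1, itf_scale (disp f) hd, e1, norm_smul, norm_smul, norm_pow, Real.norm_eq_abs,
    Real.norm_eq_abs, abs_of_pos hl, abs_of_pos (inv_pos.mpr hl)]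
  have h2 : l ^ i * l⁻¹ ^ i = 1 := by
    rw [← mul_pow, mul_inv_cancel₀ hl.ne', one_pow]
  calc l ^ i * (l * (l⁻¹ ^ i * ‖iteratedFDeriv ℝ i (disp f) (l⁻¹ • (x - p))‖))
      = (l ^ i * l⁻¹ ^ i) * (l * ‖iteratedFDeriv ℝ i (disp f) (l⁻¹ • (x - p))‖) := by ring
    _ = l * ‖iteratedFDeriv ℝ i (disp f) (l⁻¹ • (x - p))‖ := by rw [h2, one_mul]

private theorem resc_eq (p : E3) (l : ℝ) (hl : 0 < l) (a T : Equiv.Perm E3)
    (Λ : E3 ≃L[ℝ] E3) (b : E3) (hT : ∀ x, T x = Λ x + b) (ξ : E3) :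
    resc p l hl.ne' T a ξ = l⁻¹ • (Λ.symm (a (p + l • ξ) - b) - p) := by
  have hinv : ∀ y, T⁻¹ y = Λ.symm (y - b) := by
    intro y
    rw [Equiv.Perm.inv_eq_iff_eq, hT, ContinuousLinearEquiv.apply_symm_apply]
    abel
  change l⁻¹ • (T⁻¹ (a (p + l • ξ)) - p) = _
  rw [hinv]

private theorem disp_resc_eq (p : E3) (l : ℝ) (hl : 0 < l) (a T : Equiv.Perm E3)
    (Λ : E3 ≃L[ℝ] E3) (b : E3) (hT : ∀ x, T x = Λ x + b) :
    disp (resc p l hl.ne' T a) = fun ξ => l⁻¹ • (Λ.symm (a (p + l • ξ) - b) - p) - ξ := by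
  funext ξ
  change resc p l hl.ne' T a ξ - ξ = _
  rw [resc_eq p l hl a T Λ b hT]

private theorem hasFDerivAt_disp_resc (p : E3) (l : ℝ) (hl : 0 < l) (a T : Equiv.Perm E3)
    (ha : IsDif a) (Λ : E3 ≃L[ℝ] E3) (b : E3) (hT : ∀ x, T x = Λ x + b) (ξ : E3) :
    HasFDerivAt (disp (resc p l hl.ne' T a))
      ((Λ.symm : E3 →L[ℝ] E3).comp (fderiv ℝ (fun y => a y) (p + l • ξ)) -
        ContinuousLinearMap.id ℝ E3) ξ := by
  rw [disp_resc_eq p l hl a T Λ b hT]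
  have h1 := hasFDerivAt_homoth p l ξ
  have h2 : HasFDerivAt (fun ξ : E3 => a (p + l • ξ))
      ((fderiv ℝ (fun y => a y) (p + l • ξ)).comp (l • ContinuousLinearMap.id ℝ E3)) ξ :=
    (ha.differentiable (p + l • ξ)).hasFDerivAt.comp ξ h1
  have h3 : HasFDerivAt (fun ξ : E3 => Λ.symm (a (p + l • ξ) - b))
      ((Λ.symm : E3 →L[ℝ] E3).comp
        ((fderiv ℝ (fun y => a y) (p + l • ξ)).comp (l • ContinuousLinearMap.id ℝ E3))) ξ :=
    (Λ.symm : E3 →L[ℝ] E3).hasFDerivAt.comp ξ (h2.sub_const b)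
  have h4 := ((h3.sub_const p).const_smul l⁻¹).sub (hasFDerivAt_id (𝕜 := ℝ) ξ)
  refine h4.congr_fderiv ?_
  ext1 v
  simp only [sub_apply, smul_apply,
    ContinuousLinearMap.comp_apply, ContinuousLinearMap.id_apply, map_smul, smul_smul,
    inv_mul_cancel₀ hl.ne', one_smul]

private theorem norm_symm_le (B : ℝ) (hB : 1 ≤ B) (k : ℕ) (hk : 2 ≤ k) (a : Equiv.Perm E3)
    (ha : IsDif a) (hTB : TB k B a) (Λ : E3 ≃L[ℝ] E3) (p : E3) (η : ℝ) (hη : η * (2 * B) ≤ 1)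
    (h : ‖(Λ : E3 →L[ℝ] E3) - fderiv ℝ (fun y => a y) p‖ ≤ η) (y : E3) :
    ‖Λ.symm y‖ ≤ 2 * B * ‖y‖ := by
  set x := Λ.symm y with hx
  have hyx : y = Λ x := by rw [hx, ContinuousLinearEquiv.apply_symm_apply]
  have hQ : ‖fderiv ℝ (fun y => a⁻¹ y) (a p)‖ ≤ B := by
    rw [← norm_iteratedFDeriv_one]
    exact hTB.2 1 le_rfl (by omega) (a p)
  have hcomp : (fderiv ℝ (fun y => a⁻¹ y) (a p)).comp (fderiv ℝ (fun y => a y) p) =
      ContinuousLinearMap.id ℝ E3 := by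
    have h1 : HasFDerivAt (fun y : E3 => a⁻¹ (a y))
        ((fderiv ℝ (fun y => a⁻¹ y) (a p)).comp (fderiv ℝ (fun y => a y) p)) p :=
      (ha.inv.differentiable (a p)).hasFDerivAt.comp p (ha.differentiable p).hasFDerivAt
    have h2 : (fun y : E3 => a⁻¹ (a y)) = fun y => y := by
      funext y
      exact a.symm_apply_apply y
    rw [h2] at h1
    exact h1.unique (hasFDerivAt_id p)
  have hxB : ‖x‖ ≤ B * ‖fderiv ℝ (fun y => a y) p x‖ := by
    have h1 : x = (fderiv ℝ (fun y => a⁻¹ y) (a p)) (fderiv ℝ (fun y => a y) p x) := by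
      rw [← ContinuousLinearMap.comp_apply, hcomp]
      rfl
    calc ‖x‖ = ‖(fderiv ℝ (fun y => a⁻¹ y) (a p)) (fderiv ℝ (fun y => a y) p x)‖ := by
          rw [← h1]
      _ ≤ ‖fderiv ℝ (fun y => a⁻¹ y) (a p)‖ * ‖fderiv ℝ (fun y => a y) p x‖ :=
          ContinuousLinearMap.le_opNorm _ _
      _ ≤ B * ‖fderiv ℝ (fun y => a y) p x‖ := mul_le_mul_of_nonneg_right hQ (norm_nonneg _)
  have hd : ‖Λ x - fderiv ℝ (fun y => a y) p x‖ ≤ η * ‖x‖ := by
    have h1 := ((Λ : E3 →L[ℝ] E3) - fderiv ℝ (fun y => a y) p).le_opNorm x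
    calc ‖Λ x - fderiv ℝ (fun y => a y) p x‖
        ≤ ‖(Λ : E3 →L[ℝ] E3) - fderiv ℝ (fun y => a y) p‖ * ‖x‖ := h1
      _ ≤ η * ‖x‖ := mul_le_mul_of_nonneg_right h (norm_nonneg _)
  have hP : ‖fderiv ℝ (fun y => a y) p x‖ ≤ ‖Λ x‖ + η * ‖x‖ := by
    have h1 : fderiv ℝ (fun y => a y) p x = Λ x - (Λ x - fderiv ℝ (fun y => a y) p x) := by
      abel
    calc ‖fderiv ℝ (fun y => a y) p x‖ = ‖Λ x - (Λ x - fderiv ℝ (fun y => a y) p x)‖ := by
          rw [← h1]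
      _ ≤ ‖Λ x‖ + ‖Λ x - fderiv ℝ (fun y => a y) p x‖ := norm_sub_le _ _
      _ ≤ ‖Λ x‖ + η * ‖x‖ := by linarith
  rw [hyx]
  have hB0 : 0 ≤ B := by linarith
  have h5 : B * ‖fderiv ℝ (fun y => a y) p x‖ ≤ B * (‖Λ x‖ + η * ‖x‖) :=
    mul_le_mul_of_nonneg_left hP hB0
  have h6 : η * (2 * B) * ‖x‖ ≤ 1 * ‖x‖ := mul_le_mul_of_nonneg_right hη (norm_nonneg _)
  have h7 : ‖x‖ ≤ B * ‖Λ x‖ + B * (η * ‖x‖) := by linarith
  have h8 : B * (η * ‖x‖) * 2 = η * (2 * B) * ‖x‖ := by ring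
  linarith

private theorem norm_fderiv_sub_le (B : ℝ) (k : ℕ) (hk : 2 ≤ k) (a : Equiv.Perm E3)
    (ha : IsDif a) (hTB : TB k B a) (x y : E3) :
    ‖fderiv ℝ (fun y => a y) x - fderiv ℝ (fun y => a y) y‖ ≤ B * ‖x - y‖ := by
  have hd : ContDiff ℝ smo (fderiv ℝ (fun y => a y)) := ha.1.fderiv_right (by simp [smo])
  refine Convex.norm_image_sub_le_of_norm_fderiv_le (𝕜 := ℝ) (s := univ)
    (f := fderiv ℝ (fun y => a y)) (fun z _ => (hd.differentiable (by simp)) z) (fun z _ => ?_)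
    convex_univ (mem_univ y) (mem_univ x)
  rw [← norm_iteratedFDeriv_one, norm_iteratedFDeriv_fderiv]
  exact hTB.1 2 (by norm_num) hk z

/-- `a` is nearly affine at small scales. Let `T x = Λ x + b`, `P = Da(p)`; `‖P‖ ≤ B`, and `P` is
invertible with `‖P⁻¹‖ ≤ B` (chain rule for `a⁻¹ ∘ a`, `TB` for `a⁻¹`). If `‖Λ - P‖ ≤ η ≤ 1 / (2 B)`
then `‖Λ⁻¹‖ ≤ 2 B`: `‖x‖ ≤ B ‖P x‖ ≤ B ‖Λ x‖ + B η ‖x‖`. The rescaled map `κ` satisfies
`κ 0 = l⁻¹ Λ⁻¹ (a p - T p)`, so `‖κ 0‖ ≤ 2 B η` if `‖T p - a p‖ ≤ η l`;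
`Dκ(ξ) - 1 = Λ⁻¹ (Da(p + l ξ) - Λ)`, of norm at most `2 B (B l + η)` for `‖ξ‖ ≤ 1`
(`‖Da(p + l ξ) - Da(p)‖ ≤ B l` by the mean value inequality and `k ≥ 2`), and for `i ≥ 2`
`D^i κ(ξ) = l^(i-1) Λ⁻¹ D^i a(p + l ξ)`, of norm at most `2 B² l`. So
`‖D^i (κ - id)(ξ)‖ ≤ 4 B η + 4 B² l` for `‖ξ‖ ≤ 1`, `i ≤ k`. -/
theorem resc_bound (k : ℕ) (hk : 2 ≤ k) (B : ℝ) (hB : 1 ≤ B) (ε : ℝ) (hε : 0 < ε) :
    ∃ l₀ η : ℝ, 0 < l₀ ∧ l₀ ≤ 1 ∧ 0 < η ∧
      ∀ (l : ℝ) (hl : 0 < l), l ≤ l₀ → ∀ (a T : Equiv.Perm E3) (Λ : E3 ≃L[ℝ] E3) (b p : E3),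
        IsDif a → TB k B a → (∀ x, T x = Λ x + b) →
        ‖(Λ : E3 →L[ℝ] E3) - fderiv ℝ (fun y => a y) p‖ ≤ η → ‖T p - a p‖ ≤ η * l →
        ∀ i ≤ k, ∀ ξ ∈ Metric.closedBall (0 : E3) 1,
          ‖iteratedFDeriv ℝ i (disp (resc p l hl.ne' T a)) ξ‖ ≤ ε := by
  have hB0 : 0 < B := by linarith
  refine ⟨min 1 (ε / (8 * B ^ 2)), min (1 / (2 * B)) (ε / (8 * B)),
    lt_min one_pos (by positivity), min_le_left _ _, lt_min (by positivity) (by positivity), ?_⟩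
  set l₀ := min 1 (ε / (8 * B ^ 2)) with hl0
  set η := min (1 / (2 * B)) (ε / (8 * B)) with hη0
  intro l hl hll a T Λ b p ha hTB hT hΛ hTp i hi ξ hξ
  have hl1 : l ≤ 1 := hll.trans (min_le_left _ _)
  have hl2 : 8 * B ^ 2 * l ≤ ε := by
    have h1 : l ≤ ε / (8 * B ^ 2) := hll.trans (min_le_right _ _)
    rw [le_div_iff₀ (by positivity)] at h1
    linarith
  have hη1 : η * (2 * B) ≤ 1 := by
    have h1 : η ≤ 1 / (2 * B) := min_le_left _ _
    rw [le_div_iff₀ (by positivity)] at h1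
    exact h1
  have hη2 : 8 * B * η ≤ ε := by
    have h1 : η ≤ ε / (8 * B) := min_le_right _ _
    rw [le_div_iff₀ (by positivity)] at h1
    linarith
  have hηpos : 0 < η := lt_min (by positivity) (by positivity)
  have hsymm := norm_symm_le B hB k hk a ha hTB Λ p η hη1 hΛ
  have hder := fun x => hasFDerivAt_disp_resc p l hl a T ha Λ b hT x
  -- first derivative
  have hD1 : ∀ x ∈ Metric.closedBall (0 : E3) 1,
      ‖fderiv ℝ (disp (resc p l hl.ne' T a)) x‖ ≤ 2 * B * (B * l + η) := by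
    intro x hx
    rw [(hder x).fderiv]
    refine ContinuousLinearMap.opNorm_le_bound _ (by positivity) fun v => ?_
    have e1 : ((Λ.symm : E3 →L[ℝ] E3).comp (fderiv ℝ (fun y => a y) (p + l • x)) -
        ContinuousLinearMap.id ℝ E3) v =
        Λ.symm ((fderiv ℝ (fun y => a y) (p + l • x) - (Λ : E3 →L[ℝ] E3)) v) := by
      simp only [sub_apply, ContinuousLinearMap.comp_apply,
        ContinuousLinearMap.id_apply, map_sub, ContinuousLinearEquiv.coe_coe,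
        ContinuousLinearEquiv.symm_apply_apply]
    rw [e1]
    have h1 : ‖fderiv ℝ (fun y => a y) (p + l • x) - (Λ : E3 →L[ℝ] E3)‖ ≤ B * l + η := by
      have h2 : fderiv ℝ (fun y => a y) (p + l • x) - (Λ : E3 →L[ℝ] E3) =
          (fderiv ℝ (fun y => a y) (p + l • x) - fderiv ℝ (fun y => a y) p) -
            ((Λ : E3 →L[ℝ] E3) - fderiv ℝ (fun y => a y) p) := by abel
      have h3 := norm_fderiv_sub_le B k hk a ha hTB (p + l • x) p
      have h4 : ‖p + l • x - p‖ ≤ l := by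
        rw [add_sub_cancel_left, norm_smul, Real.norm_eq_abs, abs_of_pos hl]
        have : ‖x‖ ≤ 1 := by simpa using hx
        nlinarith
      rw [h2]
      refine (norm_sub_le _ _).trans ?_
      have h5 : B * ‖p + l • x - p‖ ≤ B * l := mul_le_mul_of_nonneg_left h4 hB0.le
      linarith
    calc ‖Λ.symm ((fderiv ℝ (fun y => a y) (p + l • x) - (Λ : E3 →L[ℝ] E3)) v)‖
        ≤ 2 * B * ‖(fderiv ℝ (fun y => a y) (p + l • x) - (Λ : E3 →L[ℝ] E3)) v‖ := hsymm _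
      _ ≤ 2 * B * ((B * l + η) * ‖v‖) := by
          refine mul_le_mul_of_nonneg_left ?_ (by positivity)
          exact (ContinuousLinearMap.le_opNorm _ v).trans
            (mul_le_mul_of_nonneg_right h1 (norm_nonneg _))
      _ = 2 * B * (B * l + η) * ‖v‖ := by ring
  have hbound1 : 2 * B * (B * l + η) ≤ ε := by nlinarith
  rcases i with _ | _ | j
  · rw [norm_iteratedFDeriv_zero]
    have h0 : ‖disp (resc p l hl.ne' T a) 0‖ ≤ 2 * B * η := by
      rw [disp_resc_eq p l hl a T Λ b hT]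
      have e1 : l⁻¹ • (Λ.symm (a (p + l • (0 : E3)) - b) - p) - 0 =
          l⁻¹ • Λ.symm (a p - T p) := by
        rw [smul_zero, add_zero, sub_zero, hT p]
        congr 1
        rw [map_sub, map_sub, map_add, ContinuousLinearEquiv.symm_apply_apply]
        abel
      change ‖l⁻¹ • (Λ.symm (a (p + l • (0 : E3)) - b) - p) - 0‖ ≤ _
      rw [e1, norm_smul, Real.norm_eq_abs, abs_of_pos (inv_pos.mpr hl)]
      have h1 := hsymm (a p - T p)
      rw [← norm_neg (a p - T p), neg_sub] at h1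
      have h2 : 2 * B * ‖T p - a p‖ ≤ 2 * B * (η * l) :=
        mul_le_mul_of_nonneg_left hTp (by positivity)
      calc l⁻¹ * ‖Λ.symm (a p - T p)‖ ≤ l⁻¹ * (2 * B * (η * l)) :=
            mul_le_mul_of_nonneg_left (h1.trans h2) (inv_pos.mpr hl).le
        _ = 2 * B * η * (l⁻¹ * l) := by ring
        _ = 2 * B * η := by rw [inv_mul_cancel₀ hl.ne', mul_one]
    have hmv := Convex.norm_image_sub_le_of_norm_fderiv_le (𝕜 := ℝ)
      (s := Metric.closedBall (0 : E3) 1) (f := disp (resc p l hl.ne' T a))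
      (x := 0) (y := ξ) (fun z _ => (hder z).differentiableAt) hD1 (convex_closedBall _ _)
      (Metric.mem_closedBall_self zero_le_one) hξ
    rw [sub_zero] at hmv
    have hξ1 : ‖ξ‖ ≤ 1 := by simpa using hξ
    have h2 : 2 * B * (B * l + η) * ‖ξ‖ ≤ 2 * B * (B * l + η) * 1 :=
      mul_le_mul_of_nonneg_left hξ1 (by positivity)
    have h3 : ‖disp (resc p l hl.ne' T a) ξ‖ ≤
        ‖disp (resc p l hl.ne' T a) ξ - disp (resc p l hl.ne' T a) 0‖ +
          ‖disp (resc p l hl.ne' T a) 0‖ := by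
      have := norm_add_le (disp (resc p l hl.ne' T a) ξ - disp (resc p l hl.ne' T a) 0)
        (disp (resc p l hl.ne' T a) 0)
      rwa [sub_add_cancel] at this
    nlinarith
  · rw [zero_add, norm_iteratedFDeriv_one]
    exact (hD1 ξ hξ).trans hbound1
  · have hA : ContDiff ℝ smo (fun ξ : E3 => a (p + l • ξ)) :=
      ha.1.comp (contDiff_const.add (contDiff_id.const_smul l))
    set L : E3 →L[ℝ] E3 := l⁻¹ • (Λ.symm : E3 →L[ℝ] E3) with hL
    have hLn : ‖L‖ ≤ l⁻¹ * (2 * B) := by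
      rw [hL, norm_smul, Real.norm_eq_abs, abs_of_pos (inv_pos.mpr hl)]
      refine mul_le_mul_of_nonneg_left ?_ (inv_pos.mpr hl).le
      exact ContinuousLinearMap.opNorm_le_bound _ (by positivity) hsymm
    have e1 : disp (resc p l hl.ne' T a) =
        ((L ∘ fun ξ : E3 => a (p + l • ξ)) - fun _ => l⁻¹ • (Λ.symm b + p)) - fun ξ => ξ := by
      rw [disp_resc_eq p l hl a T Λ b hT]
      funext x
      simp only [Pi.sub_apply, Function.comp_apply, hL, smul_apply,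
        ContinuousLinearEquiv.coe_coe, map_sub]
      rw [← smul_sub]
      congr 2
      abel
    have hLA : ContDiff ℝ smo (L ∘ fun ξ : E3 => a (p + l • ξ)) := L.contDiff.comp hA
    have hn := nat_le_smo (j + 1 + 1)
    have hid0 : iteratedFDeriv ℝ (j + 1 + 1) (fun ξ : E3 => ξ) ξ = 0 := by
      rw [← norm_eq_zero, ← norm_iteratedFDeriv_fderiv]
      have e2 : fderiv ℝ (fun ξ : E3 => ξ) = fun _ => ContinuousLinearMap.id ℝ E3 := by
        funext z
        exact fderiv_fun_id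
      rw [e2, iteratedFDeriv_succ_const]
      simp
    have e3 : iteratedFDeriv ℝ (j + 1 + 1) (disp (resc p l hl.ne' T a)) ξ =
        iteratedFDeriv ℝ (j + 1 + 1) (L ∘ fun ξ : E3 => a (p + l • ξ)) ξ := by
      rw [e1, iteratedFDeriv_sub_apply, iteratedFDeriv_sub_apply, hid0, iteratedFDeriv_succ_const]
      · simp
      · exact hLA.contDiffAt.of_le hn
      · exact contDiffAt_const
      · exact (hLA.sub contDiff_const).contDiffAt.of_le hn
      · exact contDiffAt_id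
    rw [e3]
    clear_value L
    refine (L.norm_iteratedFDeriv_comp_left hA.contDiffAt hn).trans ?_
    rw [itf_scale (fun y => a y) ha.1, norm_smul, norm_pow, Real.norm_eq_abs, abs_of_pos hl]
    have h1 : ‖iteratedFDeriv ℝ (j + 1 + 1) (fun y => a y) (p + l • ξ)‖ ≤ B :=
      hTB.1 (j + 1 + 1) (by omega) hi _
    have h2 : l ^ (j + 1 + 1) * ‖iteratedFDeriv ℝ (j + 1 + 1) (fun y => a y) (p + l • ξ)‖ ≤
        l ^ (j + 1 + 1) * B := mul_le_mul_of_nonneg_left h1 (by positivity)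
    calc ‖L‖ * (l ^ (j + 1 + 1) * ‖iteratedFDeriv ℝ (j + 1 + 1) (fun y => a y) (p + l • ξ)‖)
        ≤ (l⁻¹ * (2 * B)) * (l ^ (j + 1 + 1) * B) :=
          mul_le_mul hLn h2 (by positivity) (by positivity)
      _ = 2 * B ^ 2 * l * (l⁻¹ * l) * l ^ j := by ring
      _ = 2 * B ^ 2 * l * l ^ j := by rw [inv_mul_cancel₀ hl.ne', mul_one]
      _ ≤ 2 * B ^ 2 * l * 1 :=
          mul_le_mul_of_nonneg_left (pow_le_one₀ hl.le hl1) (by positivity)
      _ ≤ ε := by nlinarith [mul_pos (pow_pos hB0 2) hl]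

end Pool.Agent.QM59.EE
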