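import Mathlib
import Pool.Agent.Lib.MP_decea1_gt_E.Resc
import Pool.Agent.Lib.MP_decea1_gt_E.RatPt
import Pool.Agent.Lib.MP_decea1_gt_E.Nrm

/-!
# MP_decea1_gt, block E, module Loc: affine models on small cubes
-/

set_option autoImplicit false

open MeasureTheory Set

namespace Pool.Agent.QM59.EE

/-- **Local model.** For all small `l` and all rational centres `c` there are a rational affine map
`A` and a near-identity map `f` supported in the cube of radius `l` around `c` such that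
`a (f x) = A x` on the cube of radius `(1 - 2 θ) l`.

Proof. `C`, `c₀` from `NId_inv k`; `ε₁ = min c₀ (min θ (δ / C))`; `ε` from `NEg` for `k`, `θ`, `ε₁`;
`l₀`, `η` from `resc_bound (k + 3) B ε`. Given `l ≤ l₀`, `p = qpt c`, `P = Da(p)` (determinant `1`
by `Vol a`), `A` from `exists_ratA` with the tolerances `η`, `η l`, `T` from `exists_perm`.
`κ = resc p l T a` is `IsDif`, `Vol` (`vol_conj_homoth` for `T⁻¹ * a`) and near the identity on the
unit ball (`resc_bound`). `κ'` from `NEg`. Put `f = homoth p l * κ'⁻¹ * (homoth p l)⁻¹`. It is the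
identity off `closedBall p l`, `IsDif`, `Vol` (`vol_conj_homoth'`), and the bounds are those of
`κ'⁻¹` (`disp_conj_homoth`, `NId_inv` with `M = 1`). For `x ∈ closedBall p ((1 - 2 θ) l)` let
`ξ = l⁻¹ (x - p)`, `‖ξ‖ ≤ 1 - 2 θ`, `ξ' = κ'⁻¹ ξ`; `‖ξ' - ξ‖ = ‖disp κ' ξ'‖ ≤ θ`, so
`‖ξ'‖ ≤ 1 - θ` and `κ ξ' = κ' ξ' = ξ`, that is `T⁻¹ (a (p + l ξ')) = p + l ξ = x`, and
`f x = p + l ξ'`. -/
theorem local_model (hNE : NEg) (k : ℕ) (a : Equiv.Perm E3) (ha : IsDif a) (hv : Vol a) (B : ℝ)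
    (hB : 1 ≤ B) (hTB : TB (k + 3) B a) (θ δ : ℝ) (hθ : 0 < θ) (hθ1 : θ < 1) (hδ : 0 < δ) :
    ∃ l₀ : ℝ, 0 < l₀ ∧ ∀ (l : ℝ) (c : Fin 3 → ℚ), 0 < l → l ≤ l₀ →
      ∃ (A : RatA) (f : Equiv.Perm E3), Ok (Metric.closedBall (qpt c) l) f ∧
        (∀ i ≤ k, ∀ x, l ^ i * ‖iteratedFDeriv ℝ i (disp f) x‖ ≤ δ * l) ∧
        ∀ x ∈ Metric.closedBall (qpt c) ((1 - 2 * θ) * l), a (f x) = A.app x := by
  obtain ⟨C, c₀, hC, hc₀, hInv⟩ := NId_inv k
  have hC0 : 0 < C := lt_of_lt_of_le one_pos hC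
  have hε₁ : 0 < min c₀ (min θ (δ / C)) := lt_min hc₀ (lt_min hθ (div_pos hδ hC0))
  have h1c : min c₀ (min θ (δ / C)) ≤ c₀ := min_le_left _ _
  have h1θ : min c₀ (min θ (δ / C)) ≤ θ := (min_le_right _ _).trans (min_le_left _ _)
  have h1δ : C * min c₀ (min θ (δ / C)) ≤ δ := by
    have h := (min_le_right c₀ (min θ (δ / C))).trans (min_le_right _ _)
    calc C * min c₀ (min θ (δ / C)) ≤ C * (δ / C) := mul_le_mul_of_nonneg_left h hC0.le
      _ = δ := mul_div_cancel₀ δ hC0.ne'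
  generalize min c₀ (min θ (δ / C)) = ε₁ at hε₁ h1c h1θ h1δ
  obtain ⟨ε, hε, hNE'⟩ := hNE k θ ε₁ hθ hθ1 hε₁
  obtain ⟨l₀, η, hl₀, -, hη, hres⟩ := resc_bound (k + 3) (by omega) B hB ε hε
  refine ⟨l₀, hl₀, fun l c hl hll => ?_⟩
  have hP : (fderiv ℝ (fun y => a y) (qpt c)).det = 1 := hv (qpt c)
  obtain ⟨A, hA1, hA2⟩ := exists_ratA _ hP c (a (qpt c)) η (η * l) hη (mul_pos hη hl)
  obtain ⟨Λ, T, hΛ, hT1, hT2, hTd, hTv⟩ := exists_perm A
  have hκb := hres l hl hll a T Λ (fun i => (A.t i : ℝ)) (qpt c) ha hTB hT2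
    (by rw [hΛ]; exact hA1) (by rw [hT1]; exact hA2)
  have hκd := resc_isDif (qpt c) l hl.ne' hTd ha
  have hκv : Vol (resc (qpt c) l hl.ne' T a) := by
    have h := vol_conj_homoth (qpt c) l hl.ne' (hTd.inv.mul ha)
      (Vol.mul hTd.inv ha (Vol.inv hTd hTv) hv)
    have e : resc (qpt c) l hl.ne' T a =
        (homoth (qpt c) l hl.ne')⁻¹ * (T⁻¹ * a) * homoth (qpt c) l hl.ne' := by
      unfold resc
      simp only [mul_assoc]
    rw [e]
    exact h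
  obtain ⟨κ', hok, heq, hbn⟩ := hNE' _ hκd hκv hκb
  have hN : NId k 1 ε₁ κ' := fun i hi x => by
    rw [one_mul, one_pow, mul_one]
    exact hbn i hi x
  have hNi := hInv 1 ε₁ κ' one_pos hε₁.le h1c hok.dif hN
  have hdi := hok.dif.inv
  have hvi := Vol.inv hok.dif hok.vol
  have hoi := hok.off.inv
  have hfa : ∀ x, (homoth (qpt c) l hl.ne' * κ'⁻¹ * (homoth (qpt c) l hl.ne')⁻¹) x =
      qpt c + l • κ'⁻¹ (l⁻¹ • (x - qpt c)) := fun x => rfl
  refine ⟨A, homoth (qpt c) l hl.ne' * κ'⁻¹ * (homoth (qpt c) l hl.ne')⁻¹, ⟨?_, ?_, ?_⟩, ?_, ?_⟩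
  · exact ((homoth_isDif _ l hl.ne').mul hdi).mul (homoth_isDif _ l hl.ne').inv
  · exact vol_conj_homoth' (qpt c) l hl.ne' hdi hvi
  · intro x hx
    have hn : l⁻¹ • (x - qpt c) ∉ Metric.closedBall (0 : E3) 1 := by
      intro h
      apply hx
      rw [mem_closedBall_zero_iff, norm_smul, norm_inv, Real.norm_eq_abs, abs_of_pos hl,
        inv_mul_le_iff₀ hl, mul_one] at h
      rw [Metric.mem_closedBall, dist_eq_norm]
      exact h
    rw [hfa, hoi _ hn, smul_smul, mul_inv_cancel₀ hl.ne', one_smul, add_sub_cancel]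
  · intro i hi x
    rw [disp_conj_homoth (qpt c) l hl κ'⁻¹ hdi i x]
    have h := hNi i hi (l⁻¹ • (x - qpt c))
    rw [one_mul, one_pow, mul_one] at h
    calc l * ‖iteratedFDeriv ℝ i (disp κ'⁻¹) (l⁻¹ • (x - qpt c))‖ ≤ l * δ :=
          mul_le_mul_of_nonneg_left (h.trans h1δ) hl.le
      _ = δ * l := mul_comm _ _
  · intro x hx
    rw [Metric.mem_closedBall, dist_eq_norm] at hx
    have hξ : ‖l⁻¹ • (x - qpt c)‖ ≤ 1 - 2 * θ := by
      rw [norm_smul, norm_inv, Real.norm_eq_abs, abs_of_pos hl, inv_mul_le_iff₀ hl]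
      rw [mul_comm]
      exact hx
    obtain ⟨ξ, hξe⟩ : ∃ ξ : E3, ξ = l⁻¹ • (x - qpt c) := ⟨_, rfl⟩
    obtain ⟨ξ', hξ'⟩ : ∃ ξ' : E3, ξ' = κ'⁻¹ ξ := ⟨_, rfl⟩
    have hκξ : κ' ξ' = ξ := by
      rw [hξ']
      exact κ'.apply_symm_apply ξ
    have hd : ‖ξ - ξ'‖ ≤ θ := by
      have h := hbn 0 (Nat.zero_le k) ξ'
      rw [norm_iteratedFDeriv_zero] at h
      have e : disp κ' ξ' = ξ - ξ' := by
        unfold disp
        rw [hκξ]
      rw [e] at h
      exact h.trans h1θ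
    have hξ'n : ξ' ∈ Metric.closedBall (0 : E3) (1 - θ) := by
      rw [mem_closedBall_zero_iff]
      have e : ξ' = ξ - (ξ - ξ') := by abel
      rw [e]
      refine (norm_sub_le _ _).trans ?_
      rw [← hξe] at hξ
      linarith
    have hκe : resc (qpt c) l hl.ne' T a ξ' = ξ := (heq ξ' hξ'n).symm.trans hκξ
    have hκe2 : l⁻¹ • (T⁻¹ (a (qpt c + l • ξ')) - qpt c) = l⁻¹ • (x - qpt c) := by
      rw [← hξe]
      exact hκe
    have hTx : T⁻¹ (a (qpt c + l • ξ')) = x := by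
      have h := congrArg (fun y : E3 => l • y) hκe2
      simp only [smul_smul, mul_inv_cancel₀ hl.ne', one_smul] at h
      exact sub_left_injective h
    rw [hfa, ← hξe, ← hξ', ← hT1, ← hTx]
    exact (T.apply_symm_apply _).symm

end Pool.Agent.QM59.EE
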