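import Mathlib
import Pool.Agent.Lib.MP_decea1_gt_E.Loc
import Pool.Agent.Lib.MP_decea1_gt_E.Grid
import Pool.Agent.Lib.MP_decea1_gt_E.Glue
import Pool.Agent.Lib.MP_decea1_gt_E.Tame

/-!
# MP_decea1_gt, block E, module Model: the rational affine model
-/

set_option autoImplicit false

open MeasureTheory Set

namespace Pool.Agent.QM59.EE

/-- **Affine model.** `e`, `θ`, `M₁` from `grid v`. Given `a` and `δ`, `B` from `exists_TB`
(order `k + 3`), `l₀` from `local_model` with `θ` and `δ / 4 ^ k`, and `M₀ ≥ M₁` with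
`1 / M₀ ≤ l₀`. For `M ≥ M₀` let `l = (1 - θ) / (2 M)`, `c j` the centres from `grid`, `A j`, `f j`
from `local_model`; `F = (List.ofFn f).prod`. From `l ^ i ‖D^i disp (f j) x‖ ≤ (δ / 4 ^ k) l` and
`1 / 4 ≤ l M ≤ 1` one gets `NId k M δ (f j)`. `F x = f j x` for `x` in the `j`-th cube (`glue_mem`),
so `(a * F) x = (A j).app x` on the cube of radius `(1 - 2 θ) l`. These cubes are pairwise disjoint
and contained in the cube (`Kc_sub_Cube`). -/
theorem model (hNE : NEg) (k : ℕ) (v : ℝ) (hv : 0 < v) : ∃ e : ℝ, 0 < e ∧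
    ∀ a : Equiv.Perm E3, IsDif a → Vol a → (∃ K, IsCompact K ∧ IdOff K a) →
    ∀ δ : ℝ, 0 < δ → ∃ M₀ : ℕ, 1 ≤ M₀ ∧ ∀ M : ℕ, M₀ ≤ M →
      ∃ F : Equiv.Perm E3, Lay k M δ e F ∧ RatOff (a * F) v := by
  obtain ⟨e, θ, M₁, he, hθ, hθ4, hM₁, hg⟩ := grid v hv
  refine ⟨e, he, fun a ha hva hKa δ hδ => ?_⟩
  obtain ⟨K, hK, hKo⟩ := hKa
  obtain ⟨B, hB, hTB⟩ := exists_TB (k + 3) a ha K hK hKo
  have hθR : (0 : ℝ) < (θ : ℝ) := by exact_mod_cast hθ
  have hθR4 : (θ : ℝ) < 1 / 4 := by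
    have h : ((θ : ℚ) : ℝ) < ((1 / 4 : ℚ) : ℝ) := by exact_mod_cast hθ4
    simpa using h
  obtain ⟨l₀, hl₀, hloc⟩ := local_model hNE k a ha hva B hB hTB (θ : ℝ) (δ / 4 ^ k) hθR
    (by linarith) (by positivity)
  obtain ⟨M₂, hM₂⟩ := exists_nat_gt (1 / l₀)
  refine ⟨max M₁ M₂, le_trans hM₁ (le_max_left _ _), fun M hM => ?_⟩
  obtain ⟨n, c, hd, hs, hvol⟩ := hg M (le_trans (le_max_left _ _) hM)
  have hM1 : (1 : ℝ) ≤ (M : ℝ) := by
    exact_mod_cast hM₁.trans ((le_max_left _ _).trans hM)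
  have hM0 : (0 : ℝ) < (M : ℝ) := by linarith
  have hMl : 1 / l₀ < (M : ℝ) := lt_of_lt_of_le hM₂ (by
    exact_mod_cast (le_max_right _ _).trans hM)
  have hM0q : (0 : ℚ) < (M : ℚ) := by exact_mod_cast hM0
  obtain ⟨r, hr⟩ : ∃ r : ℚ, r = (1 - θ) / (2 * M) := ⟨_, rfl⟩
  rw [← hr] at hd hs hvol
  have hr0 : 0 < r := by
    rw [hr]
    exact div_pos (by linarith) (by linarith)
  have hrR : (r : ℝ) = (1 - (θ : ℝ)) / (2 * M) := by
    rw [hr]
    push_cast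
    rfl
  have hrR0 : (0 : ℝ) < (r : ℝ) := by exact_mod_cast hr0
  have hrM : (r : ℝ) * M = (1 - (θ : ℝ)) / 2 := by
    rw [hrR]
    field_simp
  have hrl : (r : ℝ) ≤ l₀ := by
    have h1 : (1 : ℝ) < l₀ * M := by
      have := (div_lt_iff₀ hl₀).1 hMl
      linarith [mul_comm (M : ℝ) l₀]
    have h2 : (r : ℝ) * M ≤ l₀ * M := by
      rw [hrM]
      linarith
    exact le_of_mul_le_mul_right h2 hM0
  choose A f hok hbd heq using fun j => hloc (r : ℝ) (c j) hrR0 hrl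
  have hN : ∀ i, NId k M δ (f i) := by
    intro j i hi x
    have h1 := hbd j i hi x
    have hD : 0 ≤ ‖iteratedFDeriv ℝ i (disp (f j)) x‖ := norm_nonneg _
    have h2 : (1 / 4 : ℝ) ^ k ≤ ((r : ℝ) * M) ^ i := by
      have h3 : (1 / 4 : ℝ) ^ k ≤ (1 / 4 : ℝ) ^ i :=
        pow_le_pow_of_le_one (by norm_num) (by norm_num) hi
      have h4 : (1 / 4 : ℝ) ^ i ≤ ((r : ℝ) * M) ^ i := by
        apply pow_le_pow_left₀ (by norm_num)
        rw [hrM]
        linarith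
      exact h3.trans h4
    have h5 : (M : ℝ) ^ i * M * ((r : ℝ) ^ i * ‖iteratedFDeriv ℝ i (disp (f j)) x‖) ≤
        (M : ℝ) ^ i * M * (δ / 4 ^ k * r) := mul_le_mul_of_nonneg_left h1 (by positivity)
    have h6 : (M : ℝ) * ‖iteratedFDeriv ℝ i (disp (f j)) x‖ * (1 / 4) ^ k ≤
        (M : ℝ) * ‖iteratedFDeriv ℝ i (disp (f j)) x‖ * ((r : ℝ) * M) ^ i :=
      mul_le_mul_of_nonneg_left h2 (by positivity)
    have h7 : (M : ℝ) ^ i * M * (δ / 4 ^ k * r) ≤ δ / 4 ^ k * M ^ i := by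
      have : (M : ℝ) ^ i * M * (δ / 4 ^ k * r) = δ / 4 ^ k * M ^ i * (r * M) := by ring
      rw [this]
      have h8 : (r : ℝ) * M ≤ 1 := by
        rw [hrM]
        linarith
      have h9 : 0 ≤ δ / 4 ^ k * (M : ℝ) ^ i := by positivity
      calc δ / 4 ^ k * (M : ℝ) ^ i * (r * M) ≤ δ / 4 ^ k * (M : ℝ) ^ i * 1 :=
            mul_le_mul_of_nonneg_left h8 h9
        _ = _ := mul_one _
    have h10 : (M : ℝ) * ‖iteratedFDeriv ℝ i (disp (f j)) x‖ * (1 / 4) ^ k ≤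
        δ / 4 ^ k * M ^ i := by
      refine h6.trans (le_trans (le_of_eq ?_) (h5.trans h7))
      rw [mul_pow]
      ring
    have h11 : (0 : ℝ) < 4 ^ k := by positivity
    have h12 : δ / 4 ^ k * (M : ℝ) ^ i = δ * M ^ i * (1 / 4) ^ k := by
      rw [one_div, inv_pow]
      ring
    rw [h12] at h10
    exact le_of_mul_le_mul_right h10 (by positivity)
  have hcl : ∀ j, QCube (c j) ((1 - 2 * θ) * r) ⊆ QCube (c j) r := by
    intro j
    apply Metric.closedBall_subset_closedBall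
    have h1 : (1 - 2 * θ) * r ≤ r := by nlinarith
    exact_mod_cast h1
  refine ⟨(List.ofFn f).prod, ⟨n, fun j => qpt (c j), r, f, ?_, hd, hs, hok, hN, rfl⟩,
    ⟨n, c, fun _ => (1 - 2 * θ) * r, A, ?_, ?_, ?_, ?_, ?_⟩⟩
  · rw [hrM]
    linarith
  · intro j
    exact mul_pos (by linarith) hr0
  · intro j
    exact (hcl j).trans ((hs j).trans (Kc_sub_Cube he))
  · intro i j hij
    exact (hd hij).mono (hcl i) (hcl j)
  · intro j x hx
    have hx' : x ∈ Metric.closedBall (qpt (c j)) ((1 - 2 * (θ : ℝ)) * (r : ℝ)) := by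
      have h := hx
      unfold QCube at h
      push_cast at h
      exact h
    rw [Equiv.Perm.mul_apply,
      glue_mem f (fun j => Metric.closedBall (qpt (c j)) (r : ℝ)) hd (fun i => (hok i).off) j x
        (hcl j hx)]
    exact heq j x hx'
  · exact hvol

end Pool.Agent.QM59.EE
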