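import Mathlib
import Pool.Agent.Lib.MP_decea1_gt_E.Layer
import Pool.Agent.Lib.MP_decea1_gt_E.Model

/-!
# MP_decea1_gt, block E, module ThmM: Theorem M
-/

set_option autoImplicit false

open MeasureTheory Set

namespace Pool.Agent.QM59.EE

/-- **THEOREM M.** Let `a, b ∈ Γ` and `η > 0`. `v` from `hD` for `η`, `e` from `model` (with
`k' = max k 1`, `LLL_mono`). `δ`, `M₀` common to the three applications of `layer`: `x = a` with the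
one-element list and `g = 1`; `x = b` with `g = 1`; `x = a * b` with the list `[0, 1]` and
`g 0 = b`, `g 1 = 1` (take the minimum of the `δ`'s and the maximum of the `M₀`'s; `Lay.mono`). For
`M` large `Fa`, `Fb` from `model` for `a`, `b`, `δ`. Put `s = a * Fa`, `s' = b * Fb`; both are in
`Γ` (`Lay.mem`). `|dphi φ s s'| ≤ η`, `|φ s - φ a| ≤ η`, `|φ s' - φ b| ≤ η`, and
`s * s' = (a * b) * (b⁻¹ * Fa * b) * (1⁻¹ * Fb * 1)`, so `|φ (s * s') - φ (a * b)| ≤ η`. Hence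
`|dphi φ a b| ≤ 4 η` for every `η > 0`. -/
theorem theoremM (hNE : NEg)
    (hLL : ∃ (k : ℕ) (ε R C : ℝ), 0 < ε ∧ 1 ≤ R ∧ 0 ≤ C ∧ LLL k ε R C)
    {Γ : Subgroup (Equiv.Perm E3)} {φ : Equiv.Perm E3 → ℝ} {D : ℝ} (hΓ : Good Γ)
    (hφ : HQ Γ φ D) (hD : DFin Γ φ) :
    ∀ f ∈ Γ, ∀ g ∈ Γ, φ (f * g) = φ f + φ g := by
  intro a ha b hb
  obtain ⟨k₀, ε, R, C, hε, hR, hC, hL₀⟩ := hLL
  obtain ⟨k, hk, hL⟩ : ∃ k, 1 ≤ k ∧ LLL k ε R C :=
    ⟨max k₀ 1, le_max_right _ _, LLL_mono hL₀ (le_max_left _ _)⟩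
  have key : ∀ η : ℝ, 0 < η → |φ (a * b) - φ a - φ b| ≤ 4 * η := by
    intro η hη
    obtain ⟨v, hv, hDv⟩ := hD η hη
    obtain ⟨e, he, hmod⟩ := model hNE k v hv
    obtain ⟨δ1, M1, hδ1, hδ1', hM1, h1⟩ := layer hk hε hR hC hL hΓ hφ ha [()] (fun _ => 1)
      (fun _ _ => Γ.one_mem) e he η hη
    obtain ⟨δ2, M2, hδ2, hδ2', hM2, h2⟩ := layer hk hε hR hC hL hΓ hφ hb [()] (fun _ => 1)
      (fun _ _ => Γ.one_mem) e he η hη
    obtain ⟨δ3, M3, hδ3, hδ3', hM3, h3⟩ := layer hk hε hR hC hL hΓ hφ (Γ.mul_mem ha hb)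
      [false, true] (fun j => if j then 1 else b)
      (fun j _ => by cases j <;> simp [hb, Γ.one_mem]) e he η hη
    obtain ⟨δ, hδ, hd1, hd2, hd3⟩ : ∃ δ : ℝ, 0 < δ ∧ δ ≤ δ1 ∧ δ ≤ δ2 ∧ δ ≤ δ3 :=
      ⟨min δ1 (min δ2 δ3), lt_min hδ1 (lt_min hδ2 hδ3), min_le_left _ _,
        (min_le_right _ _).trans (min_le_left _ _), (min_le_right _ _).trans (min_le_right _ _)⟩
    obtain ⟨Ka, -, hKa, hoffa⟩ := hΓ.supp a ha
    obtain ⟨Kb, -, hKb, hoffb⟩ := hΓ.supp b hb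
    obtain ⟨Na, hNa, hma⟩ := hmod a (hΓ.dif a ha) (hΓ.vol a ha) ⟨Ka, hKa, hoffa⟩ δ hδ
    obtain ⟨Nb, hNb, hmb⟩ := hmod b (hΓ.dif b hb) (hΓ.vol b hb) ⟨Kb, hKb, hoffb⟩ δ hδ
    obtain ⟨N1, hN1⟩ := exists_nat_ge M1
    obtain ⟨N2, hN2⟩ := exists_nat_ge M2
    obtain ⟨N3, hN3⟩ := exists_nat_ge M3
    obtain ⟨M, hMa, hMb, hMN1, hMN2, hMN3⟩ :
        ∃ M : ℕ, Na ≤ M ∧ Nb ≤ M ∧ N1 ≤ M ∧ N2 ≤ M ∧ N3 ≤ M :=
      ⟨Na + Nb + N1 + N2 + N3, by omega, by omega, by omega, by omega, by omega⟩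
    have g1 : M1 ≤ (M : ℝ) := hN1.trans (by exact_mod_cast hMN1)
    have g2 : M2 ≤ (M : ℝ) := hN2.trans (by exact_mod_cast hMN2)
    have g3 : M3 ≤ (M : ℝ) := hN3.trans (by exact_mod_cast hMN3)
    have hM0 : (0 : ℝ) < (M : ℝ) := by linarith
    obtain ⟨Fa, hLa, hRa⟩ := hma M hMa
    obtain ⟨Fb, hLb, hRb⟩ := hmb M hMb
    have hFa : Fa ∈ Γ := hLa.mem hΓ hk hM0 hδ.le (by linarith) he
    have hFb : Fb ∈ Γ := hLb.mem hΓ hk hM0 hδ.le (by linarith) he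
    have e0 := hDv (a * Fa) (Γ.mul_mem ha hFa) (b * Fb) (Γ.mul_mem hb hFb) hRa hRb
    have e1 := h1 M g1 (fun _ => Fa) (fun _ _ => hLa.mono hM0.le hd1)
    have e2 := h2 M g2 (fun _ => Fb) (fun _ _ => hLb.mono hM0.le hd2)
    have e3 := h3 M g3 (fun j => if j then Fb else Fa) (fun j _ => by
      cases j
      · exact hLa.mono hM0.le hd3
      · exact hLb.mono hM0.le hd3)
    have c1 : a * ([()].map fun _ => (1 : Equiv.Perm E3)⁻¹ * Fa * 1).prod = a * Fa := by simp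
    have c2 : b * ([()].map fun _ => (1 : Equiv.Perm E3)⁻¹ * Fb * 1).prod = b * Fb := by simp
    have c3 : a * b * ([false, true].map fun j : Bool =>
        (if j then (1 : Equiv.Perm E3) else b)⁻¹ * (if j then Fb else Fa) *
          (if j then 1 else b)).prod = a * Fa * (b * Fb) := by
      simp [mul_assoc]
    rw [c1] at e1
    rw [c2] at e2
    rw [c3] at e3
    unfold dphi at e0
    rw [abs_le] at e0 e1 e2 e3 ⊢
    constructor <;> linarith [e0.1, e0.2, e1.1, e1.2, e2.1, e2.2, e3.1, e3.2]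
  have hz : |φ (a * b) - φ a - φ b| ≤ 0 := by
    refine le_of_forall_pos_le_add fun η hη => ?_
    have := key (η / 4) (by positivity)
    linarith
  have := abs_nonpos_iff.mp hz
  linarith

end Pool.Agent.QM59.EE
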