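import Mathlib
import Pool.Agent.Lib.MP_decea1_gt_E.EDefs
import Pool.Agent.Lib.MP_decea1_gt_C.NE
import Pool.Agent.Lib.MP_decea1_gt_C.LLLx
import Pool.Agent.Lib.MP_decea1_gt_E.ThmM

/-!
# MP_decea1_gt, block E, module FromC: the inputs from block C
-/

set_option autoImplicit false

open MeasureTheory Set

namespace Pool.Agent.QM59.EE

theorem neg : NEg := by
  intro k θ ε' hθ hθ1 hε'
  obtain ⟨ε, hε, h⟩ := NE k ε' θ hε' hθ hθ1
  refine ⟨ε, hε, fun κ hd hv hb => ?_⟩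
  obtain ⟨κ', h1, h2, h3⟩ := h (fun x => κ x) hd.1 hv hb
  exact ⟨κ', h1, h3, h2⟩

/-- Theorem M with the inputs of block C inserted. -/
theorem theoremM' {Γ : Subgroup (Equiv.Perm E3)} {φ : Equiv.Perm E3 → ℝ} {D : ℝ} (hΓ : Good Γ)
    (hφ : HQ Γ φ D) (hD : DFin Γ φ) : ∀ f ∈ Γ, ∀ g ∈ Γ, dphi φ f g = 0 := by
  intro f hf g hg
  have h := theoremM neg exists_LLL hΓ hφ hD f hf g hg
  unfold dphi
  linarith

end Pool.Agent.QM59.EE
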